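import Mathlib
import Pool.Agent.Work.MP_972ac7_tq.Interface2

/-!
# Definitions for property tau of the quaternion lattices at ALL odd primes (MP_972ac7_al)

This is the version of `MP_972ac7_al_tau/Defs.lean` (namespace TauQ) for primes `r ≠ 2`, also
`r ≡ 3 (mod 4)`. Everything that does not mention the letters `SS r` is taken from TauQ.
New: the monoid `OO` also contains quaternions `≡ i + j + k (mod 2)`; the inverse letter of `b` in
`SS r` is `eps r • star b`, and `b * inv b = pst r`, `pst r = eps r * r ≡ 1 (mod 4)`.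
-/

open scoped Quaternion BigOperators

namespace TauO

open TauQ

/-- the sign `1` if `r ≡ 1 (mod 4)`, otherwise `-1` -/
def eps (r : ℕ) : ℤ := if r % 4 = 1 then 1 else -1

/-- the signed prime -/
def pst (r : ℕ) : ℤ := eps r * r

lemma eps_sq (r : ℕ) : eps r * eps r = 1 := by
  unfold eps; split_ifs <;> norm_num

lemma pst_sq (r : ℕ) : pst r * pst r = (r : ℤ) * r := by
  have := eps_sq r
  unfold pst
  calc eps r * r * (eps r * r) = (eps r * eps r) * (r * r) := by ring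
    _ = r * r := by rw [this, one_mul]

lemma eps_one {r : ℕ} (h : r % 4 = 1) : eps r = 1 := by simp [eps, h]

lemma eps_three {r : ℕ} (h : r % 4 = 3) : eps r = -1 := by simp [eps, h]

/-- the quaternions with real part `1 mod 4` and even imaginary parts, and the quaternions with even
real part and odd imaginary parts of sum `3 mod 4` -/
def OO : Submonoid ℍ[ℤ] where
  carrier := {α | (α.re % 4 = 1 ∧ 2 ∣ α.imI ∧ 2 ∣ α.imJ ∧ 2 ∣ α.imK) ∨
    (2 ∣ α.re ∧ α.imI % 2 = 1 ∧ α.imJ % 2 = 1 ∧ α.imK % 2 = 1 ∧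
      (α.imI + α.imJ + α.imK) % 4 = 3)}
  one_mem' := by left; simp
  mul_mem' := by
    have hodd : ∀ x : ℤ, x % 2 = 1 → ∃ y, x = 2 * y + 1 := fun x hx => ⟨x / 2, by omega⟩
    have hone : ∀ x : ℤ, x % 4 = 1 → ∃ y, x = 4 * y + 1 := fun x hx => ⟨x / 4, by omega⟩
    rintro α β (⟨h0, ⟨a1, h1⟩, ⟨a2, h2⟩, ⟨a3, h3⟩⟩ | ⟨⟨a0, h0⟩, h1, h2, h3, h4⟩)
      (⟨k0, ⟨b1, k1⟩, ⟨b2, k2⟩, ⟨b3, k3⟩⟩ | ⟨⟨b0, k0⟩, k1, k2, k3, k4⟩)
    · left
      obtain ⟨a0, h0⟩ := hone _ h0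
      obtain ⟨b0, k0⟩ := hone _ k0
      refine ⟨?_, ?_, ?_, ?_⟩
      · have e : (α * β).re = 4 * (4 * a0 * b0 + a0 + b0 - (a1 * b1 + a2 * b2 + a3 * b3)) + 1 := by
          simp [h0, h1, h2, h3, k0, k1, k2, k3]; ring
        omega
      · refine ⟨(4 * a0 + 1) * b1 + a1 * (4 * b0 + 1) + 2 * a2 * b3 - 2 * a3 * b2, ?_⟩
        simp [h0, h1, h2, h3, k0, k1, k2, k3]; ring
      · refine ⟨(4 * a0 + 1) * b2 - 2 * a1 * b3 + a2 * (4 * b0 + 1) + 2 * a3 * b1, ?_⟩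
        simp [h0, h1, h2, h3, k0, k1, k2, k3]; ring
      · refine ⟨(4 * a0 + 1) * b3 + 2 * a1 * b2 - 2 * a2 * b1 + a3 * (4 * b0 + 1), ?_⟩
        simp [h0, h1, h2, h3, k0, k1, k2, k3]; ring
    · right
      obtain ⟨a0, h0⟩ := hone _ h0
      obtain ⟨b1, k1⟩ := hodd _ k1
      obtain ⟨b2, k2⟩ := hodd _ k2
      obtain ⟨b3, k3⟩ := hodd _ k3
      have e0 : (α * β).re = 2 * ((4 * a0 + 1) * b0 - a1 * (2 * b1 + 1) - a2 * (2 * b2 + 1) -
          a3 * (2 * b3 + 1)) := by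
        simp [h0, h1, h2, h3, k0, k1, k2, k3]; ring
      have e1 : (α * β).imI = 2 * (4 * a0 * b1 + 2 * a0 + b1 + 2 * a1 * b0 + a2 * (2 * b3 + 1) -
          a3 * (2 * b2 + 1)) + 1 := by
        simp [h0, h1, h2, h3, k0, k1, k2, k3]; ring
      have e2 : (α * β).imJ = 2 * (4 * a0 * b2 + 2 * a0 + b2 - a1 * (2 * b3 + 1) + 2 * a2 * b0 +
          a3 * (2 * b1 + 1)) + 1 := by
        simp [h0, h1, h2, h3, k0, k1, k2, k3]; ring
      have e3 : (α * β).imK = 2 * (4 * a0 * b3 + 2 * a0 + b3 + a1 * (2 * b2 + 1) -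
          a2 * (2 * b1 + 1) + 2 * a3 * b0) + 1 := by
        simp [h0, h1, h2, h3, k0, k1, k2, k3]; ring
      have e4 : (α * β).imI + (α * β).imJ + (α * β).imK =
          (β.imI + β.imJ + β.imK) + 4 * (a0 * (2 * (b1 + b2 + b3) + 3) + (a1 + a2 + a3) * b0 +
            a2 * (b3 - b1) + a3 * (b1 - b2) + a1 * (b2 - b3)) := by
        rw [e1, e2, e3, k1, k2, k3]; ring
      refine ⟨⟨_, e0⟩, by omega, by omega, by omega, ?_⟩
      rw [e4, Int.add_mul_emod_self_left]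
      exact k4
    · right
      obtain ⟨b0, k0⟩ := hone _ k0
      obtain ⟨a1, h1⟩ := hodd _ h1
      obtain ⟨a2, h2⟩ := hodd _ h2
      obtain ⟨a3, h3⟩ := hodd _ h3
      have e0 : (α * β).re = 2 * (a0 * (4 * b0 + 1) - (2 * a1 + 1) * b1 - (2 * a2 + 1) * b2 -
          (2 * a3 + 1) * b3) := by
        simp [h0, h1, h2, h3, k0, k1, k2, k3]; ring
      have e1 : (α * β).imI = 2 * (2 * a0 * b1 + 4 * a1 * b0 + 2 * b0 + a1 + (2 * a2 + 1) * b3 -
          (2 * a3 + 1) * b2) + 1 := by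
        simp [h0, h1, h2, h3, k0, k1, k2, k3]; ring
      have e2 : (α * β).imJ = 2 * (2 * a0 * b2 - (2 * a1 + 1) * b3 + 4 * a2 * b0 + 2 * b0 + a2 +
          (2 * a3 + 1) * b1) + 1 := by
        simp [h0, h1, h2, h3, k0, k1, k2, k3]; ring
      have e3 : (α * β).imK = 2 * (2 * a0 * b3 + (2 * a1 + 1) * b2 - (2 * a2 + 1) * b1 +
          4 * a3 * b0 + 2 * b0 + a3) + 1 := by
        simp [h0, h1, h2, h3, k0, k1, k2, k3]; ring
      have e4 : (α * β).imI + (α * β).imJ + (α * β).imK =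
          (α.imI + α.imJ + α.imK) + 4 * (a0 * (b1 + b2 + b3) + (2 * (a1 + a2 + a3) + 3) * b0 +
            a2 * (b3 - b1) + a3 * (b1 - b2) + a1 * (b2 - b3)) := by
        rw [e1, e2, e3, h1, h2, h3]; ring
      refine ⟨⟨_, e0⟩, by omega, by omega, by omega, ?_⟩
      rw [e4, Int.add_mul_emod_self_left]
      exact h4
    · left
      obtain ⟨a1, h1⟩ := hodd _ h1
      obtain ⟨a2, h2⟩ := hodd _ h2
      obtain ⟨a3, h3⟩ := hodd _ h3
      obtain ⟨b1, k1⟩ := hodd _ k1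
      obtain ⟨b2, k2⟩ := hodd _ k2
      obtain ⟨b3, k3⟩ := hodd _ k3
      have ha : (a1 + a2 + a3) % 2 = 0 := by omega
      have hb : (b1 + b2 + b3) % 2 = 0 := by omega
      have e0 : (α * β).re = 4 * (a0 * b0 - a1 * b1 - a2 * b2 - a3 * b3) -
          2 * (a1 + a2 + a3) - 2 * (b1 + b2 + b3) - 3 := by
        simp [h0, h1, h2, h3, k0, k1, k2, k3]; ring
      refine ⟨by omega, ?_, ?_, ?_⟩
      · refine ⟨a0 * (2 * b1 + 1) + (2 * a1 + 1) * b0 + (2 * a2 * b3 + a2 + b3) -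
          (2 * a3 * b2 + a3 + b2), ?_⟩
        simp [h0, h1, h2, h3, k0, k1, k2, k3]; ring
      · refine ⟨a0 * (2 * b2 + 1) - (2 * a1 * b3 + a1 + b3) + (2 * a2 + 1) * b0 +
          (2 * a3 * b1 + a3 + b1), ?_⟩
        simp [h0, h1, h2, h3, k0, k1, k2, k3]; ring
      · refine ⟨a0 * (2 * b3 + 1) + (2 * a1 * b2 + a1 + b2) - (2 * a2 * b1 + a2 + b1) +
          (2 * a3 + 1) * b0, ?_⟩
        simp [h0, h1, h2, h3, k0, k1, k2, k3]; ring

lemma mem_OO {α : ℍ[ℤ]} : α ∈ OO ↔ (α.re % 4 = 1 ∧ 2 ∣ α.imI ∧ 2 ∣ α.imJ ∧ 2 ∣ α.imK) ∨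
    (2 ∣ α.re ∧ α.imI % 2 = 1 ∧ α.imJ % 2 = 1 ∧ α.imK % 2 = 1 ∧
      (α.imI + α.imJ + α.imK) % 4 = 3) := Iff.rfl

/-- the elements of the first kind are the old monoid -/
lemma mem_old {α : ℍ[ℤ]} : α ∈ TauQ.OO ↔ α.re % 4 = 1 ∧ 2 ∣ α.imI ∧ 2 ∣ α.imJ ∧ 2 ∣ α.imK :=
  Iff.rfl

lemma old_le : TauQ.OO ≤ OO := fun _ h => Or.inl h

lemma norm_old {α : ℍ[ℤ]} (h : α ∈ TauQ.OO) : Quaternion.normSq α % 4 = 1 := by
  obtain ⟨h0, ⟨a1, h1⟩, ⟨a2, h2⟩, ⟨a3, h3⟩⟩ := mem_old.1 h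
  obtain ⟨a0, h0⟩ : ∃ y, α.re = 4 * y + 1 := ⟨α.re / 4, by omega⟩
  have e : Quaternion.normSq α = 4 * (4 * a0 * a0 + 2 * a0 + a1 * a1 + a2 * a2 + a3 * a3) + 1 := by
    rw [Quaternion.normSq_def', h0, h1, h2, h3]; ring
  omega

lemma norm_new {α : ℍ[ℤ]} (h : 2 ∣ α.re ∧ α.imI % 2 = 1 ∧ α.imJ % 2 = 1 ∧ α.imK % 2 = 1 ∧
    (α.imI + α.imJ + α.imK) % 4 = 3) : Quaternion.normSq α % 4 = 3 := by
  obtain ⟨⟨a0, h0⟩, h1, h2, h3, -⟩ := h
  obtain ⟨a1, h1⟩ : ∃ y, α.imI = 2 * y + 1 := ⟨α.imI / 2, by omega⟩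
  obtain ⟨a2, h2⟩ : ∃ y, α.imJ = 2 * y + 1 := ⟨α.imJ / 2, by omega⟩
  obtain ⟨a3, h3⟩ : ∃ y, α.imK = 2 * y + 1 := ⟨α.imK / 2, by omega⟩
  have e : Quaternion.normSq α = 4 * (a0 * a0 + a1 * a1 + a1 + a2 * a2 + a2 + a3 * a3 + a3) + 3 := by
    rw [Quaternion.normSq_def', h0, h1, h2, h3]; ring
  omega

/-- an element of `OO` of norm `1 mod 4` is of the first kind -/
lemma old_of_norm {α : ℍ[ℤ]} (h : α ∈ OO) (hn : Quaternion.normSq α % 4 = 1) : α ∈ TauQ.OO := by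
  rcases h with h | h
  · exact h
  · have := norm_new h
    omega

/-- an element of `OO` of norm `3 mod 4` is of the second kind -/
lemma new_of_norm {α : ℍ[ℤ]} (h : α ∈ OO) (hn : Quaternion.normSq α % 4 = 3) :
    2 ∣ α.re ∧ α.imI % 2 = 1 ∧ α.imJ % 2 = 1 ∧ α.imK % 2 = 1 ∧
      (α.imI + α.imJ + α.imK) % 4 = 3 := by
  rcases h with h | h
  · have := norm_old h
    omega
  · exact h

lemma norm_odd {α : ℍ[ℤ]} (h : α ∈ OO) : Quaternion.normSq α % 4 = 1 ∨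
    Quaternion.normSq α % 4 = 3 := by
  rcases h with h | h
  · exact Or.inl (norm_old h)
  · exact Or.inr (norm_new h)

/-- the elements of `OO` of norm `r` -/
def SS (r : ℕ) : Type := {α : ℍ[ℤ] // α ∈ OO ∧ Quaternion.normSq α = (r : ℤ)}

/-- underlying quaternion -/
def SS.val {r : ℕ} (a : SS r) : ℍ[ℤ] := Subtype.val a

lemma SS.mem {r : ℕ} (a : SS r) : a.val ∈ OO := a.2.1
lemma SS.norm {r : ℕ} (a : SS r) : Quaternion.normSq a.val = (r : ℤ) := a.2.2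
lemma SS.ext {r : ℕ} {a b : SS r} (h : a.val = b.val) : a = b := Subtype.ext h

instance (r : ℕ) : Finite (SS r) := by
  have hb : ∀ (x : ℤ), x ^ 2 ≤ (r : ℤ) → x ∈ Set.Icc (-(r : ℤ)) r := by
    intro x hx
    constructor <;> nlinarith [sq_nonneg (x - 1), sq_nonneg (x + 1), sq_nonneg x]
  let f : SS r → (Set.Icc (-(r : ℤ)) r) × (Set.Icc (-(r : ℤ)) r) × (Set.Icc (-(r : ℤ)) r) ×
      (Set.Icc (-(r : ℤ)) r) := fun a =>
    have h := a.2.2
    have e := Quaternion.normSq_def' a.1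
    ⟨⟨a.1.re, hb _ (by rw [e] at h; nlinarith [sq_nonneg a.1.imI, sq_nonneg a.1.imJ, sq_nonneg a.1.imK])⟩,
     ⟨a.1.imI, hb _ (by rw [e] at h; nlinarith [sq_nonneg a.1.re, sq_nonneg a.1.imJ, sq_nonneg a.1.imK])⟩,
     ⟨a.1.imJ, hb _ (by rw [e] at h; nlinarith [sq_nonneg a.1.imI, sq_nonneg a.1.re, sq_nonneg a.1.imK])⟩,
     ⟨a.1.imK, hb _ (by rw [e] at h; nlinarith [sq_nonneg a.1.imI, sq_nonneg a.1.imJ, sq_nonneg a.1.re])⟩⟩
  refine Finite.of_injective f ?_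
  intro a b hab
  simp only [f, Prod.mk.injEq, Subtype.mk.injEq] at hab
  apply Subtype.ext
  exact Quaternion.ext _ _ hab.1 hab.2.1 hab.2.2.1 hab.2.2.2

noncomputable instance instFintypeSS (r : ℕ) : Fintype (SS r) := Fintype.ofFinite _

/-- a letter of `SS r` exists only for `r ≡ 1` or `3 (mod 4)` -/
lemma SS.mod {r : ℕ} (a : SS r) : r % 4 = 1 ∨ r % 4 = 3 := by
  have h := norm_odd a.mem
  rw [a.norm] at h
  omega

lemma inv_mem {r : ℕ} (a : SS r) : (eps r : ℍ[ℤ]) * star a.val ∈ OO := by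
  rcases a.mod with h | h
  · have h1 : a.val ∈ TauQ.OO := old_of_norm a.mem (by rw [a.norm]; omega)
    rw [eps_one h, Int.cast_one, one_mul]
    exact old_le (TauQ.OO_star h1)
  · obtain ⟨h0, h1, h2, h3, h4⟩ := new_of_norm a.mem (by rw [a.norm]; omega)
    rw [eps_three h]
    right
    simp only [Int.cast_neg, Int.cast_one, neg_mul, one_mul, Quaternion.re_neg,
      Quaternion.imI_neg, Quaternion.imJ_neg, Quaternion.imK_neg, Quaternion.re_star,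
      Quaternion.imI_star, Quaternion.imJ_star, Quaternion.imK_star, neg_neg]
    exact ⟨by omega, h1, h2, h3, h4⟩

lemma normSq_eps (r : ℕ) : Quaternion.normSq (eps r : ℍ[ℤ]) = 1 := by
  have : (eps r : ℍ[ℤ]) = ((eps r : ℤ) : ℍ[ℤ]) := rfl
  rw [Quaternion.normSq_intCast, pow_two]
  exact_mod_cast eps_sq r

/-- the inverse letter -/
def SS.inv {r : ℕ} (a : SS r) : SS r :=
  ⟨(eps r : ℍ[ℤ]) * star a.val, inv_mem a, by
    rw [map_mul, normSq_eps, one_mul, Quaternion.normSq_star, a.norm]⟩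

lemma SS.inv_val {r : ℕ} (a : SS r) : a.inv.val = (eps r : ℍ[ℤ]) * star a.val := rfl

lemma SS.mul_inv {r : ℕ} (a : SS r) : a.val * a.inv.val = ((pst r : ℤ) : ℍ[ℤ]) := by
  rw [SS.inv_val, ← mul_assoc, ← (Int.cast_commute (eps r) a.val).eq, mul_assoc,
    Quaternion.self_mul_star, a.norm, pst, Int.cast_mul]
  congr 1

lemma SS.inv_mul {r : ℕ} (a : SS r) : a.inv.val * a.val = ((pst r : ℤ) : ℍ[ℤ]) := by
  rw [SS.inv_val, mul_assoc, Quaternion.star_mul_self, a.norm, pst, Int.cast_mul]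
  congr 1

lemma SS.inv_inv {r : ℕ} (a : SS r) : a.inv.inv = a := by
  apply SS.ext
  rw [SS.inv_val, SS.inv_val, star_mul, star_star, star_intCast,
    (Int.cast_commute (eps r) a.val).eq.symm, ← mul_assoc, ← Int.cast_mul, eps_sq, Int.cast_one,
    one_mul]

/-- a product of two letters of the same norm is of the first kind -/
lemma SS.mul_old {r : ℕ} (a b : SS r) : a.val * b.val ∈ TauQ.OO := by
  refine old_of_norm (OO.mul_mem a.mem b.mem) ?_
  rw [map_mul, a.norm, b.norm]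
  rcases a.mod with h | h
  · have : (r : ℤ) % 4 = 1 := by omega
    rw [Int.mul_emod, this]; norm_num
  · have : (r : ℤ) % 4 = 3 := by omega
    rw [Int.mul_emod, this]; norm_num

/-- `h` is the VH datum given by multiplication of quaternions of norms `p` and `q` -/
def IsQVH {p q : ℕ} (h : VH (SS p) (SS q)) : Prop :=
  (∀ a, h.invA a = a.inv) ∧ (∀ b, h.invB b = b.inv) ∧
    ∀ a b, a.val * b.val = (h.vh (a, b)).1.val * (h.vh (a, b)).2.val

lemma pst_unit {q M : ℕ} (hM : Nat.Coprime q M) :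
    (((pst q : ℤ) : ZMod M)) * (((pst q : ℤ) : ZMod M))⁻¹ = 1 := by
  have h1 := ZMod.coe_mul_inv_eq_one q hM
  have h2 : IsUnit (((pst q : ℤ) : ZMod M)) := by
    have h3 : (((pst q : ℤ) : ZMod M)) * ((eps q : ZMod M) * (q : ZMod M)⁻¹) = 1 := by
      have h4 : ((eps q : ℤ) : ZMod M) * ((eps q : ℤ) : ZMod M) = 1 := by
        rw [← Int.cast_mul, eps_sq, Int.cast_one]
      rw [pst, Int.cast_mul, Int.cast_natCast]
      calc (eps q : ZMod M) * (q : ZMod M) * ((eps q : ZMod M) * (q : ZMod M)⁻¹)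
          = ((eps q : ZMod M) * (eps q : ZMod M)) * ((q : ZMod M) * (q : ZMod M)⁻¹) := by ring
        _ = 1 := by rw [h4, h1, one_mul]
    exact IsUnit.of_mul_eq_one _ h3
  exact ZMod.mul_inv_of_unit _ h2

/-- the norm one element `b' b / pst q` of `H(Z/M)` -/
def uM {q : ℕ} (M : ℕ) (hM : Nat.Coprime q M) (b' b : SS q) : unitary ℍ[ZMod M] :=
  ⟨((((pst q : ℤ) : ZMod M))⁻¹) • redM M (b'.val * b.val), by
    rw [mem_unitary_iff, Quaternion.normSq_smul, redM, normSq_qmap, map_mul, b'.norm, b.norm]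
    have h1 := pst_unit hM
    have h2 : ((pst q : ℤ) : ZMod M) * ((pst q : ℤ) : ZMod M) = (q : ZMod M) * q := by
      rw [← Int.cast_mul, pst_sq]
      push_cast
      ring
    simp only [map_mul, map_natCast]
    calc ((((pst q : ℤ) : ZMod M))⁻¹) ^ 2 * ((q : ZMod M) * q)
        = (((pst q : ℤ) : ZMod M) * (((pst q : ℤ) : ZMod M))⁻¹) ^ 2 := by rw [← h2]; ring
      _ = 1 := by rw [h1, one_pow]⟩

/-- the number of words of length `L` in `SS q` whose product is a scalar modulo `M` -/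
noncomputable def WW (q M L : ℕ) : ℕ :=
  Nat.card {w : Fin L → SS q //
    (M : ℤ) ∣ ((List.ofFn fun i => (w i).val).prod).imI ∧
    (M : ℤ) ∣ ((List.ofFn fun i => (w i).val).prod).imJ ∧
    (M : ℤ) ∣ ((List.ofFn fun i => (w i).val).prod).imK}

/-- the denominator `(pst p)^i (pst q)^j` -/
def den (p q i j : ℕ) : ℤ := pst p ^ i * pst q ^ j

lemma den_mul (p q i j i' j' : ℕ) : den p q (i + i') (j + j') = den p q i j * den p q i' j' := by
  unfold den; ring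

/-- the subgroup of the elements `alpha / ((pst p)^i (pst q)^j)`, `alpha` in `TauQ.OO` -/
def G1 (p q : ℕ) : Subgroup (GG p q) where
  carrier := {x | ∃ (i j : ℕ) (α : ℍ[ℤ]), α ∈ TauQ.OO ∧
    ((den p q i j : ℤ) : ℍ[RR p q]) * (x : ℍ[RR p q]) = castR p q α}
  one_mem' := ⟨0, 0, 1, TauQ.OO.one_mem, by simp [den]⟩
  mul_mem' := by
    rintro x x' ⟨i, j, α, hα, e⟩ ⟨i', j', α', hα', e'⟩
    refine ⟨i + i', j + j', α * α', TauQ.OO.mul_mem hα hα', ?_⟩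
    have hc : ∀ z : ℍ[RR p q], z * ((den p q i' j' : ℤ) : ℍ[RR p q]) =
        ((den p q i' j' : ℤ) : ℍ[RR p q]) * z := fun z => (Int.cast_commute _ z).eq.symm
    rw [map_mul, ← e, ← e', Submonoid.coe_mul, den_mul, Int.cast_mul, mul_assoc, mul_assoc,
      ← mul_assoc (x : ℍ[RR p q]), hc, mul_assoc]
  inv_mem' := by
    rintro x ⟨i, j, α, hα, e⟩
    refine ⟨i, j, star α, TauQ.OO_star hα, ?_⟩
    have hx : ((x⁻¹ : GG p q) : ℍ[RR p q]) = star (x : ℍ[RR p q]) := rfl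
    rw [hx, castR, qmap_star, ← castR, ← e, star_mul, star_intCast]
    exact (Int.cast_commute _ _).eq

end TauO
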