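import Mathlib
import Pool.Agent.Work.MP_972ac7_od.Defs

/-!
# Block statements: property tau for the norm one quaternions over `Z[1/n]`, all odd primes

Block X is `X.lean` (imports Mathlib, this file and, if wanted, old files of `MP_972ac7_al_tau` and
`MP_972ac7_tq`), `namespace TauO`, `open TauQ`, theorem `X_thm` with the hypotheses
`(h : Stmt_Y)` or `(h : SQ_Y)` of the blocks it uses. See BLUEPRINT.md.
-/

open scoped Quaternion BigOperators Matrix ComplexOrder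

namespace TauO

open TauQ

/-! ## Part 1: letters -/

/-- EX -/
def Stmt_exists : Prop :=
  ∀ r : ℕ, r.Prime → r ≠ 2 → ∀ α : ℍ[ℤ], (∀ γ : ℍ[ℤ], α ≠ (r : ℍ[ℤ]) * γ) →
    (r : ℤ) ∣ Quaternion.normSq α → ∃ (β : SS r) (γ : ℍ[ℤ]), α = β.val * γ

/-- UN -/
def Stmt_unique : Prop :=
  ∀ r : ℕ, r.Prime → r ≠ 2 →
    (∀ (β β' : SS r), (∃ δ : ℍ[ℤ], star β'.val * β.val = (r : ℍ[ℤ]) * δ) → β = β') ∧
    (∀ (β β' : SS r) (γ γ' : ℍ[ℤ]), (∀ δ : ℍ[ℤ], β.val * γ ≠ (r : ℍ[ℤ]) * δ) →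
      β.val * γ = β'.val * γ' → β = β')

/-- CD -/
def Stmt_card : Prop := ∀ r : ℕ, r.Prime → r ≠ 2 → Fintype.card (SS r) = r + 1

/-- VV -/
def Stmt_vh : Prop :=
  ∀ p q : ℕ, p.Prime → q.Prime → p ≠ 2 → q ≠ 2 → p ≠ q →
    ∃ h : VH (SS p) (SS q), IsQVH h

/-- HT: the group `Γ` generated by `A` and `B` -/
def Stmt_hat : Prop :=
  ∀ p q : ℕ, p.Prime → q.Prime → p ≠ 2 → q ≠ 2 → p ≠ q →
    ∀ h : VH (SS p) (SS q), IsQVH h →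
    ∃ (Γ : Type) (_ : Group Γ) (r : Rep h Γ) (ι : G1 p q →* Γ), Function.Injective ι ∧
      ι.range = r.chiA.ker ⊓ r.chiB.ker ∧
      (∀ a' a : SS p, ∃ γ : G1 p q,
        ((pst p : ℤ) : ℍ[RR p q]) * ((γ : GG p q) : ℍ[RR p q]) = castR p q (a'.val * a.val) ∧
        ι γ = r.al a' * r.al a)

/-! ## Part 2: words -/

/-- AC: the reduced words of length `R` in `SS p` are a homogeneous space of the norm one group
modulo `p^R`, and the even words in `SS q` act through it. -/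
def SQ_AC : Prop :=
  ∀ p q : ℕ, p.Prime → q.Prime → p ≠ 2 → q ≠ 2 → p ≠ q →
    ∀ h : VH (SS p) (SS q), IsQVH h → ∀ (R : ℕ) [NeZero (p ^ R)] (hM : Nat.Coprime q (p ^ R)),
    0 < R → ∃ (θ : unitary ℍ[ZMod (p ^ R)] → h.Word R) (c : ℕ), 0 < c ∧
      (∀ (b' b : SS q) (x : unitary ℍ[ZMod (p ^ R)]),
        θ (uM (p ^ R) hM b' b * x) = h.act R b' (h.act R b (θ x))) ∧
      (∀ w, Nat.card {x // θ x = w} = c)

/-! ## Part 3: the gap at all levels `p^R` -/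

/-- WK: sharp walk count -/
def SQ_WK : Prop :=
  ∀ q : ℕ, q.Prime → q ≠ 2 → ∀ (L s : ℕ) (γ : ℍ[ℤ]), (∀ δ : ℍ[ℤ], γ ≠ (q : ℍ[ℤ]) * δ) →
    Nat.card {w : Fin L → SS q //
      (List.ofFn fun i => (w i).val).prod = ((q ^ s : ℕ) : ℍ[ℤ]) * γ} ≤ L.choose s * q ^ s

/-- WC: words of length `2k` with product a scalar modulo `M` -/
def SQ_WC : Prop :=
  ∀ η : ℝ, 0 < η → ∃ C : ℝ, 0 < C ∧ ∀ (q M k : ℕ), q.Prime → q ≠ 2 → 0 < M →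
    Nat.Coprime M (2 * q) →
    (WW q M (2 * k) : ℝ) ≤ (4 * q) ^ k * (2 + C * ((q : ℝ) ^ k) ^ η / M) +
      C * ((q : ℝ) ^ k) ^ η / (M : ℝ) ^ 3 * ((q : ℝ) + 1) ^ (2 * k)

/-- NU: no eigenvalue near the top can satisfy the trace bound at a large level -/
def SQ_NU : Prop :=
  ∀ q : ℕ, q.Prime → q ≠ 2 → ∃ (g : ℝ) (L₀ : ℕ), 0 < g ∧
    ∀ (p i : ℕ), p.Prime → p ≠ 2 → p ≠ q → L₀ ≤ p ^ i → ∀ μ : ℝ, ((q : ℝ) + 1) ^ 2 - g ≤ μ →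
    ¬ ∀ j : ℕ, ((p ^ i).totient : ℝ) * μ ^ (2 * j) ≤
      2 * (((p ^ i : ℕ) : ℝ) ^ 3 * (WW q (p ^ i) (4 * j) : ℝ))

/-- SP: an eigenfunction that is not invariant under the congruence subgroup of level `p^r`
satisfies the trace bound at some level `p^i`, `i > r`. -/
def SQ_SP : Prop :=
  ∀ (q : ℕ), q.Prime → q ≠ 2 → ∀ (p R r : ℕ), p.Prime → p ≠ 2 → r ≤ R →
    ∀ [NeZero (p ^ R)] (hM : Nat.Coprime q (p ^ R)) (μ : ℝ)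
    (f : unitary ℍ[ZMod (p ^ R)] → ℂ),
    (∀ x, ∑ b' : SS q, ∑ b : SS q, f (uM (p ^ R) hM b' b * x) = (μ : ℂ) * f x) →
    (∃ x g : unitary ℍ[ZMod (p ^ R)], g ∈ congH (p ^ r) ∧ f (x * g) ≠ f x) →
    ∃ i : ℕ, r < i ∧ i ≤ R ∧ ∀ j : ℕ, ((p ^ i).totient : ℝ) * μ ^ (2 * j) ≤
      2 * (((p ^ i : ℕ) : ℝ) ^ 3 * (WW q (p ^ i) (4 * j) : ℝ))

/-- TG: uniform gap of the `q`-walk at all levels `p^R`, with boundedly many orbits. -/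
def SQ_TG : Prop :=
  ∀ p q : ℕ, p.Prime → q.Prime → p ≠ 2 → q ≠ 2 → p ≠ q →
    ∃ (g : ℝ) (O : ℕ), 0 < g ∧ ∀ (R : ℕ) [NeZero (p ^ R)] (hM : Nat.Coprime q (p ^ R)),
    ∃ o : unitary ℍ[ZMod (p ^ R)] → Fin O,
      (∀ (b' b : SS q) (x : unitary ℍ[ZMod (p ^ R)]), o (uM (p ^ R) hM b' b * x) = o x) ∧
      ∀ φ : unitary ℍ[ZMod (p ^ R)] → ℂ, (∀ j, ∑ x, (if o x = j then φ x else 0) = 0) →
        2 * g * ∑ x, ‖φ x‖ ^ 2 ≤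
          ∑ b' : SS q, ∑ b : SS q, ∑ x, ‖φ (uM (p ^ R) hM b' b * x) - φ x‖ ^ 2

/-! ## Part 4: finite quotients -/

/-- SI: a `B`-eigenfunction with eigenvalue near the top takes the same values on all
`A`-neighbours. -/
def SQ_SI : Prop :=
  ∀ p q : ℕ, p.Prime → q.Prime → p ≠ 2 → q ≠ 2 → p ≠ q → ∃ δ : ℝ, 0 < δ ∧
    ∀ h : VH (SS p) (SS q), IsQVH h → ∀ (Q : Type) [Group Q] [Fintype Q] (r : Rep h Q)
      (v : Q → ℂ) (lam : ℝ), (Fintype.card (SS q) : ℝ) - δ ≤ lam →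
      (∀ x, ∑ b, v (r.be b * x) = (lam : ℂ) * v x) →
      ∀ a a' z, v (r.al a * z) = v (r.al a' * z)

/-- QG: the gap of the `B`-walk on all finite quotients. -/
def SQ_QG : Prop :=
  ∀ p q : ℕ, p.Prime → q.Prime → p ≠ 2 → q ≠ 2 → p ≠ q → ∃ δ : ℝ, 0 < δ ∧
    ∀ h : VH (SS p) (SS q), IsQVH h → ∀ (Q : Type) [Group Q] [Fintype Q] (r : Rep h Q)
      (f : Q → ℂ), (∀ κ : ℤˣ, ∑ x, (if r.chiA x = κ then f x else 0) = 0) →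
      2 * δ * ∑ x, ‖f x‖ ^ 2 ≤ ∑ b, ∑ x, ‖f (r.be b * x) - f x‖ ^ 2

/-- LK: the finite group attached to a normal subgroup of finite index of `GG p q` -/
def SQ_LK : Prop :=
  ∀ p q : ℕ, p.Prime → q.Prime → p ≠ 2 → q ≠ 2 → p ≠ q →
    ∀ h : VH (SS p) (SS q), IsQVH h → ∀ (N : Subgroup (GG p q)), N.Normal → N.FiniteIndex →
    ∃ (Q : Type) (_ : Group Q) (_ : Fintype Q) (r : Rep h Q) (rQ : G1 p q →* Q),
      rQ.range = r.chiA.ker ⊓ r.chiB.ker ∧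
      (∀ a' a : SS p, ∃ γ : G1 p q,
        ((pst p : ℤ) : ℍ[RR p q]) * ((γ : GG p q) : ℍ[RR p q]) = castR p q (a'.val * a.val) ∧
        rQ γ = r.al a' * r.al a) ∧
      (∀ γ : G1 p q, rQ γ = 1 → (γ : GG p q) ∈ N)

/-- FP: from the finite groups back to `GG p q`; the elements of `QQ` have denominators powers
of `p` -/
def SQ_FP : Prop :=
  ∀ p q : ℕ, p.Prime → q.Prime → p ≠ 2 → q ≠ 2 → p ≠ q →
    ∃ QQ : Finset (GG p q), (∀ s ∈ QQ, ∃ (i : ℕ) (α : ℍ[ℤ]),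
      ((p ^ i : ℕ) : ℍ[RR p q]) * (s : ℍ[RR p q]) = castR p q α) ∧
    ∀ g : ℝ, 0 < g → ∃ c : ℝ, 0 < c ∧
    ∀ h : VH (SS p) (SS q), IsQVH h → ∀ (N : Subgroup (GG p q)) [N.Normal],
    ∀ (Q : Type) [Group Q] [Fintype Q] (r : Rep h Q) (rQ : G1 p q →* Q),
      rQ.range = r.chiA.ker ⊓ r.chiB.ker →
      (∀ a' a : SS p, ∃ γ : G1 p q,
        ((pst p : ℤ) : ℍ[RR p q]) * ((γ : GG p q) : ℍ[RR p q]) = castR p q (a'.val * a.val) ∧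
        rQ γ = r.al a' * r.al a) →
      (∀ γ : G1 p q, rQ γ = 1 → (γ : GG p q) ∈ N) →
      (∀ f : Q → ℂ, (∀ κ : ℤˣ, ∑ x, (if r.chiB x = κ then f x else 0) = 0) →
        2 * g * ∑ x, ‖f x‖ ^ 2 ≤ ∑ a, ∑ x, ‖f (r.al a * x) - f x‖ ^ 2) →
      ∀ [Fintype (GG p q ⧸ N)] (v : GG p q ⧸ N → ℂ), ∑ x, v x = 0 →
      c * ∑ x, ‖v x‖ ^ 2 ≤ ∑ s ∈ QQ, ∑ x, ‖v ((s : GG p q ⧸ N) * x) - v x‖ ^ 2

/-- TP: gap of a finite set of elements with denominators powers of `p` on all finite quotients -/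
def SQ_TP : Prop :=
  ∀ p q : ℕ, p.Prime → q.Prime → p ≠ 2 → q ≠ 2 → p ≠ q →
    ∃ (QQ : Finset (GG p q)) (c : ℝ), 0 < c ∧ (∀ s ∈ QQ, ∃ (i : ℕ) (α : ℍ[ℤ]),
      ((p ^ i : ℕ) : ℍ[RR p q]) * (s : ℍ[RR p q]) = castR p q α) ∧
    ∀ (N : Subgroup (GG p q)) [N.Normal] [N.FiniteIndex] [Fintype (GG p q ⧸ N)]
      (v : GG p q ⧸ N → ℂ), ∑ x, v x = 0 →
      c * ∑ x, ‖v x‖ ^ 2 ≤ ∑ s ∈ QQ, ∑ x, ‖v ((s : GG p q ⧸ N) * x) - v x‖ ^ 2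

/-- GN: the gap for the norm one quaternions over `R`, a localization of the integers at an odd `n`
with at least two prime factors. -/
def SQ_GN : Prop :=
  ∀ n : ℕ, (∀ l : ℕ, l.Prime → l ∣ n → l ≠ 2) →
    (∃ p q : ℕ, p.Prime ∧ q.Prime ∧ p ≠ q ∧ p ∣ n ∧ q ∣ n) →
    ∀ (R : Type) [CommRing R] [IsLocalization.Away (n : ℤ) R],
    ∃ (K : Finset (unitary ℍ[R])) (c : ℝ), 0 < c ∧ ∀ (N : Subgroup (unitary ℍ[R])) [N.Normal]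
      [N.FiniteIndex] [Fintype (unitary ℍ[R] ⧸ N)] (v : unitary ℍ[R] ⧸ N → ℂ), ∑ x, v x = 0 →
      c * ∑ x, ‖v x‖ ^ 2 ≤ ∑ s ∈ K, ∑ x, ‖v ((s : unitary ℍ[R] ⧸ N) * x) - v x‖ ^ 2

/-- EV: for `n = 2 ^ k * m`, `m` odd, the norm one quaternions over `Z[1/m]` have finite index in
those over `Z[1/n]`. -/
def SQ_EV : Prop :=
  ∀ (m k : ℕ), Odd m → ∀ (R S : Type) [CommRing R] [CommRing S]
    [IsLocalization.Away (m : ℤ) R] [IsLocalization.Away ((2 ^ k * m : ℕ) : ℤ) S],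
    ∃ f : unitary ℍ[R] →* unitary ℍ[S], f.range.FiniteIndex

end TauO
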