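import Mathlib
import Pool.Agent.Work.MP_972ac7_od.Interface
import Pool.Agent.Work.MP_972ac7_tq.AC

/-! # Block AC (all odd primes): the reduced words as a homogeneous space -/

open scoped Quaternion BigOperators Matrix ComplexOrder

namespace TauO

open TauQ

section ACs

lemma ACo_star_mul {q : ℕ} (b : SS q) : star b.val * b.val = (q : ℍ[ℤ]) := by
  rw [Quaternion.star_mul_self, b.norm]
  rfl

lemma ACo_mul_star {q : ℕ} (b : SS q) : b.val * star b.val = (q : ℍ[ℤ]) := by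
  rw [Quaternion.self_mul_star, b.norm]
  rfl

/-- the product of a word -/
noncomputable def ACo_val {p : ℕ} (l : List (SS p)) : ℍ[ℤ] := (l.map SS.val).prod

lemma ACo_val_nil {p : ℕ} : ACo_val ([] : List (SS p)) = 1 := rfl

lemma ACo_val_cons {p : ℕ} (a : SS p) (l : List (SS p)) :
    ACo_val (a :: l) = a.val * ACo_val l := by
  unfold ACo_val
  rw [List.map_cons, List.prod_cons]

lemma ACo_val_norm {p : ℕ} (l : List (SS p)) :
    Quaternion.normSq (ACo_val l) = (p : ℤ) ^ l.length := by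
  induction l with
  | nil => rw [ACo_val_nil, map_one]; simp
  | cons a l ih => rw [ACo_val_cons, map_mul, a.norm, ih, List.length_cons, pow_succ']

lemma ACo_ne_zero {p : ℕ} (hp : p.Prime) (a : SS p) : a.val ≠ 0 := by
  intro h0
  have := a.norm
  rw [h0, map_zero] at this
  have hp0 : (p : ℤ) ≠ 0 := by exact_mod_cast hp.ne_zero
  exact hp0 this.symm

lemma ACo_inv_mul {p : ℕ} (a : SS p) (δ : ℍ[ℤ]) :
    a.inv.val * ((eps p : ℍ[ℤ]) * δ) = star a.val * δ := by
  have h1 : (eps p : ℍ[ℤ]) * (eps p : ℍ[ℤ]) = 1 := by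
    have h2 := congrArg (Int.cast : ℤ → ℍ[ℤ]) (eps_sq p)
    rw [Int.cast_mul, Int.cast_one] at h2
    exact h2
  rw [SS.inv_val, (Int.cast_commute (eps p) (star a.val)).eq, mul_assoc, ← mul_assoc (eps p : ℍ[ℤ]),
    h1, one_mul]

/-- reduced words of every length exist -/
lemma ACo_word {p q : ℕ} (hp : p.Prime) (hp4 : p ≠ 2) (hC : Stmt_card)
    (h : VH (SS p) (SS q)) (R : ℕ) : ∃ l : List (SS p), l.length = R ∧ h.Red l := by
  have hcard : 1 < Fintype.card (SS p) := by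
    rw [hC p hp hp4]
    have := hp.two_le
    omega
  induction R with
  | zero => exact ⟨[], rfl, List.IsChain.nil⟩
  | succ R ih =>
    obtain ⟨l, h1, h2⟩ := ih
    cases l with
    | nil =>
      have hne : Nonempty (SS p) := Fintype.card_pos_iff.1 (by omega)
      obtain ⟨a⟩ := hne
      refine ⟨[a], by rw [← h1]; rfl, ?_⟩
      simp [VH.Red]
    | cons a l =>
      obtain ⟨a', ha'⟩ := Fintype.exists_ne_of_one_lt_card hcard (h.invA a)
      refine ⟨a' :: a :: l, by rw [List.length_cons, h1], ?_⟩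
      unfold VH.Red at h2 ⊢
      rw [List.isChain_cons_cons]
      refine ⟨?_, h2⟩
      intro h3
      apply ha'
      rw [h3, h.invA_invA]

lemma ACo_red_prim {p q : ℕ} (hp : p.Prime) (hp4 : p ≠ 2) (hU : Stmt_unique)
    (h : VH (SS p) (SS q)) (hh : IsQVH h) (l : List (SS p)) (hl : h.Red l) :
    AC_Prim p (ACo_val l) := by
  have hpz : (p : ℤ) ≠ 0 := by exact_mod_cast hp.ne_zero
  induction l with
  | nil =>
    intro δ hδ
    have h1 := congrArg Quaternion.normSq hδ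
    rw [ACo_val_nil, map_one, map_mul, Quaternion.normSq_natCast] at h1
    have h2 : (p : ℤ) ∣ 1 := ⟨(p : ℤ) * Quaternion.normSq δ, by rw [h1]; ring⟩
    have h3 : p ∣ 1 := by exact_mod_cast h2
    exact hp.one_lt.ne' (Nat.dvd_one.1 h3)
  | cons a l ih =>
    intro δ hδ
    cases l with
    | nil =>
      rw [ACo_val_cons, ACo_val_nil, mul_one] at hδ
      have h1 := a.norm
      rw [hδ, map_mul, Quaternion.normSq_natCast] at h1
      have h2 : (p : ℤ) * Quaternion.normSq δ = 1 := by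
        have h3 : (p : ℤ) * ((p : ℤ) * Quaternion.normSq δ) = p * 1 := by
          rw [mul_one]
          linarith
        exact mul_left_cancel₀ hpz h3
      have h4 : (p : ℤ) ∣ 1 := ⟨_, h2.symm⟩
      have h5 : p ∣ 1 := by exact_mod_cast h4
      exact hp.one_lt.ne' (Nat.dvd_one.1 h5)
    | cons a' l =>
      have hl' : a' ≠ h.invA a ∧ h.Red (a' :: l) := by
        simpa [VH.Red, List.isChain_cons_cons] using hl
      have hprim := ih hl'.2
      have e1 : a'.val * ACo_val l = star a.val * δ := by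
        rw [← ACo_val_cons]
        apply AC_cancel hp.ne_zero
        calc (p : ℍ[ℤ]) * ACo_val (a' :: l) = star a.val * a.val * ACo_val (a' :: l) := by
              rw [ACo_star_mul]
          _ = star a.val * ((p : ℍ[ℤ]) * δ) := by rw [mul_assoc, ← ACo_val_cons, hδ]
          _ = (p : ℍ[ℤ]) * (star a.val * δ) := by
              rw [← mul_assoc, ← mul_assoc, (Nat.cast_commute p (star a.val)).eq]
      have e2 : a'.val * ACo_val l = (h.invA a).val * ((eps p : ℍ[ℤ]) * δ) := by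
        rw [hh.1 a, ACo_inv_mul]
        exact e1
      have hprim' : ∀ δ' : ℍ[ℤ], a'.val * ACo_val l ≠ (p : ℍ[ℤ]) * δ' := by
        rw [← ACo_val_cons]
        exact hprim
      exact hl'.1 ((hU p hp hp4).2 a' (h.invA a) (ACo_val l) _ hprim' e2)

/-- peeling -/
lemma ACo_peel {p q : ℕ} (hp : p.Prime) (hp4 : p ≠ 2) (hE : Stmt_exists)
    (h : VH (SS p) (SS q)) (hh : IsQVH h) (R : ℕ) : ∀ α : ℍ[ℤ], AC_Prim p α →
    (p : ℤ) ^ R ∣ Quaternion.normSq α →
    ∃ (l : List (SS p)) (γ : ℍ[ℤ]), l.length = R ∧ h.Red l ∧ α = ACo_val l * γ := by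
  have hpz : (p : ℤ) ≠ 0 := by exact_mod_cast hp.ne_zero
  induction R with
  | zero =>
    intro α _ _
    exact ⟨[], α, rfl, List.IsChain.nil, by rw [ACo_val_nil, one_mul]⟩
  | succ R ih =>
    intro α hα hN
    have hN1 : (p : ℤ) ∣ Quaternion.normSq α := dvd_trans (dvd_pow_self _ (by omega)) hN
    obtain ⟨a, γ, hγ⟩ := hE p hp hp4 α hα hN1
    have hγp : AC_Prim p γ := by
      apply AC_prim_right (α := a.val)
      rw [← hγ]
      exact hα
    have hγN : (p : ℤ) ^ R ∣ Quaternion.normSq γ := by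
      rw [hγ, map_mul, a.norm, pow_succ'] at hN
      exact (mul_dvd_mul_iff_left hpz).mp hN
    obtain ⟨l, δ, h1, h2, h3⟩ := ih γ hγp hγN
    refine ⟨a :: l, δ, by rw [List.length_cons, h1], ?_, ?_⟩
    · cases l with
      | nil => simp [VH.Red]
      | cons a' l =>
        unfold VH.Red at h2 ⊢
        rw [List.isChain_cons_cons]
        refine ⟨?_, h2⟩
        intro h4
        apply hα ((eps p : ℍ[ℤ]) * (ACo_val l * δ))
        rw [hγ, h3, ACo_val_cons, h4, hh.1 a, mul_assoc, ← mul_assoc a.val, a.mul_inv, pst,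
          Int.cast_mul, Int.cast_natCast, (Nat.cast_commute p ((eps p : ℤ) : ℍ[ℤ])).eq.symm,
          mul_assoc]
    · rw [ACo_val_cons, mul_assoc, ← h3, hγ]

/-- uniqueness -/
lemma ACo_uni {p : ℕ} (hp : p.Prime) (hp4 : p ≠ 2) (hU : Stmt_unique) (l : List (SS p)) :
    ∀ (l' : List (SS p)) (G G' : ℍ[ℤ]), l.length = l'.length → AC_Prim p (ACo_val l * G) →
    ACo_val l * G = ACo_val l' * G' → l = l' := by
  induction l with
  | nil =>
    intro l' G G' hlen _ _
    exact (List.length_eq_zero_iff.mp hlen.symm).symm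
  | cons a l ih =>
    intro l' G G' hlen hprim heq
    cases l' with
    | nil => simp at hlen
    | cons a' l' =>
      rw [ACo_val_cons, mul_assoc] at hprim
      rw [ACo_val_cons, ACo_val_cons, mul_assoc, mul_assoc] at heq
      have e1 : a = a' := (hU p hp hp4).2 a a' _ _ hprim heq
      subst e1
      have e2 : ACo_val l * G = ACo_val l' * G' := mul_left_cancel₀ (ACo_ne_zero hp a) heq
      have e3 := ih l' G G' (by simpa using hlen) (AC_prim_right hprim) e2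
      rw [e3]

lemma ACo_val_star {p : ℕ} (l : List (SS p)) :
    ACo_val l * star (ACo_val l) = ((p ^ l.length : ℕ) : ℍ[ℤ]) := by
  rw [Quaternion.self_mul_star, ACo_val_norm]
  rw [← Nat.cast_pow]
  rfl

/-- the relation -/
def ACo_rel {p : ℕ} (R : ℕ) (l₀ : List (SS p)) (x : unitary ℍ[ZMod (p ^ R)])
    (l : List (SS p)) : Prop :=
  ∃ γ : ℍ[ZMod (p ^ R)], (x : ℍ[ZMod (p ^ R)]) * redM (p ^ R) (ACo_val l₀) =
    redM (p ^ R) (ACo_val l) * γ

lemma ACo_rel_ex {p q R : ℕ} [NeZero (p ^ R)] (hR : 0 < R) (hp : p.Prime) (hp4 : p ≠ 2)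
    (hE : Stmt_exists) (hU : Stmt_unique) (h : VH (SS p) (SS q)) (hh : IsQVH h)
    (w₀ : h.Word R) (x : unitary ℍ[ZMod (p ^ R)]) :
    ∃ w : h.Word R, ACo_rel R w₀.1 x w.1 := by
  obtain ⟨α, hα⟩ := AC_surj (p ^ R) ((x : ℍ[ZMod (p ^ R)]) * redM (p ^ R) (ACo_val w₀.1))
  have h0 : AC_Prim p (ACo_val w₀.1) := ACo_red_prim hp hp4 hU h hh _ w₀.2.2
  have h1 : AC_Prim p α := by
    rw [AC_prim_iff hR, hα]
    exact AC_prim_x x _ ((AC_prim_iff hR _).mp h0)
  have h2 : (p : ℤ) ^ R ∣ Quaternion.normSq α := by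
    have h3 := congrArg Quaternion.normSq hα
    rw [AC_norm, map_mul, AC_norm, ACo_val_norm, w₀.2.1] at h3
    have h4 : (((p : ℤ) ^ R : ℤ) : ZMod (p ^ R)) = 0 := by
      have := ZMod.natCast_self (p ^ R)
      push_cast
      push_cast at this
      exact this
    rw [h4, mul_zero, ZMod.intCast_zmod_eq_zero_iff_dvd] at h3
    exact_mod_cast h3
  obtain ⟨l, γ, e1, e2, e3⟩ := ACo_peel hp hp4 hE h hh R α h1 h2
  refine ⟨⟨l, e1, e2⟩, redM (p ^ R) γ, ?_⟩
  rw [← hα, e3, map_mul]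

lemma ACo_rel_uni {p q R : ℕ} [NeZero (p ^ R)] (hR : 0 < R) (hp : p.Prime) (hp4 : p ≠ 2)
    (hU : Stmt_unique) (h : VH (SS p) (SS q)) (hh : IsQVH h)
    (w₀ w w' : h.Word R) (x : unitary ℍ[ZMod (p ^ R)])
    (h1 : ACo_rel R w₀.1 x w.1) (h2 : ACo_rel R w₀.1 x w'.1) : w = w' := by
  obtain ⟨γ, hγ⟩ := h1
  obtain ⟨γ', hγ'⟩ := h2
  obtain ⟨g, rfl⟩ := AC_surj (p ^ R) γ
  obtain ⟨g', rfl⟩ := AC_surj (p ^ R) γ'
  have h0 : AC_Prim p (ACo_val w₀.1) := ACo_red_prim hp hp4 hU h hh _ w₀.2.2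
  have hprim : AC_Prim p (ACo_val w.1 * g) := by
    rw [AC_prim_iff hR, map_mul, ← hγ]
    exact AC_prim_x x _ ((AC_prim_iff hR _).mp h0)
  have h3 : redM (p ^ R) (ACo_val w.1 * g - ACo_val w'.1 * g') = 0 := by
    rw [map_sub, map_mul, map_mul, ← hγ, ← hγ', sub_self]
  obtain ⟨δ, hδ⟩ := AC_red_zero _ _ h3
  have h4 : ACo_val w.1 * g = ACo_val w'.1 * (g' + star (ACo_val w'.1) * δ) := by
    have h5 := ACo_val_star w'.1
    rw [w'.2.1] at h5
    rw [mul_add, ← mul_assoc, h5, ← hδ]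
    abel
  apply Subtype.ext
  exact ACo_uni hp hp4 hU w.1 w'.1 _ _ (by rw [w.2.1, w'.2.1]) hprim h4

lemma ACo_push {p q : ℕ} (h : VH (SS p) (SS q)) (hh : IsQVH h) (l : List (SS p)) :
    ∀ b : SS q, b.val * ACo_val l = ACo_val (h.push b l).1 * (h.push b l).2.val := by
  induction l with
  | nil => intro b; rw [ACo_val_nil, mul_one, VH.push_nil, ACo_val_nil, one_mul]
  | cons a l ih =>
    intro b
    have h2 := hh.2.2 (h.vh.symm (b, a)).1 (h.vh.symm (b, a)).2
    rw [Prod.mk.eta, Equiv.apply_symm_apply] at h2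
    simp only at h2
    rw [VH.push_cons, ACo_val_cons, ACo_val_cons, ← mul_assoc, ← h2, mul_assoc, ih, mul_assoc]

lemma ACo_rel_act {p q R : ℕ} [NeZero (p ^ R)] (hM : Nat.Coprime q (p ^ R))
    (h : VH (SS p) (SS q)) (hh : IsQVH h) (w₀ w : h.Word R) (x : unitary ℍ[ZMod (p ^ R)])
    (h1 : ACo_rel R w₀.1 x w.1) (b' b : SS q) :
    ACo_rel R w₀.1 (uM (p ^ R) hM b' b * x) (h.act R b' (h.act R b w)).1 := by
  obtain ⟨γ, hγ⟩ := h1
  have e1 : b'.val * b.val * ACo_val w.1 = ACo_val (h.act R b' (h.act R b w)).1 *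
      ((h.push b' (h.push b w.1).1).2.val * (h.push b w.1).2.val) := by
    rw [mul_assoc, ACo_push h hh w.1 b, ← mul_assoc, ACo_push h hh _ b', mul_assoc]
    rfl
  refine ⟨((((pst q : ℤ) : ZMod (p ^ R)))⁻¹) • (redM (p ^ R)
    ((h.push b' (h.push b w.1).1).2.val * (h.push b w.1).2.val) * γ), ?_⟩
  show ((((pst q : ℤ) : ZMod (p ^ R)))⁻¹ • redM (p ^ R) (b'.val * b.val)) * (x : ℍ[ZMod (p ^ R)]) *
    redM (p ^ R) (ACo_val w₀.1) = _
  rw [mul_assoc, hγ, smul_mul_assoc, ← mul_assoc, ← map_mul, e1, map_mul, mul_smul_comm,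
    mul_assoc]

end ACs

theorem AC_thm (hE : Stmt_exists) (hU : Stmt_unique) (hC : Stmt_card) (hT : TauQ.SQ_TR) :
    SQ_AC := by
  intro p q hp hq hp4 hq4 hpq h hh R _ hM hR
  classical
  have hp2 : p ≠ 2 := hp4
  -- the base word
  obtain ⟨w₀⟩ : Nonempty (h.Word R) := by
    obtain ⟨l, h1, h2⟩ := ACo_word hp hp4 hC h R
    exact ⟨⟨l, h1, h2⟩⟩
  choose θ hθ using ACo_rel_ex hR hp hp4 hE hU h hh w₀
  have hθu : ∀ x w, ACo_rel R w₀.1 x w.1 → θ x = w := fun x w hx =>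
    ACo_rel_uni hR hp hp4 hU h hh w₀ _ _ x (hθ x) hx
  have hN : ∀ w : h.Word R, Quaternion.normSq (redM (p ^ R) (ACo_val w.1)) = 0 := by
    intro w
    rw [AC_norm, ACo_val_norm, w.2.1]
    have := ZMod.natCast_self (p ^ R)
    push_cast
    push_cast at this
    exact this
  have hP : ∀ (w : h.Word R) (δ : ℍ[ZMod (p ^ R)]),
      redM (p ^ R) (ACo_val w.1) ≠ (p : ℍ[ZMod (p ^ R)]) * δ := fun w =>
    (AC_prim_iff hR _).mp (ACo_red_prim hp hp4 hU h hh _ w.2.2)
  refine ⟨θ, Nat.card {x // θ x = w₀}, ?_, ?_, ?_⟩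
  · have h1 : θ 1 = w₀ := hθu 1 w₀ ⟨1, by simp⟩
    have : Nonempty {x // θ x = w₀} := ⟨⟨1, h1⟩⟩
    exact Nat.card_pos
  · intro b' b x
    exact hθu _ _ (ACo_rel_act hM h hh w₀ (θ x) x (hθ x) b' b)
  · intro w
    apply le_antisymm
    · obtain ⟨z, γ', hz⟩ := hT p R hp hp2 hR (redM (p ^ R) (ACo_val w.1))
        (redM (p ^ R) (ACo_val w₀.1)) (hN w) (hN w₀) (hP w) (hP w₀)
      refine Nat.card_le_card_of_injective
        (fun y : {x // θ x = w} => (⟨z * y.1, ?_⟩ : {x // θ x = w₀})) ?_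
      · obtain ⟨g, hg⟩ := hθ y.1
        rw [y.2] at hg
        apply hθu
        refine ⟨γ' * g, ?_⟩
        show ((z : ℍ[ZMod (p ^ R)]) * (y.1 : ℍ[ZMod (p ^ R)])) * _ = _
        rw [mul_assoc, hg, ← mul_assoc, hz, mul_assoc]
      · intro y y' hy
        apply Subtype.ext
        exact mul_left_cancel (congrArg Subtype.val hy)
    · obtain ⟨z, γ', hz⟩ := hT p R hp hp2 hR (redM (p ^ R) (ACo_val w₀.1))
        (redM (p ^ R) (ACo_val w.1)) (hN w₀) (hN w) (hP w₀) (hP w)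
      refine Nat.card_le_card_of_injective
        (fun y : {x // θ x = w₀} => (⟨z * y.1, ?_⟩ : {x // θ x = w})) ?_
      · obtain ⟨g, hg⟩ := hθ y.1
        rw [y.2] at hg
        apply hθu
        refine ⟨γ' * g, ?_⟩
        show ((z : ℍ[ZMod (p ^ R)]) * (y.1 : ℍ[ZMod (p ^ R)])) * _ = _
        rw [mul_assoc, hg, ← mul_assoc, hz, mul_assoc]
      · intro y y' hy
        apply Subtype.ext
        exact mul_left_cancel (congrArg Subtype.val hy)

end TauO
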