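import Mathlib
import Pool.Agent.Work.MP_972ac7_od.Interface

/-!
# Block CD: the number of the letters (edit of `MP_972ac7_al_tau/card.lean`)

The quaternions modulo an odd prime `r` are split by `a0, b0` with `a0² + b0² = -1`.
-/

set_option autoImplicit false

open scoped Quaternion BigOperators

namespace TauO

open TauQ

section cardSec

variable {r : ℕ} (a0 b0 : ZMod r)

def CD_A (x : ℍ[ℤ]) : ZMod r := x.re + a0 * x.imI + b0 * x.imK
def CD_B (x : ℍ[ℤ]) : ZMod r := b0 * x.imI - x.imJ - a0 * x.imK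
def CD_C (x : ℍ[ℤ]) : ZMod r := b0 * x.imI + x.imJ - a0 * x.imK
def CD_D (x : ℍ[ℤ]) : ZMod r := x.re - a0 * x.imI - b0 * x.imK

variable (hi : a0 * a0 + b0 * b0 = -1)
include hi

lemma CD_A_mul (x y : ℍ[ℤ]) : CD_A a0 b0 (x * y) =
    CD_A a0 b0 x * CD_A a0 b0 y + CD_B a0 b0 x * CD_C a0 b0 y := by
  simp only [CD_A, CD_B, CD_C, Quaternion.re_mul, Quaternion.imI_mul, Quaternion.imK_mul]
  push_cast
  linear_combination (-((x.imI : ZMod r) * y.imI + (x.imK : ZMod r) * y.imK)) * hi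

lemma CD_B_mul (x y : ℍ[ℤ]) : CD_B a0 b0 (x * y) =
    CD_A a0 b0 x * CD_B a0 b0 y + CD_B a0 b0 x * CD_D a0 b0 y := by
  simp only [CD_A, CD_B, CD_D, Quaternion.imI_mul, Quaternion.imJ_mul, Quaternion.imK_mul]
  push_cast
  linear_combination (((x.imI : ZMod r) * y.imK - (x.imK : ZMod r) * y.imI)) * hi

lemma CD_C_mul (x y : ℍ[ℤ]) : CD_C a0 b0 (x * y) =
    CD_C a0 b0 x * CD_A a0 b0 y + CD_D a0 b0 x * CD_C a0 b0 y := by
  simp only [CD_A, CD_C, CD_D, Quaternion.imI_mul, Quaternion.imJ_mul, Quaternion.imK_mul]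
  push_cast
  linear_combination (-((x.imI : ZMod r) * y.imK - (x.imK : ZMod r) * y.imI)) * hi

lemma CD_D_mul (x y : ℍ[ℤ]) : CD_D a0 b0 (x * y) =
    CD_C a0 b0 x * CD_B a0 b0 y + CD_D a0 b0 x * CD_D a0 b0 y := by
  simp only [CD_B, CD_C, CD_D, Quaternion.re_mul, Quaternion.imI_mul, Quaternion.imK_mul]
  push_cast
  linear_combination (-((x.imI : ZMod r) * y.imI + (x.imK : ZMod r) * y.imK)) * hi

lemma CD_norm (x : ℍ[ℤ]) : ((Quaternion.normSq x : ℤ) : ZMod r) =
    CD_A a0 b0 x * CD_D a0 b0 x - CD_B a0 b0 x * CD_C a0 b0 x := by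
  rw [Quaternion.normSq_def']
  simp only [CD_A, CD_B, CD_C, CD_D]
  push_cast
  linear_combination ((x.imI : ZMod r) ^ 2 + (x.imK : ZMod r) ^ 2) * hi

lemma CD_zero (hr : r.Prime) (hr4 : r ≠ 2) (x : ℍ[ℤ]) (h1 : CD_A a0 b0 x = 0)
    (h2 : CD_B a0 b0 x = 0) (h3 : CD_C a0 b0 x = 0) (h4 : CD_D a0 b0 x = 0) :
    ∃ δ : ℍ[ℤ], x = (r : ℍ[ℤ]) * δ := by
  have : Fact r.Prime := ⟨hr⟩
  simp only [CD_A, CD_B, CD_C, CD_D] at h1 h2 h3 h4
  have h2' : (2 : ZMod r) ≠ 0 := by
    intro h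
    have : ((2 : ℕ) : ZMod r) = 0 := by exact_mod_cast h
    rw [ZMod.natCast_eq_zero_iff] at this
    have := Nat.le_of_dvd two_pos this
    have := hr.two_le
    omega
  have e0 : (x.re : ZMod r) = 0 := by
    have : (2 : ZMod r) * x.re = 0 := by linear_combination h1 + h4
    exact (mul_eq_zero.1 this).resolve_left h2'
  have e1 : (x.imI : ZMod r) = 0 := by
    have : (2 : ZMod r) * x.imI = 0 := by
      linear_combination (-a0) * (h1 - h4) - b0 * (h2 + h3) + (2 * (x.imI : ZMod r)) * hi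
    exact (mul_eq_zero.1 this).resolve_left h2'
  have e2 : (x.imJ : ZMod r) = 0 := by
    have : (2 : ZMod r) * x.imJ = 0 := by linear_combination h3 - h2
    exact (mul_eq_zero.1 this).resolve_left h2'
  have e3 : (x.imK : ZMod r) = 0 := by
    have : (2 : ZMod r) * x.imK = 0 := by
      linear_combination (-b0) * (h1 - h4) + a0 * (h2 + h3) + (2 * (x.imK : ZMod r)) * hi
    exact (mul_eq_zero.1 this).resolve_left h2'
  rw [ZMod.intCast_zmod_eq_zero_iff_dvd] at e0 e1 e2 e3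
  obtain ⟨a, ha⟩ := e0
  obtain ⟨b, hb⟩ := e1
  obtain ⟨c, hc⟩ := e2
  obtain ⟨d, hd⟩ := e3
  refine ⟨mk4 a b c d, ?_⟩
  ext <;> simp [ha, hb, hc, hd]

lemma CD_lift (hr : r.Prime) (hr4 : r ≠ 2)
    (a b c d : ZMod r) : ∃ x : ℍ[ℤ], CD_A a0 b0 x = a ∧ CD_B a0 b0 x = b ∧ CD_C a0 b0 x = c ∧
      CD_D a0 b0 x = d := by
  have : Fact r.Prime := ⟨hr⟩
  have h2' : (2 : ZMod r) ≠ 0 := by
    intro h
    have : ((2 : ℕ) : ZMod r) = 0 := by exact_mod_cast h
    rw [ZMod.natCast_eq_zero_iff] at this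
    have := Nat.le_of_dvd two_pos this
    have := hr.two_le
    omega
  obtain ⟨x0, h0⟩ := ZMod.intCast_surjective ((a + d) / 2)
  obtain ⟨x1, h1⟩ := ZMod.intCast_surjective (-(a0 * (a - d) + b0 * (b + c)) / 2)
  obtain ⟨x2, h2⟩ := ZMod.intCast_surjective ((c - b) / 2)
  obtain ⟨x3, h3⟩ := ZMod.intCast_surjective (-(b0 * (a - d) - a0 * (b + c)) / 2)
  refine ⟨mk4 x0 x1 x2 x3, ?_, ?_, ?_, ?_⟩
  · simp only [CD_A, mk4_re, mk4_imI, mk4_imK, h0, h1, h3]
    field_simp
    linear_combination (-(a - d)) * hi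
  · simp only [CD_B, mk4_imI, mk4_imJ, mk4_imK, h1, h2, h3]
    field_simp
    linear_combination (-(b + c)) * hi
  · simp only [CD_C, mk4_imI, mk4_imJ, mk4_imK, h1, h2, h3]
    field_simp
    linear_combination (-(b + c)) * hi
  · simp only [CD_D, mk4_re, mk4_imI, mk4_imK, h0, h1, h3]
    field_simp
    linear_combination ((a - d)) * hi

end cardSec

theorem CD_thm (hex : Stmt_exists) (hun : Stmt_unique) : Stmt_card := by
  classical
  intro r hr hr4
  have : Fact r.Prime := ⟨hr⟩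
  obtain ⟨a0, b0, hab⟩ := ZMod.sq_add_sq r (-1 : ZMod r)
  have hi : a0 * a0 + b0 * b0 = -1 := by rw [← hab]; ring
  let Φ : SS r → Option (ZMod r) := fun β =>
    if CD_A a0 b0 β.val = 0 ∧ CD_B a0 b0 β.val = 0 then none
    else some (if CD_A a0 b0 β.val ≠ 0 then CD_C a0 b0 β.val / CD_A a0 b0 β.val
      else CD_D a0 b0 β.val / CD_B a0 b0 β.val)
  have hdet : ∀ β : SS r, CD_A a0 b0 β.val * CD_D a0 b0 β.val = CD_B a0 b0 β.val * CD_C a0 b0 β.val := by
    intro β
    have := CD_norm a0 b0 hi β.val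
    rw [β.norm] at this
    have h0 : (((r : ℤ)) : ZMod r) = 0 := by simp
    rw [h0] at this
    linear_combination -this
  have hsome : ∀ (β : SS r) (t : ZMod r), Φ β = some t →
      CD_C a0 b0 β.val = CD_A a0 b0 β.val * t ∧ CD_D a0 b0 β.val = CD_B a0 b0 β.val * t := by
    intro β t h
    simp only [Φ] at h
    split_ifs at h with h1 h2
    · have ht := Option.some.inj h
      have e1 : CD_C a0 b0 β.val = CD_A a0 b0 β.val * t := by rw [← ht]; field_simp
      refine ⟨e1, ?_⟩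
      have := hdet β
      have h3 : CD_A a0 b0 β.val * (CD_D a0 b0 β.val - CD_B a0 b0 β.val * t) = 0 := by
        linear_combination this + CD_B a0 b0 β.val * e1
      have := (mul_eq_zero.1 h3).resolve_left h2
      linear_combination this
    · have ht := Option.some.inj h
      push Not at h2
      have hB : CD_B a0 b0 β.val ≠ 0 := fun hB => h1 ⟨h2, hB⟩
      have e1 : CD_D a0 b0 β.val = CD_B a0 b0 β.val * t := by rw [← ht]; field_simp
      refine ⟨?_, e1⟩
      have := hdet β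
      rw [h2, zero_mul] at this
      have := (mul_eq_zero.1 this.symm).resolve_left hB
      rw [this, h2, zero_mul]
  have hnone : ∀ (β : SS r), Φ β = none → CD_A a0 b0 β.val = 0 ∧ CD_B a0 b0 β.val = 0 := by
    intro β h
    simp only [Φ] at h
    split_ifs at h with h1
    exact h1
  have hinj : Function.Injective Φ := by
    intro β β' h
    refine (hun r hr hr4).1 β β' ?_
    have sA : CD_A a0 b0 (star β'.val) = CD_D a0 b0 β'.val := by simp [CD_A, CD_D]; ring
    have sB : CD_B a0 b0 (star β'.val) = - CD_B a0 b0 β'.val := by simp [CD_B]; ring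
    have sC : CD_C a0 b0 (star β'.val) = - CD_C a0 b0 β'.val := by simp [CD_C]; ring
    have sD : CD_D a0 b0 (star β'.val) = CD_A a0 b0 β'.val := by simp [CD_A, CD_D]
    rcases hΦ : Φ β with _ | t
    · obtain ⟨a1, a2⟩ := hnone β hΦ
      obtain ⟨b1, b2⟩ := hnone β' (by rw [← h, hΦ])
      apply CD_zero a0 b0 hi hr hr4
      · rw [CD_A_mul a0 b0 hi, sA, sB, a1, b2]; ring
      · rw [CD_B_mul a0 b0 hi, sA, sB, a2, b2]; ring
      · rw [CD_C_mul a0 b0 hi, sC, sD, a1, b1]; ring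
      · rw [CD_D_mul a0 b0 hi, sC, sD, a2, b1]; ring
    · obtain ⟨a1, a2⟩ := hsome β t hΦ
      obtain ⟨b1, b2⟩ := hsome β' t (by rw [← h, hΦ])
      apply CD_zero a0 b0 hi hr hr4
      · rw [CD_A_mul a0 b0 hi, sA, sB, a1, b2]; ring
      · rw [CD_B_mul a0 b0 hi, sA, sB, a2, b2]; ring
      · rw [CD_C_mul a0 b0 hi, sC, sD, a1, b1]; ring
      · rw [CD_D_mul a0 b0 hi, sC, sD, a2, b1]; ring
  have hsurj : Function.Surjective Φ := by
    intro o
    rcases o with _ | t
    · obtain ⟨x, xa, xb, xc, xd⟩ := CD_lift a0 b0 hi hr hr4 0 0 1 0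
      obtain ⟨β, γ, hβ⟩ := hex r hr hr4 x (by
        intro γ hγ
        have : CD_C a0 b0 x = 0 := by
          rw [hγ]; simp [CD_C]
        rw [xc] at this
        exact one_ne_zero this) (by
        rw [← ZMod.intCast_zmod_eq_zero_iff_dvd, CD_norm a0 b0 hi, xa, xb]; ring)
      refine ⟨β, ?_⟩
      rcases hΦ : Φ β with _ | t
      · rfl
      · exfalso
        obtain ⟨a1, a2⟩ := hsome β t hΦ
        rw [hβ, CD_A_mul a0 b0 hi] at xa
        rw [hβ, CD_C_mul a0 b0 hi, a1, a2] at xc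
        have : (1 : ZMod r) = 0 := by rw [← xc]; linear_combination t * xa
        exact one_ne_zero this
    · obtain ⟨x, xa, xb, xc, xd⟩ := CD_lift a0 b0 hi hr hr4 1 0 t 0
      obtain ⟨β, γ, hβ⟩ := hex r hr hr4 x (by
        intro γ hγ
        have : CD_A a0 b0 x = 0 := by
          rw [hγ]; simp [CD_A]
        rw [xa] at this
        exact one_ne_zero this) (by
        rw [← ZMod.intCast_zmod_eq_zero_iff_dvd, CD_norm a0 b0 hi, xd, xb]; ring)
      refine ⟨β, ?_⟩
      rcases hΦ : Φ β with _ | t'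
      · exfalso
        obtain ⟨a1, a2⟩ := hnone β hΦ
        rw [hβ, CD_A_mul a0 b0 hi, a1, a2] at xa
        have : (1 : ZMod r) = 0 := by rw [← xa]; ring
        exact one_ne_zero this
      · obtain ⟨a1, a2⟩ := hsome β t' hΦ
        rw [hβ, CD_A_mul a0 b0 hi] at xa
        rw [hβ, CD_C_mul a0 b0 hi, a1, a2] at xc
        congr 1
        rw [← xc]
        linear_combination (-t') * xa
  have := Fintype.card_of_bijective ⟨hinj, hsurj⟩
  rw [this, Fintype.card_option, ZMod.card]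

end TauO
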