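import Mathlib
import Pool.Agent.Work.MP_972ac7_od.Interface
import Pool.Agent.Work.MP_972ac7_tq.GN

/-!
# Block EV: the prime 2
-/

open scoped Quaternion BigOperators Matrix ComplexOrder

namespace TauO

open TauQ

/-- the map of the integral quaternions -/
theorem EV_map {R S : Type} [CommRing R] [CommRing S] (f : R →+* S) (α : ℍ[ℤ]) :
    qmap f (GN_c R α) = GN_c S α := by
  ext <;> simp [GN_c]

/-- multiplication by an integer, in coordinates -/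
theorem EV_nsmul {S : Type} [CommRing S] (c : ℕ) (x : ℍ[S]) :
    (c : ℍ[S]) * x = mk4 ((c : S) * x.re) ((c : S) * x.imI) ((c : S) * x.imJ)
      ((c : S) * x.imK) := by
  ext
  · rw [Quaternion.re_mul, mk4_re, Quaternion.re_natCast,
      Quaternion.imI_natCast, Quaternion.imJ_natCast, Quaternion.imK_natCast]
    ring
  · rw [Quaternion.imI_mul, mk4_imI, Quaternion.re_natCast,
      Quaternion.imI_natCast, Quaternion.imJ_natCast, Quaternion.imK_natCast]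
    ring
  · rw [Quaternion.imJ_mul, mk4_imJ, Quaternion.re_natCast,
      Quaternion.imI_natCast, Quaternion.imJ_natCast, Quaternion.imK_natCast]
    ring
  · rw [Quaternion.imK_mul, mk4_imK, Quaternion.re_natCast,
      Quaternion.imI_natCast, Quaternion.imJ_natCast, Quaternion.imK_natCast]
    ring

section loc

variable {S : Type} [CommRing S] (n : ℕ) [IsLocalization.Away (n : ℤ) S]

include n in
/-- `S` has no `2`-torsion -/
theorem EV_tors (hn : n ≠ 0) (s t : S) (h : ((2 : ℕ) : S) * s = ((2 : ℕ) : S) * t) : s = t := by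
  obtain ⟨k, hk⟩ := GN_coord n (s - t)
  obtain ⟨a, ha⟩ := hk k le_rfl
  have h1 : Int.castRingHom S (2 * a) = Int.castRingHom S 0 := by
    rw [map_mul, ← ha, map_zero]
    have h2 : ((2 : ℕ) : S) * (s - t) = 0 := by rw [mul_sub, h, sub_self]
    have h3 : (Int.castRingHom S) 2 = ((2 : ℕ) : S) := by simp
    rw [h3, mul_left_comm, h2, mul_zero]
  have h4 := GN_inj n hn h1
  have h5 : a = 0 := by omega
  rw [h5, map_zero] at ha
  have h6 : IsUnit (((n ^ k : ℕ)) : S) := by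
    rw [Nat.cast_pow]
    exact (GN_unit (R := S) n n dvd_rfl).pow k
  have h7 := h6.mul_left_cancel (ha.trans (mul_zero _).symm)
  exact sub_eq_zero.1 h7

include n in
theorem EV_two (hn : n ≠ 0) (x y : ℍ[S]) (h : ((2 : ℕ) : ℍ[S]) * x = ((2 : ℕ) : ℍ[S]) * y) :
    x = y := by
  rw [EV_nsmul, EV_nsmul] at h
  ext
  · exact EV_tors n hn _ _ (congrArg QuaternionAlgebra.re h)
  · exact EV_tors n hn _ _ (congrArg QuaternionAlgebra.imI h)
  · exact EV_tors n hn _ _ (congrArg QuaternionAlgebra.imJ h)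
  · exact EV_tors n hn _ _ (congrArg QuaternionAlgebra.imK h)

end loc

/-- a sum of four squares divisible by `8` has even members -/
theorem EV_even (a b c d : ℤ) (h : (8 : ℤ) ∣ a ^ 2 + b ^ 2 + c ^ 2 + d ^ 2) :
    2 ∣ a ∧ 2 ∣ b ∧ 2 ∣ c ∧ 2 ∣ d := by
  have key : ∀ x : ZMod 8, ∀ y : ZMod 8, ∀ z : ZMod 8, ∀ w : ZMod 8,
      x ^ 2 + y ^ 2 + z ^ 2 + w ^ 2 = 0 →
      4 * x = 0 ∧ 4 * y = 0 ∧ 4 * z = 0 ∧ 4 * w = 0 := by decide
  have h1 : (((a ^ 2 + b ^ 2 + c ^ 2 + d ^ 2 : ℤ)) : ZMod 8) = 0 :=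
    (ZMod.intCast_zmod_eq_zero_iff_dvd _ 8).2 h
  push_cast at h1
  obtain ⟨k1, k2, k3, k4⟩ := key _ _ _ _ h1
  have conv : ∀ x : ℤ, 4 * (x : ZMod 8) = 0 → 2 ∣ x := by
    intro x hx
    have h2 : (((4 * x : ℤ)) : ZMod 8) = 0 := by push_cast; exact hx
    have h3 := (ZMod.intCast_zmod_eq_zero_iff_dvd _ 8).1 h2
    push_cast at h3
    omega
  exact ⟨conv _ k1, conv _ k2, conv _ k3, conv _ k4⟩

/-- an integral quaternion of norm divisible by `8` is even -/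
theorem EV_half (α : ℍ[ℤ]) (h : (8 : ℤ) ∣ Quaternion.normSq α) :
    ∃ β : ℍ[ℤ], α = ((2 : ℕ) : ℍ[ℤ]) * β := by
  rw [Quaternion.normSq_def'] at h
  obtain ⟨⟨a, ha⟩, ⟨b, hb⟩, ⟨c, hc⟩, ⟨d, hd⟩⟩ := EV_even _ _ _ _ h
  refine ⟨mk4 a b c d, ?_⟩
  rw [EV_nsmul]
  ext
  · rw [mk4_re, mk4_re, ha]; push_cast; ring
  · rw [mk4_imI, mk4_imI, hb]; push_cast; ring
  · rw [mk4_imJ, mk4_imJ, hc]; push_cast; ring
  · rw [mk4_imK, mk4_imK, hd]; push_cast; ring

section loc2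

variable {S : Type} [CommRing S] (n : ℕ) [IsLocalization.Away (n : ℤ) S]

include n in
/-- the denominator is at most `2` at the prime `2` -/
theorem EV_red (hn : n ≠ 0) (x : unitary ℍ[S]) (d : ℕ) : ∀ (a : ℕ) (α : ℍ[ℤ]),
    ((2 ^ a * d : ℕ) : ℍ[S]) * (x : ℍ[S]) = GN_c S α →
    ∃ β : ℍ[ℤ], ((2 * d : ℕ) : ℍ[S]) * (x : ℍ[S]) = GN_c S β := by
  intro a
  induction a with
  | zero =>
    intro α h
    refine ⟨((2 : ℕ) : ℍ[ℤ]) * α, ?_⟩
    rw [map_mul, map_natCast, ← h, ← mul_assoc, ← Nat.cast_mul, pow_zero, one_mul]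
  | succ a ih =>
    intro α h
    by_cases ha : a = 0
    · subst ha
      refine ⟨α, ?_⟩
      rw [zero_add, pow_one] at h
      exact h
    · have h1 := GN_norm (GN_inj n hn) _ α x h
      have h2 : (8 : ℤ) ∣ Quaternion.normSq α := by
        rw [h1]
        obtain ⟨b, rfl⟩ : ∃ b, a = b + 1 := ⟨a - 1, by omega⟩
        refine ⟨2 * (((2 ^ b * d : ℕ) : ℤ)) ^ 2, ?_⟩
        push_cast
        ring
      obtain ⟨β, rfl⟩ := EV_half α h2
      refine ih β (EV_two n hn _ _ ?_)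
      rw [map_mul, map_natCast] at h
      rw [← h, ← mul_assoc, ← Nat.cast_mul]
      congr 2
      ring

end loc2

/-- congruence of integral quaternions modulo `4` -/
theorem EV_cong (α α' : ℍ[ℤ]) (h : redM 4 α = redM 4 α') :
    ∃ δ : ℍ[ℤ], α = α' + ((4 : ℕ) : ℍ[ℤ]) * δ := by
  have key : ∀ a b : ℤ, (Int.castRingHom (ZMod 4)) a = (Int.castRingHom (ZMod 4)) b →
      ∃ c, a = b + 4 * c := by
    intro a b hab
    rw [Int.coe_castRingHom, ZMod.intCast_eq_intCast_iff_dvd_sub] at hab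
    obtain ⟨c, hc⟩ := hab
    refine ⟨-c, ?_⟩
    push_cast at hc
    linarith
  obtain ⟨a, ha⟩ := key _ _ (congrArg QuaternionAlgebra.re h)
  obtain ⟨b, hb⟩ := key _ _ (congrArg QuaternionAlgebra.imI h)
  obtain ⟨c, hc⟩ := key _ _ (congrArg QuaternionAlgebra.imJ h)
  obtain ⟨d, hd⟩ := key _ _ (congrArg QuaternionAlgebra.imK h)
  refine ⟨mk4 a b c d, ?_⟩
  rw [EV_nsmul]
  ext
  · rw [Quaternion.re_add, mk4_re, mk4_re, ha]; push_cast; ring
  · rw [Quaternion.imI_add, mk4_imI, mk4_imI, hb]; push_cast; ring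
  · rw [Quaternion.imJ_add, mk4_imJ, mk4_imJ, hc]; push_cast; ring
  · rw [Quaternion.imK_add, mk4_imK, mk4_imK, hd]; push_cast; ring

/-- elements with the same class differ by an element of the range -/
theorem EV_key {R S : Type} [CommRing R] [CommRing S] (n : ℕ) [IsLocalization.Away (n : ℤ) S]
    (hn : n ≠ 0) (f : R →+* S) (x x' : unitary ℍ[S]) (d d' : ℕ)
    (hd : IsUnit (d : R)) (hd' : IsUnit (d' : R)) (α α' : ℍ[ℤ])
    (h : ((2 * d : ℕ) : ℍ[S]) * (x : ℍ[S]) = GN_c S α)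
    (h' : ((2 * d' : ℕ) : ℍ[S]) * (x' : ℍ[S]) = GN_c S α') (hc : redM 4 α = redM 4 α') :
    x * x'⁻¹ ∈ (GN_J f).range := by
  obtain ⟨δ, hδ⟩ := EV_cong α α' hc
  have hN := GN_norm (GN_inj n hn) _ α' x' h'
  set β : ℍ[ℤ] := ((d' ^ 2 : ℕ) : ℍ[ℤ]) + δ * star α' with hβ
  have h1 : α * star α' = ((4 : ℕ) : ℍ[ℤ]) * β := by
    rw [hδ, add_mul, Quaternion.self_mul_star, hN, hβ, mul_add, ← mul_assoc]
    congr 1
    rw [← Nat.cast_mul, ← Quaternion.coe_natCast]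
    congr 1
    push_cast
    ring
  have hx' : ((x'⁻¹ : unitary ℍ[S]) : ℍ[S]) = star (x' : ℍ[S]) := rfl
  have hcm : ∀ (c : ℕ) (z : ℍ[S]), z * (c : ℍ[S]) = (c : ℍ[S]) * z :=
    fun c z => (Nat.cast_commute c z).eq.symm
  have h2 : ((2 * d : ℕ) : ℍ[S]) * (((2 * d' : ℕ) : ℍ[S]) * ((x * x'⁻¹ : unitary ℍ[S]) : ℍ[S])) =
      GN_c S (((4 : ℕ) : ℍ[ℤ]) * β) := by
    rw [← h1, map_mul, ← h, GN_c, qmap_star, ← GN_c, ← h', star_mul, star_natCast,
      Submonoid.coe_mul, hx', hcm (2 * d') (star (x' : ℍ[S])), mul_assoc, ← mul_assoc (x : ℍ[S]),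
      hcm (2 * d') (x : ℍ[S]), mul_assoc]
  have h3 : ((d * d' : ℕ) : ℍ[S]) * ((x * x'⁻¹ : unitary ℍ[S]) : ℍ[S]) = GN_c S β := by
    refine EV_two n hn _ _ (EV_two n hn _ _ ?_)
    rw [map_mul, map_natCast] at h2
    set X : ℍ[S] := ((x * x'⁻¹ : unitary ℍ[S]) : ℍ[S]) with hX
    have e1 : ((2 : ℕ) : ℍ[S]) * (((2 : ℕ) : ℍ[S]) * (((d * d' : ℕ) : ℍ[S]) * X)) =
        ((2 * (2 * (d * d')) : ℕ) : ℍ[S]) * X := by
      rw [Nat.cast_mul 2 (2 * (d * d')), Nat.cast_mul 2 (d * d'), mul_assoc, mul_assoc]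
    have e2 : ((2 * d : ℕ) : ℍ[S]) * (((2 * d' : ℕ) : ℍ[S]) * X) =
        ((2 * (2 * (d * d')) : ℕ) : ℍ[S]) * X := by
      rw [← mul_assoc, ← Nat.cast_mul]
      congr 2
      ring
    have e3 : ((4 : ℕ) : ℍ[S]) * GN_c S β =
        ((2 : ℕ) : ℍ[S]) * (((2 : ℕ) : ℍ[S]) * GN_c S β) := by
      rw [← mul_assoc, ← Nat.cast_mul]
    rw [e1, ← e2, h2, e3]
  have hu : IsUnit (((d * d' : ℕ)) : R) := by
    rw [Nat.cast_mul]
    exact hd.mul hd'
  obtain ⟨u, hu1⟩ := GN_mk (R := R) (d * d') hu β (GN_norm (GN_inj n hn) _ β _ h3)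
  refine ⟨u, Subtype.ext (GN_cancel (d * d') ?_ _ _ ?_)⟩
  · have := hu.map f
    rwa [map_natCast] at this
  · rw [h3, GN_J_val, ← EV_map f, ← hu1, map_mul, map_natCast]

theorem EV_thm : SQ_EV := by
  intro m k hm R S _ _ _ _
  have hm0 : m ≠ 0 := by
    rintro rfl
    simp at hm
  have hn0 : 2 ^ k * m ≠ 0 := by positivity
  have hS : IsUnit ((Int.castRingHom S) (m : ℤ)) := by
    rw [map_natCast]
    exact GN_unit (2 ^ k * m) m (dvd_mul_left _ _)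
  let f : R →+* S := IsLocalization.Away.lift (S := R) (m : ℤ) (g := Int.castRingHom S) hS
  refine ⟨GN_J f, ?_⟩
  have hrep : ∀ x : unitary ℍ[S], ∃ (e : ℕ) (α : ℍ[ℤ]),
      ((2 * m ^ e : ℕ) : ℍ[S]) * (x : ℍ[S]) = GN_c S α := by
    intro x
    obtain ⟨K, α, h⟩ := GN_denom (2 ^ k * m) (x : ℍ[S])
    rw [mul_pow, ← pow_mul] at h
    obtain ⟨β, hβ⟩ := EV_red (2 ^ k * m) hn0 x (m ^ K) (k * K) α h
    exact ⟨K, β, hβ⟩
  choose e α hα using hrep
  have hfin : Finite (unitary ℍ[S] ⧸ (GN_J f).range) := by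
    refine Finite.of_injective
      (fun q : unitary ℍ[S] ⧸ (GN_J f).range => redM 4 (α (Quotient.out q)⁻¹)) ?_
    intro q q' hq
    have hu : ∀ j : ℕ, IsUnit (((m ^ j : ℕ)) : R) := by
      intro j
      rw [Nat.cast_pow]
      exact (GN_unit (R := R) m m dvd_rfl).pow j
    have h1 := EV_key (2 ^ k * m) hn0 f (Quotient.out q)⁻¹ (Quotient.out q')⁻¹ _ _ (hu _) (hu _) _ _
      (hα _) (hα _) hq
    rw [inv_inv, ← QuotientGroup.eq] at h1
    rw [← QuotientGroup.out_eq' q, ← QuotientGroup.out_eq' q']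
    exact h1
  exact Subgroup.finiteIndex_of_finite_quotient

end TauO
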