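import Mathlib
import Pool.Agent.Work.MP_972ac7_od.Interface
import Pool.Agent.Work.MP_972ac7_al_tau.exists

/-!
# Block EX: a primitive quaternion whose norm is divisible by the odd prime `r` is divisible by an
element of `SS r` (edit of `MP_972ac7_al_tau/exists.lean`)
-/

set_option autoImplicit false

open scoped Quaternion BigOperators

namespace TauO

open TauQ

/-- the key step: an element of norm `r` dividing `α` on the left -/
lemma EX_norm {r : ℕ} (hr : r.Prime) (hr4 : r % 2 = 1) (α : ℍ[ℤ])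
    (hα : ∀ γ : ℍ[ℤ], α ≠ (r : ℍ[ℤ]) * γ) (hd : (r : ℤ) ∣ Quaternion.normSq α) :
    ∃ x q : ℍ[ℤ], Quaternion.normSq x = (r : ℤ) ∧ α = x * q := by
  have hr0 : (0 : ℤ) < r := by exact_mod_cast hr.pos
  have hrne : (r : ℍ[ℤ]) ≠ 0 := by
    intro h
    have := congrArg (fun y : ℍ[ℤ] => y.re) h
    simp at this
    omega
  obtain ⟨x, ⟨hx0, hxI⟩, hmin⟩ := exists_min (fun x => x ≠ 0 ∧ exIn r α x) ⟨_, hrne, exIn_self α⟩
  have hNpos := exists_pos x hx0
  -- elements of smaller norm vanish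
  have hsmall : ∀ y, exIn r α y → Quaternion.normSq y < Quaternion.normSq x → y = 0 := by
    intro y hy hlt
    by_contra hy0
    exact absurd (hmin y ⟨hy0, hy⟩) (not_le.mpr hlt)
  obtain ⟨k, hk⟩ := exIn_dvd hr hα hxI
  -- `x` divides `r`
  obtain ⟨q, hq⟩ : ∃ q : ℍ[ℤ], (r : ℍ[ℤ]) = x * q := by
    obtain ⟨q, ρ, h1, h2, h3, h4, h5, h6⟩ := exists_div x (r : ℍ[ℤ]) hx0
    refine ⟨q, ?_⟩
    have hs : (r : ℍ[ℤ]) - x * q = 0 := by
      apply hsmall _ (exIn_sub (exIn_self α) (exIn_mul hxI q))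
      by_contra hcon
      push Not at hcon
      have hρ := exists_normSq_def ρ
      set N := Quaternion.normSq x with hN
      have key : ∀ a : ℤ, |2 * a| ≤ N → 4 * a ^ 2 ≤ N ^ 2 := by
        intro a ha
        have h6 : |2 * a| ^ 2 ≤ N ^ 2 := by
          have := abs_nonneg (2 * a)
          nlinarith
        rw [sq_abs] at h6
        linarith
      have hge : N ^ 2 ≤ Quaternion.normSq ρ := by
        rw [← h1]
        nlinarith
      have k3 := key _ h3
      have k4 := key _ h4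
      have k5 := key _ h5
      have k6 := key _ h6
      have e3 : 4 * ρ.re ^ 2 = N ^ 2 := by nlinarith
      have e4 : 4 * ρ.imI ^ 2 = N ^ 2 := by nlinarith
      have e5 : 4 * ρ.imJ ^ 2 = N ^ 2 := by nlinarith
      have e6 : 4 * ρ.imK ^ 2 = N ^ 2 := by nlinarith
      have hkpos : 0 < k := by
        rw [hk] at hNpos
        exact (pos_iff_pos_of_mul_pos hNpos).mp hr0
      -- coordinates: r * x' = N q + ρ, with 2 ρ = ± N
      have c0 : (r : ℤ) * x.re = N * q.re + ρ.re := by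
        have := congrArg (fun y : ℍ[ℤ] => y.re) h2
        simp at this
        linarith
      have c1 : -((r : ℤ) * x.imI) = N * q.imI + ρ.imI := by
        have := congrArg (fun y : ℍ[ℤ] => y.imI) h2
        simp at this
        linarith
      have c2 : -((r : ℤ) * x.imJ) = N * q.imJ + ρ.imJ := by
        have := congrArg (fun y : ℍ[ℤ] => y.imJ) h2
        simp at this
        linarith
      have c3 : -((r : ℤ) * x.imK) = N * q.imK + ρ.imK := by
        have := congrArg (fun y : ℍ[ℤ] => y.imK) h2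
        simp at this
        linarith
      -- 2 x' = k * odd
      have comp : ∀ a b c : ℤ, (r : ℤ) * a = N * b + c → 4 * c ^ 2 = N ^ 2 →
          ∃ w : ℤ, 2 * a = k * (2 * w + 1) := by
        intro a b c hab hc
        have hc2 : (2 * c - N) * (2 * c + N) = 0 := by ring_nf; linarith
        rcases mul_eq_zero.mp hc2 with h | h
        · refine ⟨b, ?_⟩
          have : (r : ℤ) * (2 * a) = r * (k * (2 * b + 1)) := by
            rw [hk] at hab h
            linarith
          exact mul_left_cancel₀ hr0.ne' this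
        · refine ⟨b - 1, ?_⟩
          have : (r : ℤ) * (2 * a) = r * (k * (2 * (b - 1) + 1)) := by
            rw [hk] at hab h
            linarith
          exact mul_left_cancel₀ hr0.ne' this
      obtain ⟨w0, hw0⟩ := comp _ _ _ c0 e3
      obtain ⟨w1, hw1⟩ := comp (-x.imI) q.imI ρ.imI (by linarith) e4
      obtain ⟨w2, hw2⟩ := comp (-x.imJ) q.imJ ρ.imJ (by linarith) e5
      obtain ⟨w3, hw3⟩ := comp (-x.imK) q.imK ρ.imK (by linarith) e6
      -- k is even
      have hkev : Even k := by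
        rcases Int.even_or_odd k with h | h
        · exact h
        · exfalso
          have : Odd (k * (2 * w0 + 1)) := h.mul ⟨w0, rfl⟩
          rw [← hw0] at this
          obtain ⟨m, hm⟩ := this
          omega
      -- 4 r = k * (sum of four odd squares)
      have hsum : 4 * (r : ℤ) = k * ((2 * w0 + 1) ^ 2 + (2 * w1 + 1) ^ 2 + (2 * w2 + 1) ^ 2
          + (2 * w3 + 1) ^ 2) := by
        have hNx := exists_normSq_def x
        have h4N : 4 * N = k ^ 2 * ((2 * w0 + 1) ^ 2 + (2 * w1 + 1) ^ 2 + (2 * w2 + 1) ^ 2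
          + (2 * w3 + 1) ^ 2) := by
          have e : 4 * N = (2 * x.re) ^ 2 + (2 * -x.imI) ^ 2 + (2 * -x.imJ) ^ 2
              + (2 * -x.imK) ^ 2 := by
            rw [hN, hNx]; ring
          rw [e, hw0, hw1, hw2, hw3]
          ring
        rw [hk] at h4N
        have : k * (4 * (r : ℤ)) = k * (k * ((2 * w0 + 1) ^ 2 + (2 * w1 + 1) ^ 2
            + (2 * w2 + 1) ^ 2 + (2 * w3 + 1) ^ 2)) := by linarith
        exact mul_left_cancel₀ hkpos.ne' this
      obtain ⟨m, hm⟩ := hkev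
      -- r = k * (w0^2+w0+...+1), r odd
      have hr' : (r : ℤ) = k * (w0 ^ 2 + w0 + w1 ^ 2 + w1 + w2 ^ 2 + w2 + w3 ^ 2 + w3 + 1) := by
        linarith
      have : (2 : ℤ) ∣ r := by
        rw [hr', hm]
        exact ⟨m * (w0 ^ 2 + w0 + w1 ^ 2 + w1 + w2 ^ 2 + w2 + w3 ^ 2 + w3 + 1), by ring⟩
      omega
    exact sub_eq_zero.mp hs
  -- norms
  have hnorm : Quaternion.normSq x * Quaternion.normSq q = (r : ℤ) ^ 2 := by
    rw [← map_mul, ← hq]
    have : (Quaternion.normSq (r : ℍ[ℤ])) = (r : ℤ) ^ 2 := by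
      rw [exists_normSq_def]
      simp
    exact this
  have hodd : Odd (Quaternion.normSq x) := by
    have : Odd ((r : ℤ) ^ 2) := by
      apply Odd.pow
      rw [Int.odd_iff]
      omega
    rw [← hnorm] at this
    exact (Int.odd_mul.mp this).1
  -- `x` divides `α`
  obtain ⟨q', hq'⟩ : ∃ q' : ℍ[ℤ], α = x * q' := by
    obtain ⟨q', h⟩ := exists_div_odd x α hodd
    refine ⟨q', ?_⟩
    exact sub_eq_zero.mp (hsmall _ (exIn_sub (exIn_alpha hd) (exIn_mul hxI q')) h)
  refine ⟨x, q', ?_, hq'⟩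
  -- the norm of `x` is `r`
  have hqn : (0 : ℤ) ≤ Quaternion.normSq q := Quaternion.normSq_nonneg
  have hkq : k * Quaternion.normSq q = r := by
    rw [hk] at hnorm
    have : (r : ℤ) * (k * Quaternion.normSq q) = r * r := by linarith
    exact mul_left_cancel₀ hr0.ne' this
  have hkpos : 0 < k := by
    rw [hk] at hNpos
    exact (pos_iff_pos_of_mul_pos hNpos).mp hr0
  have hkdvd : k.toNat ∣ r := by
    have : (k.toNat : ℤ) ∣ (r : ℤ) := by
      rw [Int.toNat_of_nonneg hkpos.le]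
      exact ⟨_, hkq.symm⟩
    exact_mod_cast this
  rcases (Nat.dvd_prime hr).mp hkdvd with h | h
  · have : k = 1 := by omega
    rw [hk, this, mul_one]
  · exfalso
    have hkr : k = r := by omega
    have hq1 : Quaternion.normSq q = 1 := by
      rw [hkr] at hkq
      have : (r : ℤ) * Quaternion.normSq q = r * 1 := by linarith
      exact mul_left_cancel₀ hr0.ne' this
    apply hα (star q * q')
    have : x = (r : ℍ[ℤ]) * star q := by
      rw [hq, mul_assoc, exists_self_mul_star, hq1]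
      simp
    rw [hq', this, mul_assoc]

lemma EX_unit {r : ℕ} (hr4 : r % 4 = 3) (x : ℍ[ℤ]) (hx : Quaternion.normSq x = (r : ℤ)) :
    ∃ u : ℍ[ℤ], u * star u = 1 ∧ x * u ∈ OO := by
  rw [exists_normSq_def] at hx
  have h0 := exists_sqmod x.re
  have h1 := exists_sqmod x.imI
  have h2 := exists_sqmod x.imJ
  have h3 := exists_sqmod x.imK
  have hr : (x.re ^ 2 + x.imI ^ 2 + x.imJ ^ 2 + x.imK ^ 2) % 4 = 3 := by
    rw [hx]
    omega
  have hsum : (x.re % 2 + x.imI % 2 + x.imJ % 2 + x.imK % 2) % 4 = 3 := by omega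
  have hcase : (x.re % 2 = 0 ∧ x.imI % 2 = 1 ∧ x.imJ % 2 = 1 ∧ x.imK % 2 = 1) ∨
      (x.re % 2 = 1 ∧ x.imI % 2 = 0 ∧ x.imJ % 2 = 1 ∧ x.imK % 2 = 1) ∨
      (x.re % 2 = 1 ∧ x.imI % 2 = 1 ∧ x.imJ % 2 = 0 ∧ x.imK % 2 = 1) ∨
      (x.re % 2 = 1 ∧ x.imI % 2 = 1 ∧ x.imJ % 2 = 1 ∧ x.imK % 2 = 0) := by omega
  rcases hcase with h | h | h | h
  · by_cases h4 : (x.imI + x.imJ + x.imK) % 4 = 3
    · refine ⟨mk4 1 0 0 0, by ext <;> simp, Or.inr ?_⟩
      refine ⟨?_, ?_, ?_, ?_, ?_⟩ <;> simp <;> omega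
    · refine ⟨mk4 (-1) 0 0 0, by ext <;> simp, Or.inr ?_⟩
      refine ⟨?_, ?_, ?_, ?_, ?_⟩ <;> simp <;> omega
  · by_cases h4 : (x.re + x.imK - x.imJ) % 4 = 3
    · refine ⟨mk4 0 1 0 0, by ext <;> simp, Or.inr ?_⟩
      refine ⟨?_, ?_, ?_, ?_, ?_⟩ <;> simp <;> omega
    · refine ⟨mk4 0 (-1) 0 0, by ext <;> simp, Or.inr ?_⟩
      refine ⟨?_, ?_, ?_, ?_, ?_⟩ <;> simp <;> omega
  · by_cases h4 : (x.re + x.imI - x.imK) % 4 = 3
    · refine ⟨mk4 0 0 1 0, by ext <;> simp, Or.inr ?_⟩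
      refine ⟨?_, ?_, ?_, ?_, ?_⟩ <;> simp <;> omega
    · refine ⟨mk4 0 0 (-1) 0, by ext <;> simp, Or.inr ?_⟩
      refine ⟨?_, ?_, ?_, ?_, ?_⟩ <;> simp <;> omega
  · by_cases h4 : (x.re + x.imJ - x.imI) % 4 = 3
    · refine ⟨mk4 0 0 0 1, by ext <;> simp, Or.inr ?_⟩
      refine ⟨?_, ?_, ?_, ?_, ?_⟩ <;> simp <;> omega
    · refine ⟨mk4 0 0 0 (-1), by ext <;> simp, Or.inr ?_⟩
      refine ⟨?_, ?_, ?_, ?_, ?_⟩ <;> simp <;> omega

theorem EX_thm : Stmt_exists := by
  intro r hr hr2 α hα hd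
  have hodd : r % 2 = 1 := by
    rcases hr.eq_two_or_odd with h | h
    · exact absurd h hr2
    · exact h
  obtain ⟨x, q, hx, hq⟩ := EX_norm hr hodd α hα hd
  obtain ⟨u, hu, hO⟩ : ∃ u : ℍ[ℤ], u * star u = 1 ∧ x * u ∈ OO := by
    have h4 : r % 4 = 1 ∨ r % 4 = 3 := by omega
    rcases h4 with h4 | h4
    · obtain ⟨u, hu, hO⟩ := exists_unit h4 x hx
      exact ⟨u, hu, old_le hO⟩
    · exact EX_unit h4 x hx
  have hn : Quaternion.normSq (x * u) = (r : ℤ) := by
    have h1 : Quaternion.normSq u * Quaternion.normSq u = 1 := by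
      have := congrArg Quaternion.normSq hu
      rw [map_mul, Quaternion.normSq_star, map_one] at this
      exact this
    have h2 : 0 ≤ Quaternion.normSq u := Quaternion.normSq_nonneg
    have h3 : Quaternion.normSq u = 1 := by nlinarith
    rw [map_mul, hx, h3, mul_one]
  refine ⟨⟨x * u, hO, hn⟩, star u * q, ?_⟩
  change α = (x * u) * (star u * q)
  rw [mul_assoc, ← mul_assoc u, hu, one_mul, hq]

end TauO
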