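import Mathlib
import Pool.Agent.Work.MP_972ac7_od.Interface
import Pool.Agent.Work.MP_972ac7_tq.FP

/-!
# Block FP: from the finite groups back to `GG p q`, all odd primes
-/

open scoped Quaternion BigOperators

namespace TauO

open TauQ

theorem FP_cancelZ (p q : ℕ) (n : ℤ) (hn : IsUnit (n : RR p q)) (x y : ℍ[RR p q])
    (h : (n : ℍ[RR p q]) * x = (n : ℍ[RR p q]) * y) : x = y := by
  have h1 := hn.map (algebraMap (RR p q) ℍ[RR p q])
  rw [map_intCast] at h1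
  exact h1.mul_left_cancel h

theorem FP_unitpst (p q : ℕ) : IsUnit ((pst p : ℤ) : RR p q) := by
  have h := FP_unitp p q
  have h2 : IsUnit ((eps p : ℤ) : RR p q) := by
    refine IsUnit.of_mul_eq_one ((eps p : ℤ) : RR p q) ?_
    rw [← Int.cast_mul, eps_sq, Int.cast_one]
  rw [pst, Int.cast_mul, Int.cast_natCast]
  exact h2.mul h

theorem FP_pst_even (r K : ℕ) : pst r ^ (2 * K) = ((r ^ (2 * K) : ℕ) : ℤ) := by
  rw [pow_mul, sq, pst_sq, Nat.cast_pow, ← sq, ← pow_mul]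

theorem FP_den_even (p q K : ℕ) :
    den p q (2 * K) (2 * K) = ((p ^ K * q ^ K : ℕ) : ℤ) * ((p ^ K * q ^ K : ℕ) : ℤ) := by
  rw [den, FP_pst_even, FP_pst_even]
  push_cast
  ring

theorem FP_denomG (p q : ℕ) (hp : p ≠ 0) (hq : q ≠ 0) (hp2 : p % 2 = 1) (hq2 : q % 2 = 1)
    (x : GG p q) : ∃ (K : ℕ) (α : ℍ[ℤ]),
    ((den p q (2 * K) (2 * K) : ℤ) : ℍ[RR p q]) * (x : ℍ[RR p q]) = castR p q α ∧
      Quaternion.normSq α % 4 = 1 := by
  obtain ⟨K, α, h⟩ := FP_denom p q (x : ℍ[RR p q])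
  have hodd : (p ^ K * q ^ K) % 2 = 1 := by
    rw [Nat.mul_mod, Nat.pow_mod, Nat.pow_mod q, hp2, hq2]
    simp
  have hodd4 : (((p ^ K * q ^ K : ℕ) : ℤ) ^ 2) % 4 = 1 := by
    have h6 : ((p ^ K * q ^ K : ℕ) : ℤ) % 2 = 1 := by exact_mod_cast hodd
    have h7 : ((p ^ K * q ^ K : ℕ) : ℤ) % 4 = 1 ∨ ((p ^ K * q ^ K : ℕ) : ℤ) % 4 = 3 := by
      generalize ((p ^ K * q ^ K : ℕ) : ℤ) = z at *
      omega
    rw [sq, Int.mul_emod]
    rcases h7 with h7 | h7 <;> rw [h7] <;> norm_num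
  refine ⟨K, ((p ^ K * q ^ K : ℕ) : ℍ[ℤ]) * α, ?_, ?_⟩
  · rw [FP_den_even, Int.cast_mul, Int.cast_natCast, mul_assoc, h, map_mul, map_natCast]
  · have h1 : Quaternion.normSq (x : ℍ[RR p q]) = 1 := (mem_unitary_iff _).1 x.2
    have h2 := congrArg Quaternion.normSq h
    rw [map_mul, h1, mul_one, castR, normSq_qmap, Quaternion.normSq_natCast] at h2
    have h3 : algebraMap ℤ (RR p q) (((p ^ K * q ^ K : ℕ) : ℤ) ^ 2) =
        algebraMap ℤ (RR p q) (Quaternion.normSq α) := by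
      rw [← h2, map_pow, map_natCast]
    have h4 := FP_injZ p q hp hq h3
    rw [map_mul, Quaternion.normSq_natCast, ← h4, Int.mul_emod, hodd4]
    norm_num

/-- `G1` is normal -/
theorem FP_normal (p q : ℕ) (hp : p ≠ 0) (hq : q ≠ 0) (hp2 : p % 2 = 1) (hq2 : q % 2 = 1) :
    (G1 p q).Normal := by
  constructor
  rintro γ ⟨i, j, β, hβ, e⟩ x
  obtain ⟨K, α, h, hα⟩ := FP_denomG p q hp hq hp2 hq2 x
  refine ⟨2 * K + i + 2 * K, 2 * K + j + 2 * K, α * β * star α, FP_oo_conj α β hβ hα, ?_⟩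
  rw [map_mul, map_mul, ← e, ← h]
  have hs : castR p q (star α) = ((den p q (2 * K) (2 * K) : ℤ) : ℍ[RR p q]) *
      star (x : ℍ[RR p q]) := by
    rw [castR, qmap_star, ← castR, ← h, star_mul, star_intCast]
    exact (Int.cast_commute _ _).eq.symm
  rw [hs]
  have hn : ((den p q (2 * K + i + 2 * K) (2 * K + j + 2 * K) : ℤ) : ℍ[RR p q]) =
      ((den p q (2 * K) (2 * K) : ℤ) : ℍ[RR p q]) * ((den p q i j : ℤ) : ℍ[RR p q]) *
        ((den p q (2 * K) (2 * K) : ℤ) : ℍ[RR p q]) := by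
    rw [den_mul, den_mul, Int.cast_mul, Int.cast_mul]
  rw [hn, Submonoid.coe_mul, Submonoid.coe_mul, FP_coe_inv]
  have c1 := (Int.cast_commute (den p q (2 * K) (2 * K)) (x : ℍ[RR p q])).eq
  have c2 := (Int.cast_commute (den p q i j) (x : ℍ[RR p q])).eq
  have c3 := (Int.cast_commute (den p q (2 * K) (2 * K)) (γ : ℍ[RR p q])).eq
  generalize ((den p q (2 * K) (2 * K) : ℤ) : ℍ[RR p q]) = P at *
  generalize ((den p q i j : ℤ) : ℍ[RR p q]) = P' at *
  generalize (x : ℍ[RR p q]) = X at *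
  generalize (γ : ℍ[RR p q]) = Y at *
  calc P * P' * P * (X * Y * star X) = P * P' * (P * X) * Y * star X := by
        simp only [mul_assoc]
    _ = P * P' * (X * P) * Y * star X := by rw [c1]
    _ = P * (P' * X) * (P * Y) * star X := by simp only [mul_assoc]
    _ = P * (X * P') * (Y * P) * star X := by rw [c2, c3]
    _ = P * X * (P' * Y) * (P * star X) := by simp only [mul_assoc]

theorem FP_decomp (p q : ℕ) (hp : p ≠ 0) (hq : q ≠ 0) (hp2 : p % 2 = 1) (hq2 : q % 2 = 1)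
    (x : GG p q) : ∃ i s, ∃ γ : G1 p q, x = FP_e p q i s * γ := by
  obtain ⟨K, α, h, hα⟩ := FP_denomG p q hp hq hp2 hq2 x
  obtain ⟨i, s, hOO⟩ := FP_unitmul α hα
  refine ⟨i, s, ⟨(FP_e p q i s)⁻¹ * x, 2 * K, 2 * K, _, hOO, ?_⟩, ?_⟩
  · rw [map_mul, ← h, Submonoid.coe_mul, FP_coe_inv, castR, qmap_star]
    have c1 := (Int.cast_commute (den p q (2 * K) (2 * K))
      (star ((FP_e p q i s : GG p q) : ℍ[RR p q]))).eq
    rw [← mul_assoc, c1, mul_assoc]
    rfl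
  · simp

/-! ### the conclusion -/

theorem FP_ne (p : ℕ) (h2 : p % 2 = 1) : Nonempty (SS p) := by
  obtain ⟨a, b, c, d, h⟩ := Nat.sum_four_squares p
  have h' : (a : ℤ) ^ 2 + (b : ℤ) ^ 2 + (c : ℤ) ^ 2 + (d : ℤ) ^ 2 = (p : ℤ) := by exact_mod_cast h
  have hp' : (p : ℤ) % 2 = 1 := by omega
  generalize (a : ℤ) = x at h'
  generalize (b : ℤ) = y at h'
  generalize (c : ℤ) = z at h'
  generalize (d : ℤ) = w at h'
  have key : ∀ x y z w : ℤ, x ^ 2 + y ^ 2 + z ^ 2 + w ^ 2 = (p : ℤ) →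
      ((x % 4 = 1 ∧ 2 ∣ y ∧ 2 ∣ z ∧ 2 ∣ w) ∨ (2 ∣ x ∧ y % 2 = 1 ∧ z % 2 = 1 ∧ w % 2 = 1 ∧
        (y + z + w) % 4 = 3)) → Nonempty (SS p) := by
    intro x y z w h1 h2
    refine ⟨⟨mk4 x y z w, h2, ?_⟩⟩
    rw [Quaternion.normSq_def']
    exact h1
  have hn : ∀ x : ℤ, (-x) ^ 2 = x ^ 2 := fun x => by ring
  have nx := hn x
  have ny := hn y
  have nz := hn z
  have nw := hn w
  clear hn h h2
  rcases FP_par x with ⟨d0, e0⟩ | ⟨e0, d0⟩ | ⟨e0, d0⟩ <;>
  rcases FP_par y with ⟨d1, e1⟩ | ⟨e1, d1⟩ | ⟨e1, d1⟩ <;>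
  rcases FP_par z with ⟨d2, e2⟩ | ⟨e2, d2⟩ | ⟨e2, d2⟩ <;>
  rcases FP_par w with ⟨d3, e3⟩ | ⟨e3, d3⟩ | ⟨e3, d3⟩ <;>
  first
  | (exfalso; omega)
  | exact key x y z w (by omega) (by omega)
  | exact key (-x) y z w (by omega) (by omega)
  | exact key y x z w (by omega) (by omega)
  | exact key (-y) x z w (by omega) (by omega)
  | exact key z x y w (by omega) (by omega)
  | exact key (-z) x y w (by omega) (by omega)
  | exact key w x y z (by omega) (by omega)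
  | exact key (-w) x y z (by omega) (by omega)
  | exact key x (-y) (-z) (-w) (by omega) (by omega)
  | exact key y (-x) (-z) (-w) (by omega) (by omega)
  | exact key z (-x) (-y) (-w) (by omega) (by omega)
  | exact key w (-x) (-y) (-z) (by omega) (by omega)

theorem FP_thm : SQ_FP := by
  classical
  intro p q hp hq hp4' hq4' _
  have hp4 : p % 2 = 1 := (hp.eq_two_or_odd).resolve_left hp4'
  have hq4 : q % 2 = 1 := (hq.eq_two_or_odd).resolve_left hq4'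
  set ga : SS p × SS p → GG p q := fun i =>
    if H : ∃ γ : G1 p q, ((pst p : ℤ) : ℍ[RR p q]) * ((γ : GG p q) : ℍ[RR p q]) =
      castR p q (i.1.val * i.2.val) then ((Classical.choose H : G1 p q) : GG p q) else 1 with hga
  have hgaeq : ∀ (i : SS p × SS p) (γ : G1 p q), ((pst p : ℤ) : ℍ[RR p q]) * ((γ : GG p q) : ℍ[RR p q]) =
      castR p q (i.1.val * i.2.val) → ga i = γ := by
    intro i γ hγ
    have H : ∃ γ : G1 p q, ((pst p : ℤ) : ℍ[RR p q]) * ((γ : GG p q) : ℍ[RR p q]) =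
      castR p q (i.1.val * i.2.val) := ⟨γ, hγ⟩
    simp only [hga, H, dif_pos]
    apply Subtype.ext
    refine FP_cancelZ p q (pst p) (FP_unitpst p q) _ _ ?_
    rw [hγ]
    exact Classical.choose_spec H
  refine ⟨(Finset.univ.image fun i : Fin 4 × Bool => FP_e p q i.1 i.2) ∪
    Finset.univ.image ga, ?_, fun g hg => ?_⟩
  · intro s hs
    rcases Finset.mem_union.1 hs with h1 | h1
    · obtain ⟨i, -, rfl⟩ := Finset.mem_image.1 h1
      refine ⟨0, FP_bq i.1 i.2, ?_⟩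
      simp [FP_e]
    · obtain ⟨i, -, rfl⟩ := Finset.mem_image.1 h1
      by_cases H : ∃ γ : G1 p q, ((pst p : ℤ) : ℍ[RR p q]) * ((γ : GG p q) : ℍ[RR p q]) =
          castR p q (i.1.val * i.2.val)
      · obtain ⟨γ, hγ⟩ := H
        refine ⟨1, ((eps p : ℤ) : ℍ[ℤ]) * (i.1.val * i.2.val), ?_⟩
        rw [hgaeq i γ hγ, pow_one, map_mul, ← hγ, map_intCast, ← mul_assoc, ← Int.cast_mul]
        congr 1
        have h5 : eps p * pst p = (p : ℤ) := by
          rw [pst, ← mul_assoc, eps_sq, one_mul]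
        rw [h5, Int.cast_natCast]
      · refine ⟨0, 1, ?_⟩
        have h2 : ga i = 1 := by
          simp only [hga]
          rw [dif_neg H]
        rw [h2]
        simp
  haveI := FP_ne p hp4
  set m : ℝ := (Fintype.card (SS p) : ℝ) with hm
  have hmpos : 0 < m := by
    rw [hm]; exact_mod_cast Fintype.card_pos
  set g0 : ℝ := min g (m / 2) with hg0
  have hg0pos : 0 < g0 := by positivity
  have hg0g : g0 ≤ g := min_le_left _ _
  have hg0m : g0 ≤ m / 2 := min_le_right _ _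
  set c0 : ℝ := 2 * g0 * (2 * m - g0) with hc0
  have hc0pos : 0 < c0 := by
    have : 0 < 2 * m - g0 := by linarith
    positivity
  refine ⟨1 / (8 * (m ^ 2 / c0) + 3), by positivity, ?_⟩
  intro h _ N _ Q _ _ r rQ hrange hfam hker hgap _ v hv
  set S : ℝ := ∑ s ∈ (Finset.univ.image fun i : Fin 4 × Bool => FP_e p q i.1 i.2) ∪
    Finset.univ.image ga, ∑ x, ‖v ((s : GG p q ⧸ N) * x) - v x‖ ^ 2 with hS
  have hterm : ∀ s ∈ (Finset.univ.image fun i : Fin 4 × Bool => FP_e p q i.1 i.2) ∪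
      Finset.univ.image ga, ∑ x, ‖v ((s : GG p q ⧸ N) * x) - v x‖ ^ 2 ≤ S := by
    intro s hs
    exact Finset.single_le_sum (f := fun s : GG p q =>
      ∑ x, ‖v ((s : GG p q ⧸ N) * x) - v x‖ ^ 2)
      (fun s _ => Finset.sum_nonneg fun _ _ => sq_nonneg _) hs
  have hgap0 : ∀ f : Q → ℂ, (∀ κ : ℤˣ, ∑ x, (if r.chiB x = κ then f x else 0) = 0) →
      2 * g0 * ∑ x, ‖f x‖ ^ 2 ≤ ∑ a, ∑ x, ‖f (r.al a * x) - f x‖ ^ 2 := by
    intro f h2
    have h3 := hgap f h2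
    have h4 : 0 ≤ ∑ z, ‖f z‖ ^ 2 := Finset.sum_nonneg fun _ _ => sq_nonneg _
    nlinarith
  obtain ⟨ρ, hρ⟩ := FP_rho rQ ((QuotientGroup.mk' N).comp (G1 p q).subtype) (by
    intro γ hγ
    exact (QuotientGroup.eq_one_iff _).2 (hker γ hγ))
  have hρn : ρ.range.Normal := by
    have e : ρ.range = (G1 p q).map (QuotientGroup.mk' N) := by
      ext y
      constructor
      · rintro ⟨⟨_, γ, rfl⟩, rfl⟩
        exact ⟨γ, γ.2, (hρ γ).symm⟩
      · rintro ⟨γ, hγ, rfl⟩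
        exact ⟨rQ.rangeRestrict ⟨γ, hγ⟩, hρ ⟨γ, hγ⟩⟩
    rw [e]
    exact (FP_normal p q hp.ne_zero hq.ne_zero hp4 hq4).map _
      (QuotientGroup.mk'_surjective N)
  choose γ hγ1 hγ2 using hfam
  haveI : Fintype rQ.range := Fintype.ofFinite _
  set k : SS p × SS p → rQ.range := fun i => rQ.rangeRestrict (γ i.1 i.2) with hk
  have hkρ : ∀ i, ρ (k i) = ((ga i : GG p q) : GG p q ⧸ N) := by
    intro i
    rw [hgaeq i (γ i.1 i.2) (hγ1 i.1 i.2)]
    exact hρ _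
  have hE1 := FP_transfer ρ k c0 (fun φ hφ => by
    have := FP_gapR r rQ.range hrange g0 (by linarith) hgap0 k (fun i => hγ2 i.1 i.2) φ hφ
    exact this) v
  have hE2 : ∑ i, ∑ x, ‖v (ρ (k i) * x) - v x‖ ^ 2 ≤ m ^ 2 * S := by
    have h1 : ∀ i, ∑ x, ‖v (ρ (k i) * x) - v x‖ ^ 2 ≤ S := by
      intro i
      rw [hkρ i]
      exact hterm _ (Finset.mem_union_right _ (Finset.mem_image_of_mem _ (Finset.mem_univ i)))
    refine (Finset.sum_le_sum fun i _ => h1 i).trans ?_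
    simp only [Finset.sum_const, Finset.card_univ, nsmul_eq_mul, Fintype.card_prod, Nat.cast_mul]
    rw [← hm, sq]
  have hE : ∑ x, ‖v x - FP_avg ρ v x‖ ^ 2 ≤ (m ^ 2 / c0) * S := by
    have h1 := hE1.trans hE2
    rw [div_mul_eq_mul_div, le_div_iff₀ hc0pos]
    linarith
  have hfin := FP_three ρ hρn S (m ^ 2 / c0) v hv
    {t | ∃ i s, t = ((FP_e p q i s : GG p q) : GG p q ⧸ N)} (by
      intro y
      obtain ⟨x, rfl⟩ := QuotientGroup.mk_surjective y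
      obtain ⟨i, s, γ', hx⟩ := FP_decomp p q hp.ne_zero hq.ne_zero hp4 hq4 x
      refine ⟨_, ⟨i, s, rfl⟩, rQ.rangeRestrict γ', ?_⟩
      rw [hρ, hx]
      rfl) (by
      rintro t ⟨i, s, rfl⟩
      exact hterm _ (Finset.mem_union_left _
        (Finset.mem_image_of_mem (fun i : Fin 4 × Bool => FP_e p q i.1 i.2)
          (Finset.mem_univ (i, s))))) hE
  have hpos : 0 < 8 * (m ^ 2 / c0) + 3 := by positivity
  rw [one_div, inv_mul_le_iff₀ hpos]
  exact hfin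

end TauO
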