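import Mathlib
import Pool.Agent.Work.MP_972ac7_od.Interface
import Pool.Agent.Work.MP_972ac7_tq.GN

/-!
# Block GN: from two primes to `Z[1/n]`, all odd primes
-/

open scoped Quaternion BigOperators Matrix ComplexOrder

namespace TauO

open TauQ

/-- there are letters of norm `l` -/
theorem nonempty_SS (hex : Stmt_exists) (l : ℕ) (hl : l.Prime) (hl2 : l ≠ 2) :
    Nonempty (SS l) := by
  have : Fact l.Prime := ⟨hl⟩
  obtain ⟨a, b, k, -, -, hk⟩ := Int.exists_sq_add_sq_add_one_eq_mul l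
  obtain ⟨β, -, -⟩ := hex l hl hl2 (mk4 (a : ℤ) (b : ℤ) 1 0) (by
    intro γ h
    have h1 := congrArg QuaternionAlgebra.imJ h
    rw [mk4_imJ, Quaternion.imJ_mul, Quaternion.re_natCast, Quaternion.imI_natCast,
      Quaternion.imJ_natCast, Quaternion.imK_natCast] at h1
    have h2 : (l : ℤ) ∣ 1 := ⟨γ.imJ, by linarith⟩
    have h3 : l ∣ 1 := by exact_mod_cast h2
    exact hl.one_lt.ne' (Nat.dvd_one.1 h3)) (by
    refine ⟨(k : ℤ), ?_⟩
    rw [Quaternion.normSq_def', mk4_re, mk4_imI, mk4_imJ, mk4_imK]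
    have h1 : ((a ^ 2 + b ^ 2 + 1 : ℕ) : ℤ) = ((k * l : ℕ) : ℤ) := by exact_mod_cast hk
    push_cast at h1
    linarith)
  exact ⟨β⟩

section gen

variable {R : Type} [CommRing R] (n : ℕ) [IsLocalization.Away (n : ℤ) R]

theorem GN_peel (hex : Stmt_exists) (l : ℕ) (hl : l.Prime) (hl4 : l ≠ 2) (α : ℍ[ℤ])
    (h : (l : ℤ) ∣ Quaternion.normSq α) : ∃ (b : SS l) (γ : ℍ[ℤ]), α = b.val * γ := by
  by_cases hd : ∃ δ : ℍ[ℤ], α = (l : ℍ[ℤ]) * δ
  · obtain ⟨δ, rfl⟩ := hd
    obtain ⟨b⟩ := nonempty_SS hex l hl hl4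
    refine ⟨b, star b.val * δ, ?_⟩
    rw [← mul_assoc, Quaternion.self_mul_star, b.norm]
    rfl
  · push Not at hd
    exact hex l hl hl4 α hd h

include n in
theorem GN_gen (hex : Stmt_exists) (hn4 : ∀ l : ℕ, l.Prime → l ∣ n → l ≠ 2)
    (I : Subgroup (unitary ℍ[R])) (p : ℕ) (hp : p.Prime) (hpn : p ∣ n)
    (hI : ∀ l : ℕ, l.Prime → l ∣ n → ∀ x : unitary ℍ[R], (∃ (i : ℕ) (α : ℍ[ℤ]),
      ((l ^ i : ℕ) : ℍ[R]) * (x : ℍ[R]) = GN_c R α) → x ∈ I) :
    ∀ c : ℕ, 0 < c → (∀ l : ℕ, l.Prime → l ∣ c → l ∣ n) → ∀ (α : ℍ[ℤ]),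
      Quaternion.normSq α = ((c : ℕ) : ℤ) ^ 2 → ∀ x : unitary ℍ[R],
      (c : ℍ[R]) * (x : ℍ[R]) = GN_c R α → x ∈ I := by
  intro c
  induction c using Nat.strong_induction_on with
  | _ c ih =>
    intro hc hcl α hα x hx
    by_cases hc1 : c = 1
    · subst hc1
      refine hI p hp hpn x ⟨0, α, ?_⟩
      rw [pow_zero]
      exact hx
    · obtain ⟨l, hl, hlc⟩ := Nat.exists_prime_and_dvd hc1
      obtain ⟨c', rfl⟩ := hlc
      have hln : l ∣ n := hcl l hl (dvd_mul_right _ _)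
      have hl4 := hn4 l hl hln
      have hl0 : ((l : ℕ) : ℤ) ≠ 0 := by exact_mod_cast hl.ne_zero
      have hc'0 : 0 < c' := Nat.pos_of_mul_pos_left hc
      obtain ⟨b, γ, rfl⟩ := GN_peel hex l hl hl4 α (by
        rw [hα]; push_cast; exact ⟨(l : ℤ) * (c' : ℤ) ^ 2, by ring⟩)
      have hγ : Quaternion.normSq γ = (l : ℤ) * (c' : ℤ) ^ 2 := by
        rw [map_mul, b.norm] at hα
        have : (l : ℤ) * Quaternion.normSq γ = (l : ℤ) * ((l : ℤ) * (c' : ℤ) ^ 2) := by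
          rw [hα]; push_cast; ring
        exact mul_left_cancel₀ hl0 this
      obtain ⟨b', γ', rfl⟩ := GN_peel hex l hl hl4 γ (by rw [hγ]; exact dvd_mul_right _ _)
      have hγ' : Quaternion.normSq γ' = ((c' : ℕ) : ℤ) ^ 2 := by
        rw [map_mul, b'.norm] at hγ
        exact mul_left_cancel₀ hl0 hγ
      have hlu : IsUnit (l : R) := GN_unit n l hln
      have hcu : IsUnit (c' : R) := by
        clear ih hα hx hγ hγ' hc hc1
        revert hcl hc'0
        induction c' using Nat.strong_induction_on with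
        | _ c' ih =>
          intro hcl h0
          by_cases h1 : c' = 1
          · subst h1; simp
          · obtain ⟨r, hr, hrc⟩ := Nat.exists_prime_and_dvd h1
            obtain ⟨d, rfl⟩ := hrc
            rw [Nat.cast_mul]
            have hd0 : 0 < d := Nat.pos_of_mul_pos_left h0
            refine (GN_unit n r (hcl r hr (dvd_mul_of_dvd_right (dvd_mul_right _ _) _))).mul ?_
            refine ih d ?_ ?_ hd0
            · have := hr.one_lt
              nlinarith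
            · intro s hs hsd
              refine hcl s hs ?_
              rcases (Nat.Prime.dvd_mul hs).1 hsd with h2 | h2
              · exact dvd_mul_of_dvd_left h2 _
              · exact dvd_mul_of_dvd_right (dvd_mul_of_dvd_right h2 _) _
      obtain ⟨g1, hg1⟩ := GN_mk (R := R) l hlu (b.val * b'.val) (by
        rw [map_mul, b.norm, b'.norm]; ring)
      obtain ⟨g2, hg2⟩ := GN_mk (R := R) c' hcu γ' hγ'
      have hx12 : x = g1 * g2 := by
        apply Subtype.ext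
        refine GN_cancel (l * c') (by rw [Nat.cast_mul]; exact hlu.mul hcu) _ _ ?_
        rw [hx, ← mul_assoc, map_mul, ← hg1, ← hg2, Submonoid.coe_mul, Nat.cast_mul]
        have hcm : (c' : ℍ[R]) * (g1 : ℍ[R]) = (g1 : ℍ[R]) * (c' : ℍ[R]) :=
          (Nat.cast_commute c' (g1 : ℍ[R])).eq
        calc (l : ℍ[R]) * (g1 : ℍ[R]) * ((c' : ℍ[R]) * (g2 : ℍ[R]))
            = (l : ℍ[R]) * ((g1 : ℍ[R]) * (c' : ℍ[R])) * (g2 : ℍ[R]) := by
              simp only [mul_assoc]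
          _ = (l : ℍ[R]) * ((c' : ℍ[R]) * (g1 : ℍ[R])) * (g2 : ℍ[R]) := by rw [hcm]
          _ = _ := by simp only [mul_assoc]
      rw [hx12]
      refine I.mul_mem ?_ ?_
      · exact hI l hl hln g1 ⟨1, b.val * b'.val, by rw [pow_one]; exact hg1⟩
      · refine ih c' ?_ hc'0 ?_ γ' hγ' g2 hg2
        · have := hl.one_lt
          nlinarith
        · intro s hs hsc
          exact hcl s hs (dvd_mul_of_dvd_right hsc _)

end gen

section main

theorem GN_thm (hex : Stmt_exists) (hTP : SQ_TP) : SQ_GN := by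
  classical
  intro n hn4 hpq R _ _
  obtain ⟨p, q, hp, hq, hne, hpn, hqn⟩ := hpq
  have hn0 : n ≠ 0 := by
    rintro rfl
    exact hn4 2 Nat.prime_two (dvd_zero 2) rfl
  have hinj : Function.Injective (Int.castRingHom R) := GN_inj n hn0
  -- the maps
  have hf : ∀ l r : ℕ, l ∣ n → r ∣ n → ∃ f : RR l r →+* R, True := by
    intro l r hl hr
    refine ⟨IsLocalization.Away.lift (S := RR l r) (((l * r : ℕ) : ℤ)) (g := Int.castRingHom R) ?_,
      trivial⟩
    rw [map_natCast, Nat.cast_mul]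
    exact (GN_unit n l hl).mul (GN_unit n r hr)
  obtain ⟨f, -⟩ := hf p q hpn hqn
  obtain ⟨QQ, c, hc, hden, hgap⟩ := hTP p q hp hq (hn4 p hp hpn) (hn4 q hq hqn) hne
  refine ⟨QQ.image (GN_J f), c / (QQ.card + 1), by positivity, ?_⟩
  intro M hM hMf _ v hv
  obtain ⟨w, hw1, hw2, hw3⟩ := GN_transfer (GN_J f) QQ c M hgap v
  -- `w` is constant
  let I : Subgroup (unitary ℍ[R]) :=
    { carrier := {x | ∀ y : unitary ℍ[R] ⧸ M, w ((x : unitary ℍ[R] ⧸ M) * y) = w y}
      one_mem' := by intro y; simp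
      mul_mem' := by
        intro a b ha hb y
        have h1 : (((a * b : unitary ℍ[R]) : unitary ℍ[R] ⧸ M)) * y =
          (a : unitary ℍ[R] ⧸ M) * ((b : unitary ℍ[R] ⧸ M) * y) := by
          rw [QuotientGroup.mk_mul, mul_assoc]
        rw [h1]
        exact (ha _).trans (hb _)
      inv_mem' := by
        intro a ha y
        have h1 := ha ((a⁻¹ : unitary ℍ[R]) * y)
        rw [QuotientGroup.mk_inv] at *
        rw [mul_inv_cancel_left] at h1
        exact h1.symm }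
  have hIp : ∀ x : unitary ℍ[R], (∃ (i : ℕ) (α : ℍ[ℤ]),
      ((p ^ i : ℕ) : ℍ[R]) * (x : ℍ[R]) = GN_c R α) → x ∈ I := by
    rintro x ⟨i, α, h⟩
    obtain ⟨s, -, rfl⟩ := GN_lift f hinj p (dvd_mul_right p q) (GN_unit n p hpn) x i α h
    intro y
    exact hw1 s y
  have hI : ∀ l : ℕ, l.Prime → l ∣ n → ∀ x : unitary ℍ[R], (∃ (i : ℕ) (α : ℍ[ℤ]),
      ((l ^ i : ℕ) : ℍ[R]) * (x : ℍ[R]) = GN_c R α) → x ∈ I := by
    intro l hl hln x hx
    by_cases hlp : l = p
    · subst hlp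
      exact hIp x hx
    obtain ⟨f', -⟩ := hf p l hpn hln
    obtain ⟨QQ', c', hc', hden', hgap'⟩ := hTP p l hp hl (hn4 p hp hpn) (hn4 l hl hln)
      (Ne.symm hlp)
    obtain ⟨w', hw1', -, hw3'⟩ := GN_transfer (GN_J f') QQ' c' M hgap' w
    have h1 : ∑ s ∈ QQ', ∑ x, ‖w ((GN_J f' s : unitary ℍ[R] ⧸ M) * x) - w x‖ ^ 2 = 0 := by
      refine Finset.sum_eq_zero fun s hs => Finset.sum_eq_zero fun y _ => ?_
      obtain ⟨i, α, h⟩ := hden' s hs
      have h2 : GN_J f' s ∈ I := hIp _ ⟨i, α, GN_J_den f' (p ^ i) s α h⟩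
      rw [h2 y, sub_self]
      simp
    rw [h1] at hw3'
    have h2 : ∑ x, ‖w x - w' x‖ ^ 2 = 0 := by
      have h3 : 0 ≤ ∑ x, ‖w x - w' x‖ ^ 2 := Finset.sum_nonneg fun _ _ => sq_nonneg _
      nlinarith
    have h3 : ∀ x, w x = w' x := by
      intro x
      have h4 := (Finset.sum_eq_zero_iff_of_nonneg (fun x _ => sq_nonneg _)).1 h2 x
        (Finset.mem_univ x)
      have h5 : ‖w x - w' x‖ = 0 := by
        simpa using h4
      exact sub_eq_zero.1 (norm_eq_zero.1 h5)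
    obtain ⟨i, α, h⟩ := hx
    obtain ⟨s, -, rfl⟩ := GN_lift f' hinj l (dvd_mul_left l p) (GN_unit n l hln) x i α h
    intro y
    rw [h3, h3]
    exact hw1' s y
  have hall : ∀ x : unitary ℍ[R], x ∈ I := by
    intro x
    obtain ⟨K, α, h⟩ := GN_denom n (x : ℍ[R])
    refine GN_gen n hex hn4 I p hp hpn hI (n ^ K) (by positivity) ?_ α
      (GN_norm hinj (n ^ K) α x h) x h
    intro l hl hlK
    exact hl.dvd_of_dvd_pow hlK
  have hconst : ∀ x, w x = w 1 := by
    intro x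
    obtain ⟨g, rfl⟩ := QuotientGroup.mk_surjective x
    have := hall g 1
    rwa [mul_one] at this
  have hw0 : ∀ x, w x = 0 := by
    have h1 := hw2 hv
    rw [Finset.sum_congr rfl fun x _ => hconst x, Finset.sum_const, nsmul_eq_mul] at h1
    have h2 : ((Finset.univ : Finset (unitary ℍ[R] ⧸ M)).card : ℂ) ≠ 0 := by
      rw [Finset.card_univ]
      exact_mod_cast Fintype.card_ne_zero
    intro x
    rw [hconst x]
    exact (mul_eq_zero.1 h1).resolve_left h2
  simp only [hw0, sub_zero] at hw3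
  set S : ℝ := ∑ s ∈ QQ.image (GN_J f), ∑ x, ‖v ((s : unitary ℍ[R] ⧸ M) * x) - v x‖ ^ 2 with hS
  have hS0 : 0 ≤ S := Finset.sum_nonneg fun _ _ => Finset.sum_nonneg fun _ _ => sq_nonneg _
  have h1 : ∑ s ∈ QQ, ∑ x, ‖v ((GN_J f s : unitary ℍ[R] ⧸ M) * x) - v x‖ ^ 2 ≤
      ∑ s ∈ QQ, S := by
    refine Finset.sum_le_sum fun s hs => ?_
    exact Finset.single_le_sum (f := fun s : unitary ℍ[R] =>
      ∑ x, ‖v ((s : unitary ℍ[R] ⧸ M) * x) - v x‖ ^ 2)
      (fun s _ => Finset.sum_nonneg fun _ _ => sq_nonneg _) (Finset.mem_image_of_mem _ hs)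
  rw [Finset.sum_const, nsmul_eq_mul] at h1
  rw [div_mul_eq_mul_div, div_le_iff₀ (by positivity)]
  calc c * ∑ x, ‖v x‖ ^ 2 ≤ QQ.card * S := hw3.trans h1
    _ ≤ S * (QQ.card + 1) := by nlinarith

end main

end TauO
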