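import Mathlib
import Pool.Agent.Work.MP_972ac7_od.Interface
import Pool.Agent.Work.MP_972ac7_al_tau.hat

/-!
# Block HT: the group generated by the quaternions of norms `p` and `q`, all odd primes
-/

set_option autoImplicit false

open scoped Quaternion BigOperators

namespace TauO

open TauQ

section hatBasic

variable {p q : ℕ}

lemma hat_int (n : ℤ) : ((n : ℤ) : ℍ[RR p q]) = algebraMap (RR p q) ℍ[RR p q] (n : RR p q) := by
  rw [map_intCast]

lemma hat_unit_pst_p (p q : ℕ) : IsUnit (((pst p : ℤ) : RR p q)) := by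
  have h1 : ((pst p : ℤ) : RR p q) * ((pst p : ℤ) : RR p q) = (p : RR p q) * (p : RR p q) := by
    rw [← Int.cast_mul, pst_sq]
    push_cast
    ring
  refine isUnit_of_mul_isUnit_left (y := ((pst p : ℤ) : RR p q)) ?_
  rw [h1]
  exact (hat_unit_p p q).mul (hat_unit_p p q)

lemma hat_unit_pst_q (p q : ℕ) : IsUnit (((pst q : ℤ) : RR p q)) := by
  have h1 : ((pst q : ℤ) : RR p q) * ((pst q : ℤ) : RR p q) = (q : RR p q) * (q : RR p q) := by
    rw [← Int.cast_mul, pst_sq]
    push_cast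
    ring
  refine isUnit_of_mul_isUnit_left (y := ((pst q : ℤ) : RR p q)) ?_
  rw [h1]
  exact (hat_unit_q p q).mul (hat_unit_q p q)

/-- the signed prime `p` as a unit -/
noncomputable def hat_pst (p q : ℕ) : (RR p q)ˣ := (hat_unit_pst_p p q).unit

/-- the signed prime `q` as a unit -/
noncomputable def hat_qst (p q : ℕ) : (RR p q)ˣ := (hat_unit_pst_q p q).unit

lemma hat_pst_val : ((hat_pst p q : (RR p q)ˣ) : RR p q) = ((pst p : ℤ) : RR p q) := rfl
lemma hat_qst_val : ((hat_qst p q : (RR p q)ˣ) : RR p q) = ((pst q : ℤ) : RR p q) := rfl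

/-- the denominator as a unit -/
noncomputable def hat_den (p q : ℕ) (i j : ℕ) : (RR p q)ˣ := hat_pst p q ^ i * hat_qst p q ^ j

lemma hat_den_val (i j : ℕ) : ((hat_den p q i j : (RR p q)ˣ) : RR p q) =
    ((den p q i j : ℤ) : RR p q) := by
  rw [hat_den, Units.val_mul, Units.val_pow_eq_pow_val, Units.val_pow_eq_pow_val, hat_pst_val,
    hat_qst_val, den]
  push_cast
  ring

lemma hat_den_sq (p q i j : ℕ) : den p q i j * den p q i j =
    ((p ^ (2 * i) * q ^ (2 * j) : ℕ) : ℤ) := by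
  unfold den
  calc pst p ^ i * pst q ^ j * (pst p ^ i * pst q ^ j)
      = (pst p * pst p) ^ i * (pst q * pst q) ^ j := by ring
    _ = ((p ^ (2 * i) * q ^ (2 * j) : ℕ) : ℤ) := by
        rw [pst_sq, pst_sq]
        push_cast
        ring

lemma hat_pst_mod {r : ℕ} (h : r % 4 = 1 ∨ r % 4 = 3) : pst r % 4 = 1 := by
  unfold pst
  rcases h with h | h
  · rw [eps_one h]
    omega
  · rw [eps_three h]
    omega

lemma hat_mod {r : ℕ} (hr : r.Prime) (h2 : r ≠ 2) : r % 4 = 1 ∨ r % 4 = 3 := by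
  obtain ⟨k, hk⟩ := hr.odd_of_ne_two h2
  omega

lemma hat_cl_neg {α : ℍ[ℤ]} {a b : ℕ} (h : hat_N p q α a b) (h' : hat_N p q (-α) a b) :
    hat_cl p q (hat_U (-α) a b h') = hat_cl p q (hat_U α a b h) := by
  apply hat_cl_eq _ _ (-1)
  rw [hat_U_val, hat_U_val]
  simp

/-- the class of `eps r * α` is that of `α` -/
lemma hat_cl_eps (r : ℕ) {α β : ℍ[ℤ]} {a b a' b' : ℕ} (h : hat_N p q α a b)
    (h' : hat_N p q β a' b') (he : β = ((eps r : ℤ) : ℍ[ℤ]) * α) :
    hat_cl p q (hat_U β a' b' h') = hat_cl p q (hat_U α a b h) := by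
  unfold eps at he
  split_ifs at he
  · rw [hat_U_congr h' h (by rw [he]; simp)]
  · apply hat_cl_eq _ _ (-1)
    rw [hat_U_val, hat_U_val, he]
    simp

end hatBasic

section hatGroup

variable {p q : ℕ}

/-- the letters of norm `p` -/
noncomputable def hat_A (a : SS p) : (ℍ[RR p q])ˣ := hat_U a.val 1 0 (by
  rw [hat_N, a.norm]; simp)

/-- the letters of norm `q` -/
noncomputable def hat_B (b : SS q) : (ℍ[RR p q])ˣ := hat_U b.val 0 1 (by
  rw [hat_N, b.norm]; simp)

lemma hat_A_val (a : SS p) : ((hat_A a : (ℍ[RR p q])ˣ) : ℍ[RR p q]) = castR p q a.val := rfl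
lemma hat_B_val (b : SS q) : ((hat_B b : (ℍ[RR p q])ˣ) : ℍ[RR p q]) = castR p q b.val := rfl

/-- the group generated by the letters modulo scalars -/
noncomputable def hat_G (p q : ℕ) : Subgroup ((ℍ[RR p q])ˣ ⧸ hat_Z p q) :=
  Subgroup.closure (Set.range (fun a : SS p => hat_cl p q (hat_A a)) ∪
    Set.range (fun b : SS q => hat_cl p q (hat_B b)))

lemma hat_rep {x : (ℍ[RR p q])ˣ ⧸ hat_Z p q} (hx : x ∈ hat_G p q) :
    ∃ (α : ℍ[ℤ]) (a b : ℕ) (h : hat_N p q α a b), α ∈ OO ∧ x = hat_cl p q (hat_U α a b h) := by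
  induction hx using Subgroup.closure_induction with
  | mem x hx =>
    rcases hx with ⟨a, rfl⟩ | ⟨b, rfl⟩
    · exact ⟨a.val, 1, 0, _, a.mem, rfl⟩
    · exact ⟨b.val, 0, 1, _, b.mem, rfl⟩
  | one =>
    refine ⟨1, 0, 0, hat_N_one, OO.one_mem, ?_⟩
    have : hat_U (p := p) (q := q) 1 0 0 hat_N_one = 1 := by
      apply Units.ext; simp
    rw [this, map_one]
  | mul x y _ _ hx hy =>
    obtain ⟨α, a, b, h, hα, rfl⟩ := hx
    obtain ⟨β, a', b', h', hβ, rfl⟩ := hy
    exact ⟨α * β, a + a', b + b', hat_N_mul h h', OO.mul_mem hα hβ, by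
      rw [← map_mul, hat_U_mul]⟩
  | inv x _ hx =>
    obtain ⟨α, a, b, h, hα, rfl⟩ := hx
    rcases norm_odd hα with hn | hn
    · exact ⟨star α, a, b, hat_N_star h, old_le (TauQ.OO_star (old_of_norm hα hn)),
        (hat_cl_star h).symm⟩
    · have hneg : hat_N p q (-star α) a b := by
        have h1 := hat_N_star h
        rw [hat_N] at h1 ⊢
        rw [Quaternion.normSq_neg, h1]
      refine ⟨-star α, a, b, hneg, ?_, ?_⟩
      · obtain ⟨h0, h1, h2, h3, h4⟩ := new_of_norm hα hn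
        right
        simp only [Quaternion.re_neg, Quaternion.imI_neg, Quaternion.imJ_neg, Quaternion.imK_neg,
          Quaternion.re_star, Quaternion.imI_star, Quaternion.imJ_star, Quaternion.imK_star, neg_neg]
        exact ⟨by omega, h1, h2, h3, h4⟩
      · rw [hat_cl_neg (hat_N_star h) hneg]
        exact (hat_cl_star h).symm

end hatGroup

section hatFact

lemma hat_OO_of_mul {r : ℕ} (hr : r % 4 = 1 ∨ r % 4 = 3) {α γ : ℍ[ℤ]} (hα : α ∈ OO)
    (h : α = ((pst r : ℤ) : ℍ[ℤ]) * γ) : γ ∈ OO := by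
  have e : α = (pst r : ℤ) • γ := by
    rw [h]
    ext <;> simp
  have e0 : α.re = pst r * γ.re := by rw [e]; simp
  have e1 : α.imI = pst r * γ.imI := by rw [e]; simp
  have e2 : α.imJ = pst r * γ.imJ := by rw [e]; simp
  have e3 : α.imK = pst r * γ.imK := by rw [e]; simp
  obtain ⟨t, ht⟩ : ∃ t, pst r = 4 * t + 1 := ⟨pst r / 4, by have := hat_pst_mod hr; omega⟩
  rw [ht] at e0 e1 e2 e3
  have f0 : α.re = 4 * (t * γ.re) + γ.re := by rw [e0]; ring
  have f1 : α.imI = 4 * (t * γ.imI) + γ.imI := by rw [e1]; ring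
  have f2 : α.imJ = 4 * (t * γ.imJ) + γ.imJ := by rw [e2]; ring
  have f3 : α.imK = 4 * (t * γ.imK) + γ.imK := by rw [e3]; ring
  rcases hα with ⟨h0, h1, h2, h3⟩ | ⟨h0, h1, h2, h3, h4⟩
  · left
    refine ⟨by omega, by omega, by omega, by omega⟩
  · right
    refine ⟨by omega, by omega, by omega, by omega, by omega⟩

lemma hat_OO_of_letter {r : ℕ} {α γ : ℍ[ℤ]} (hα : α ∈ OO) (β : SS r)
    (h : α = β.val * γ) : γ ∈ OO := by
  apply hat_OO_of_mul (α := β.inv.val * α) β.mod (OO.mul_mem β.inv.mem hα)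
  rw [h, ← mul_assoc, SS.inv_mul]

variable {p q : ℕ}

lemma hat_mem (hE : Stmt_exists) (hp : p.Prime) (hq : q.Prime) (hp4 : p ≠ 2)
    (hq4 : q ≠ 2) (hpq : p ≠ q) :
    ∀ (n a b : ℕ), a + b = n → ∀ (α : ℍ[ℤ]) (h : hat_N p q α a b), α ∈ OO →
      hat_cl p q (hat_U α a b h) ∈ hat_G p q := by
  intro n
  induction n using Nat.strong_induction_on with
  | _ n ih =>
    intro a b hab α h hα
    rcases Nat.eq_zero_or_pos a with ha | ha
    · rcases Nat.eq_zero_or_pos b with hb | hb
      · subst ha; subst hb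
        have h0 : Quaternion.normSq α = 1 := by rw [hat_N] at h; simpa using h
        have h1 : α = 1 := hat_eq_one (old_of_norm hα (by rw [h0]; norm_num)) h0
        have h2 : hat_U α 0 0 h = 1 := by apply Units.ext; simp [h1]
        rw [h2, map_one]
        exact Subgroup.one_mem _
      · -- a letter of norm `q`
        obtain ⟨b', rfl⟩ : ∃ k, b = k + 1 := ⟨b - 1, by omega⟩
        subst ha
        have hdvd : (q : ℤ) ∣ Quaternion.normSq α := by
          rw [h]; push_cast
          exact ⟨(p : ℤ) ^ 0 * (q : ℤ) ^ b', by ring⟩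
        have hq0 : (q : ℤ) ≠ 0 := by exact_mod_cast hq.ne_zero
        by_cases hd : ∃ γ : ℍ[ℤ], α = (q : ℍ[ℤ]) * γ
        · obtain ⟨γ, hγ⟩ := hd
          have hn : (q : ℤ) ^ 2 * Quaternion.normSq γ = ((p ^ 0 * q ^ (b' + 1) : ℕ) : ℤ) := by
            rw [← hat_normSq_natMul, ← hγ]; exact h
          have hb1 : b' ≠ 0 := by
            rintro rfl
            have h1 : (q : ℤ) * ((q : ℤ) * Quaternion.normSq γ) = q * 1 := by
              push_cast at hn; linarith
            have h2 := mul_left_cancel₀ hq0 h1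
            have h3 : (q : ℤ) ∣ 1 := ⟨_, h2.symm⟩
            have h4 : q ∣ 1 := by exact_mod_cast h3
            exact hq.one_lt.ne' (Nat.dvd_one.1 h4)
          obtain ⟨b'', rfl⟩ : ∃ k, b' = k + 1 := ⟨b' - 1, by omega⟩
          have hN : hat_N p q γ 0 b'' := by
            rw [hat_N]
            apply mul_left_cancel₀ (pow_ne_zero 2 hq0)
            rw [hn]; push_cast; ring
          have hN2 : hat_N p q (((eps q : ℤ) : ℍ[ℤ]) * γ) 0 b'' := by
            rw [hat_N, map_mul, normSq_eps, one_mul]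
            exact hN
          have hγ2 : α = ((pst q : ℤ) : ℍ[ℤ]) * (((eps q : ℤ) : ℍ[ℤ]) * γ) := by
            rw [← mul_assoc, ← Int.cast_mul]
            have e1 : pst q * eps q = q := by
              unfold pst
              linear_combination (q : ℤ) * eps_sq q
            rw [e1, hγ, Int.cast_natCast]
          have hmem := ih (0 + b'') (by omega) 0 b'' rfl _ hN2
            (hat_OO_of_mul (hat_mod hq hq4) hα hγ2)
          rw [hat_cl_eq (hat_U α 0 (b'' + 1 + 1) h) (hat_U _ 0 b'' hN2) (hat_qst p q)]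
          · exact hmem
          · rw [hat_U_val, hat_U_val, hat_qst_val, ← hat_int]
            conv_lhs => rw [hγ2]
            rw [map_mul, map_intCast]
        · push Not at hd
          obtain ⟨β, γ, hγ⟩ := hE q hq hq4 α hd hdvd
          have hN : hat_N p q γ 0 b' := by
            rw [hat_N]
            apply mul_left_cancel₀ hq0
            have : (q : ℤ) * Quaternion.normSq γ = Quaternion.normSq α := by
              rw [hγ, map_mul, β.norm]
            rw [this, h]; push_cast; ring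
          have hmem := ih (0 + b') (by omega) 0 b' rfl γ hN (hat_OO_of_letter hα β hγ)
          have e : hat_U α 0 (b' + 1) h = hat_B β * hat_U γ 0 b' hN := by
            apply Units.ext
            rw [Units.val_mul, hat_B_val, hat_U_val, hat_U_val, hγ, map_mul]
          rw [e, map_mul]
          exact Subgroup.mul_mem _ (Subgroup.subset_closure (Or.inr ⟨β, rfl⟩)) hmem
    · -- a letter of norm `p`
      obtain ⟨a', rfl⟩ : ∃ k, a = k + 1 := ⟨a - 1, by omega⟩
      have hdvd : (p : ℤ) ∣ Quaternion.normSq α := by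
        rw [h]; push_cast
        exact ⟨(p : ℤ) ^ a' * (q : ℤ) ^ b, by ring⟩
      have hp0 : (p : ℤ) ≠ 0 := by exact_mod_cast hp.ne_zero
      by_cases hd : ∃ γ : ℍ[ℤ], α = (p : ℍ[ℤ]) * γ
      · obtain ⟨γ, hγ⟩ := hd
        have hn : (p : ℤ) ^ 2 * Quaternion.normSq γ = ((p ^ (a' + 1) * q ^ b : ℕ) : ℤ) := by
          rw [← hat_normSq_natMul, ← hγ]; exact h
        have ha1 : a' ≠ 0 := by
          rintro rfl
          have h1 : (p : ℤ) * ((p : ℤ) * Quaternion.normSq γ) = p * (q : ℤ) ^ b := by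
            push_cast at hn; linarith
          have h2 := mul_left_cancel₀ hp0 h1
          have h3 : (p : ℤ) ∣ (q : ℤ) ^ b := ⟨_, h2.symm⟩
          have h4 : p ∣ q ^ b := by exact_mod_cast h3
          exact hpq ((Nat.prime_dvd_prime_iff_eq hp hq).1 (hp.dvd_of_dvd_pow h4))
        obtain ⟨a'', rfl⟩ : ∃ k, a' = k + 1 := ⟨a' - 1, by omega⟩
        have hN : hat_N p q γ a'' b := by
          rw [hat_N]
          apply mul_left_cancel₀ (pow_ne_zero 2 hp0)
          rw [hn]; push_cast; ring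
        have hN2 : hat_N p q (((eps p : ℤ) : ℍ[ℤ]) * γ) a'' b := by
          rw [hat_N, map_mul, normSq_eps, one_mul]
          exact hN
        have hγ2 : α = ((pst p : ℤ) : ℍ[ℤ]) * (((eps p : ℤ) : ℍ[ℤ]) * γ) := by
          rw [← mul_assoc, ← Int.cast_mul]
          have e1 : pst p * eps p = p := by
            unfold pst
            linear_combination (p : ℤ) * eps_sq p
          rw [e1, hγ, Int.cast_natCast]
        have hmem := ih (a'' + b) (by omega) a'' b rfl _ hN2
          (hat_OO_of_mul (hat_mod hp hp4) hα hγ2)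
        rw [hat_cl_eq (hat_U α (a'' + 1 + 1) b h) (hat_U _ a'' b hN2) (hat_pst p q)]
        · exact hmem
        · rw [hat_U_val, hat_U_val, hat_pst_val, ← hat_int]
          conv_lhs => rw [hγ2]
          rw [map_mul, map_intCast]
      · push Not at hd
        obtain ⟨β, γ, hγ⟩ := hE p hp hp4 α hd hdvd
        have hN : hat_N p q γ a' b := by
          rw [hat_N]
          apply mul_left_cancel₀ hp0
          have : (p : ℤ) * Quaternion.normSq γ = Quaternion.normSq α := by
            rw [hγ, map_mul, β.norm]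
          rw [this, h]; push_cast; ring
        have hmem := ih (a' + b) (by omega) a' b rfl γ hN (hat_OO_of_letter hα β hγ)
        have e : hat_U α (a' + 1) b h = hat_A β * hat_U γ a' b hN := by
          apply Units.ext
          rw [Units.val_mul, hat_A_val, hat_U_val, hat_U_val, hγ, map_mul]
        rw [e, map_mul]
        exact Subgroup.mul_mem _ (Subgroup.subset_closure (Or.inl ⟨β, rfl⟩)) hmem

end hatFact

section hatMain

variable {p q : ℕ}

lemma hat_mk (α : ℍ[ℤ]) (i j : ℕ) (hα : α ∈ TauQ.OO) (h : hat_N p q α (2 * i) (2 * j)) :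
    ∃ γ : G1 p q, ((den p q i j : ℤ) : ℍ[RR p q]) * ((γ : GG p q) : ℍ[RR p q]) =
      castR p q α := by
  have hs : algebraMap (RR p q) ℍ[RR p q] ((den p q i j : ℤ) : RR p q) *
      (algebraMap (RR p q) ℍ[RR p q] ((hat_den p q i j)⁻¹ : (RR p q)ˣ) * castR p q α) =
      castR p q α := by
    rw [← mul_assoc, ← map_mul, ← hat_den_val, Units.mul_inv, map_one, one_mul]
  have hu : (algebraMap (RR p q) ℍ[RR p q] ((hat_den p q i j)⁻¹ : (RR p q)ˣ) * castR p q α) ∈
      unitary ℍ[RR p q] := by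
    rw [mem_unitary_iff, map_mul, hat_normSq_castR, h]
    have e : Quaternion.normSq (algebraMap (RR p q) ℍ[RR p q] ((hat_den p q i j)⁻¹ : (RR p q)ˣ)) =
        (((hat_den p q i j)⁻¹ : (RR p q)ˣ) : RR p q) ^ 2 := by
      simp [Quaternion.normSq_def']
    have e2 : (((p ^ (2 * i) * q ^ (2 * j) : ℕ) : ℤ) : RR p q) =
        (((hat_den p q i j) : (RR p q)ˣ) : RR p q) ^ 2 := by
      rw [hat_den_val, ← hat_den_sq]
      push_cast
      ring
    rw [e, e2, ← mul_pow, Units.inv_mul, one_pow]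
  rw [← hat_int] at hs
  exact ⟨⟨⟨_, hu⟩, ⟨i, j, α, hα, hs⟩⟩, hs⟩

lemma hat_G1_N (hp : p.Prime) (hq : q.Prime) (γ : GG p q) (i j : ℕ) (α : ℍ[ℤ])
    (h : ((den p q i j : ℤ) : ℍ[RR p q]) * (γ : ℍ[RR p q]) = castR p q α) :
    hat_N p q α (2 * i) (2 * j) := by
  rw [hat_N]
  apply hat_cast_inj hp hq
  rw [← hat_normSq_castR, ← h, map_mul, (mem_unitary_iff _).1 γ.2, mul_one,
    Quaternion.normSq_intCast, ← hat_den_sq]
  push_cast
  ring

lemma hat_G1_cl (γ : GG p q) (i j : ℕ) (α : ℍ[ℤ])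
    (h : ((den p q i j : ℤ) : ℍ[RR p q]) * (γ : ℍ[RR p q]) = castR p q α)
    (hN : hat_N p q α (2 * i) (2 * j)) :
    hat_cl p q (Unitary.toUnits γ) = hat_cl p q (hat_U α (2 * i) (2 * j) hN) := by
  symm
  apply hat_cl_eq _ _ (hat_den p q i j)
  rw [hat_U_val, ← h, hat_int, hat_den_val]
  rfl

/-- the representation -/
noncomputable def hat_rep0 (hp : p.Prime) (hq : q.Prime) (hpq : p ≠ q)
    (h : VH (SS p) (SS q)) (hh : IsQVH h) : Rep h ↥(hat_G p q) where
  al a := ⟨hat_cl p q (hat_A a), Subgroup.subset_closure (Or.inl ⟨a, rfl⟩)⟩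
  be b := ⟨hat_cl p q (hat_B b), Subgroup.subset_closure (Or.inr ⟨b, rfl⟩)⟩
  al_inv a := by
    apply Subtype.ext
    rw [Subgroup.coe_inv]
    show hat_cl p q (hat_A (h.invA a)) = (hat_cl p q (hat_A a))⁻¹
    rw [hat_A, hat_A, ← hat_cl_star]
    exact hat_cl_eps p _ _ (by rw [hh.1 a]; exact SS.inv_val a)
  be_inv b := by
    apply Subtype.ext
    rw [Subgroup.coe_inv]
    show hat_cl p q (hat_B (h.invB b)) = (hat_cl p q (hat_B b))⁻¹
    rw [hat_B, hat_B, ← hat_cl_star]
    exact hat_cl_eps q _ _ (by rw [hh.2.1 b]; exact SS.inv_val b)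
  comm a b := by
    apply Subtype.ext
    rw [Subgroup.coe_mul, Subgroup.coe_mul]
    show hat_cl p q (hat_A a) * hat_cl p q (hat_B b) =
      hat_cl p q (hat_B (h.vh (a, b)).1) * hat_cl p q (hat_A (h.vh (a, b)).2)
    rw [← map_mul, ← map_mul]
    congr 1
    apply Units.ext
    rw [Units.val_mul, Units.val_mul, hat_A_val, hat_B_val, hat_A_val, hat_B_val, ← map_mul,
      ← map_mul, hh.2.2 a b]
  chiA := (hat_chi hp hq p hp).comp (hat_G p q).subtype
  chiB := (hat_chi hp hq q hq).comp (hat_G p q).subtype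
  chiA_al a := by
    show hat_chi hp hq p hp (hat_cl p q (hat_A a)) = -1
    rw [hat_A, hat_chi_p hp hq hpq, pow_one]
  chiA_be b := by
    show hat_chi hp hq p hp (hat_cl p q (hat_B b)) = 1
    rw [hat_B, hat_chi_p hp hq hpq, pow_zero]
  chiB_al a := by
    show hat_chi hp hq q hq (hat_cl p q (hat_A a)) = 1
    rw [hat_A, hat_chi_q hp hq hpq, pow_zero]
  chiB_be b := by
    show hat_chi hp hq q hq (hat_cl p q (hat_B b)) = -1
    rw [hat_B, hat_chi_q hp hq hpq, pow_one]
  gen := by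
    have h1 := Subgroup.closure_closure_coe_preimage
      (k := (Set.range (fun a : SS p => hat_cl p q (hat_A a)) ∪
        Set.range (fun b : SS q => hat_cl p q (hat_B b))))
    rw [eq_top_iff]
    refine le_trans h1.ge (Subgroup.closure_mono ?_)
    rintro ⟨x, hx⟩ (⟨a, ha⟩ | ⟨b, hb⟩)
    · exact Or.inl ⟨a, Subtype.ext ha⟩
    · exact Or.inr ⟨b, Subtype.ext hb⟩

/-- the embedding -/
noncomputable def hat_iota (hE : Stmt_exists) (hp : p.Prime) (hq : q.Prime) (hp4 : p ≠ 2)
    (hq4 : q ≠ 2) (hpq : p ≠ q) : G1 p q →* ↥(hat_G p q) :=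
  ((hat_cl p q).comp ((Unitary.toUnits).comp (G1 p q).subtype)).codRestrict (hat_G p q) (by
    rintro ⟨γ, i, j, α, hα, h⟩
    have hN := hat_G1_N hp hq γ i j α h
    show hat_cl p q (Unitary.toUnits γ) ∈ hat_G p q
    rw [hat_G1_cl γ i j α h hN]
    exact hat_mem hE hp hq hp4 hq4 hpq _ _ _ rfl α hN (old_le hα))

lemma hat_iota_val (hE : Stmt_exists) (hp : p.Prime) (hq : q.Prime) (hp4 : p ≠ 2)
    (hq4 : q ≠ 2) (hpq : p ≠ q) (γ : G1 p q) :
    ((hat_iota hE hp hq hp4 hq4 hpq γ : ↥(hat_G p q)) : (ℍ[RR p q])ˣ ⧸ hat_Z p q) =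
      hat_cl p q (Unitary.toUnits (γ : GG p q)) := rfl

lemma hat_inj (hp : p.Prime) (hq : q.Prime) (hp4 : p ≠ 2) (hq4 : q ≠ 2) (γ : G1 p q)
    (h : hat_cl p q (Unitary.toUnits (γ : GG p q)) = 1) : γ = 1 := by
  rw [hat_cl_one_iff] at h
  obtain ⟨c, hc⟩ := h
  have hc' : ((γ : GG p q) : ℍ[RR p q]) = algebraMap (RR p q) ℍ[RR p q] (c : RR p q) := hc
  obtain ⟨i, j, α, hα, hγ⟩ := γ.2
  have h1 : (c : RR p q) ^ 2 = 1 := by
    have := (mem_unitary_iff _).1 (γ : GG p q).2
    rw [hc'] at this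
    simpa [Quaternion.normSq_def'] using this
  have h2 : (hat_phi p q hp hq (c : RR p q) - 1) * (hat_phi p q hp hq (c : RR p q) + 1) = 0 := by
    have h3 := congrArg (hat_phi p q hp hq) h1
    rw [map_pow, map_one] at h3
    linear_combination h3
  have h4 : (((den p q i j : ℤ)) : RR p q) * (c : RR p q) = ((α.re : ℤ) : RR p q) := by
    have h5 := congrArg (fun x : ℍ[RR p q] => x.re) hγ
    simp only [hc'] at h5
    rw [hat_castR_re] at h5
    rw [← h5, hat_int, ← map_mul]
    rfl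
  have hn4 : (den p q i j) % 4 = 1 := by
    have h1 := hat_pst_mod (hat_mod hp hp4)
    have h2 := hat_pst_mod (hat_mod hq hq4)
    have h3 : den p q i j ≡ 1 [ZMOD 4] := by
      unfold den
      have a1 : pst p ≡ 1 [ZMOD 4] := h1
      have a2 : pst q ≡ 1 [ZMOD 4] := h2
      simpa using (a1.pow i).mul (a2.pow j)
    exact h3
  rcases mul_eq_zero.1 h2 with h6 | h6
  · have h7 : (c : RR p q) = 1 := by
      apply hat_phi_inj hp hq
      rw [map_one]; linarith
    apply Subtype.ext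
    apply Subtype.ext
    rw [hc', h7, map_one]
    rfl
  · exfalso
    have h7 : (c : RR p q) = -1 := by
      apply hat_phi_inj hp hq
      rw [map_neg, map_one]; linarith
    have h8 : -(den p q i j) = α.re := by
      apply hat_cast_inj hp hq
      rw [← h4, h7]
      push_cast
      ring
    have h9 := hα.1
    omega

end hatMain

theorem HT_thm (hE : Stmt_exists) : Stmt_hat := by
  intro p q hp hq hp4 hq4 hpq h hh
  refine ⟨↥(hat_G p q), inferInstance, hat_rep0 hp hq hpq h hh,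
    hat_iota hE hp hq hp4 hq4 hpq, ?_, ?_, ?_⟩
  · rw [injective_iff_map_eq_one]
    intro γ hγ
    apply hat_inj hp hq hp4 hq4 γ
    rw [← hat_iota_val hE hp hq hp4 hq4 hpq, hγ]
    rfl
  · apply le_antisymm
    · rintro _ ⟨γ, rfl⟩
      obtain ⟨i, j, α, hα, hγ⟩ := γ.2
      have hN := hat_G1_N hp hq γ i j α hγ
      have hv := hat_iota_val hE hp hq hp4 hq4 hpq γ
      rw [hat_G1_cl γ i j α hγ hN] at hv
      constructor
      · show hat_chi hp hq p hp
          ((hat_iota hE hp hq hp4 hq4 hpq γ : ↥(hat_G p q)) : (ℍ[RR p q])ˣ ⧸ hat_Z p q) = 1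
        rw [hv, hat_chi_p hp hq hpq, pow_mul]
        simp
      · show hat_chi hp hq q hq
          ((hat_iota hE hp hq hp4 hq4 hpq γ : ↥(hat_G p q)) : (ℍ[RR p q])ˣ ⧸ hat_Z p q) = 1
        rw [hv, hat_chi_q hp hq hpq, pow_mul]
        simp
    · rintro ⟨x, hx⟩ ⟨h1, h2⟩
      obtain ⟨α, a, b, hN, hα, rfl⟩ := hat_rep hx
      have h3 : (-1 : ℤˣ) ^ a = 1 := by
        rw [← hat_chi_p hp hq hpq α a b hN]; exact h1
      have h4 : (-1 : ℤˣ) ^ b = 1 := by
        rw [← hat_chi_q hp hq hpq α a b hN]; exact h2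
      have ha : Even a := by
        by_contra hc
        rw [Nat.not_even_iff_odd] at hc
        rw [hc.neg_one_pow] at h3
        exact absurd h3 (by decide)
      have hb : Even b := by
        by_contra hc
        rw [Nat.not_even_iff_odd] at hc
        rw [hc.neg_one_pow] at h4
        exact absurd h4 (by decide)
      obtain ⟨i, rfl⟩ := ha.two_dvd
      obtain ⟨j, rfl⟩ := hb.two_dvd
      have hα1 : α ∈ TauQ.OO := by
        apply old_of_norm hα
        rw [hN, ← hat_den_sq]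
        have h1 := hat_pst_mod (hat_mod hp hp4)
        have h2 := hat_pst_mod (hat_mod hq hq4)
        have h3 : den p q i j * den p q i j ≡ 1 [ZMOD 4] := by
          unfold den
          have a1 : pst p ≡ 1 [ZMOD 4] := h1
          have a2 : pst q ≡ 1 [ZMOD 4] := h2
          have a3 := (a1.pow i).mul (a2.pow j)
          simpa using a3.mul a3
        exact h3
      obtain ⟨γ, hγ⟩ := hat_mk α i j hα1 hN
      refine ⟨γ, Subtype.ext ?_⟩
      rw [hat_iota_val, hat_G1_cl γ i j α hγ hN]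
  · intro b' b
    have hN : hat_N p q (b'.val * b.val) (2 * 1) (2 * 0) := by
      rw [hat_N, map_mul, b'.norm, b.norm]; push_cast; ring
    obtain ⟨γ, hγ⟩ := hat_mk (b'.val * b.val) 1 0 (SS.mul_old b' b) hN
    refine ⟨γ, by simpa [den] using hγ, Subtype.ext ?_⟩
    rw [hat_iota_val, hat_G1_cl γ 1 0 _ hγ hN, Subgroup.coe_mul]
    show _ = hat_cl p q (hat_A b') * hat_cl p q (hat_A b)
    rw [← map_mul]
    congr 1
    apply Units.ext
    rw [Units.val_mul, hat_U_val, hat_A_val, hat_A_val, map_mul]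

end TauO
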