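import Mathlib
import Pool.Agent.Work.MP_972ac7_od.Interface
import Pool.Agent.Work.MP_972ac7_tq.LK

/-!
Block LK: the finite group attached to a normal subgroup of finite index of `GG p q`
(the quotient representation `LK_rep` is the one of `MP_972ac7_tq/LK.lean`).
-/

open scoped Quaternion BigOperators Matrix ComplexOrder

namespace TauO

open TauQ

theorem LK_thm (hhat : Stmt_hat) : SQ_LK := by
  intro p q hpp hqq hp4 hq4 hpq h hQ N hN hNf
  obtain ⟨Γ, _, r, ι, hι, hrange, hA⟩ := hhat p q hpp hqq hp4 hq4 hpq h hQ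
  let N1 : Subgroup (G1 p q) := N.subgroupOf (G1 p q)
  have hN1f : N1.FiniteIndex := by
    have : (N.subgroupOf (G1 p q)).FiniteIndex := inferInstance
    exact this
  let K0 : Subgroup Γ := N1.map ι
  have hK0r : K0 ≤ ι.range := by
    rintro _ ⟨y, -, rfl⟩
    exact ⟨y, rfl⟩
  have hK0f : K0.FiniteIndex := by
    constructor
    change (N1.map ι).index ≠ 0
    rw [Subgroup.index_map_of_injective _ hι, hrange]
    refine mul_ne_zero hN1f.index_ne_zero ?_
    have h1 : (r.chiA.ker).FiniteIndex := Subgroup.finiteIndex_ker r.chiA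
    have h2 : (r.chiB.ker).FiniteIndex := Subgroup.finiteIndex_ker r.chiB
    exact Subgroup.index_inf_ne_zero h1.index_ne_zero h2.index_ne_zero
  let K : Subgroup Γ := K0.normalCore
  have hKn : K.Normal := Subgroup.normalCore_normal K0
  have hKf : K.FiniteIndex := by
    have : (K0.normalCore).FiniteIndex := inferInstance
    exact this
  have hKK0 : K ≤ K0 := Subgroup.normalCore_le K0
  have hKr : K ≤ r.chiA.ker ⊓ r.chiB.ker := by
    rw [← hrange]; exact hKK0.trans hK0r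
  have hfin : Finite (Γ ⧸ K) := Subgroup.finite_quotient_of_finiteIndex
  let r' : Rep h (Γ ⧸ K) := LK_rep r K (hKr.trans inf_le_left) (hKr.trans inf_le_right)
  let π : Γ →* Γ ⧸ K := QuotientGroup.mk' K
  have hπs : Function.Surjective π := QuotientGroup.mk'_surjective K
  have hchiA : ∀ g : Γ, r'.chiA (π g) = r.chiA g := fun g => rfl
  have hchiB : ∀ g : Γ, r'.chiB (π g) = r.chiB g := fun g => rfl
  let rQ : G1 p q →* Γ ⧸ K := π.comp ι
  have hrQ : rQ.range = r'.chiA.ker ⊓ r'.chiB.ker := by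
    ext z
    obtain ⟨g, rfl⟩ := hπs z
    rw [Subgroup.mem_inf, MonoidHom.mem_ker, MonoidHom.mem_ker, hchiA, hchiB]
    constructor
    · rintro ⟨γ, hγ⟩
      have h1 : π (ι γ) = π g := hγ
      have h2 : ι γ ∈ r.chiA.ker ⊓ r.chiB.ker := by rw [← hrange]; exact ⟨γ, rfl⟩
      rw [← hchiA, ← hchiB, ← h1, hchiA, hchiB]
      exact ⟨h2.1, h2.2⟩
    · rintro ⟨h1, h2⟩
      have h3 : g ∈ ι.range := by rw [hrange]; exact ⟨h1, h2⟩
      obtain ⟨γ, rfl⟩ := h3
      exact ⟨γ, rfl⟩
  refine ⟨Γ ⧸ K, inferInstance, Fintype.ofFinite _, r', rQ, hrQ, ?_, ?_⟩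
  · intro a' a
    obtain ⟨γ, h1, h2⟩ := hA a' a
    refine ⟨γ, h1, ?_⟩
    change π (ι γ) = π (r.al a') * π (r.al a)
    rw [h2, map_mul]
  · intro γ hγ
    have h1 : ι γ ∈ K := (QuotientGroup.eq_one_iff (ι γ)).mp hγ
    obtain ⟨n, hn, hn'⟩ := hKK0 h1
    have h2 : n = γ := hι hn'
    rw [← h2]
    exact hn

end TauO
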