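import Mathlib
import Pool.Agent.Work.MP_972ac7_od.Interface
import Pool.Agent.Work.MP_972ac7_tq.NU

/-!
# Block NU: no eigenvalue near the top satisfies the trace bound at a large level
-/

open scoped Quaternion BigOperators Matrix ComplexOrder

namespace TauO

open TauQ

theorem NU_thm (h1 : SQ_WC) : SQ_NU := by
  intro q hq hq4
  have hq3 : (3 : ℝ) ≤ q := by
    have : 3 ≤ q := by
      have := hq.two_le
      omega
    exact_mod_cast this
  set A : ℝ := ((q : ℝ) + 1) ^ 2 with hA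
  set D : ℝ := ((q : ℝ) - 1) ^ 2 / 2 with hD
  have hD0 : 0 < D := by rw [hD]; nlinarith
  set ρ : ℝ := 4 * q + D with hρ
  have hρA : A - D = ρ := by rw [hA, hρ, hD]; ring
  have hρ0 : 0 < ρ := by rw [hρ]; linarith
  have hA0 : 0 < A := by rw [hA]; positivity
  set t : ℝ := Real.log (ρ / (4 * q)) with ht
  have ht0 : 0 < t := by
    rw [ht]
    apply Real.log_pos
    rw [lt_div_iff₀ (by linarith)]
    rw [hρ]
    linarith
  have hte : Real.exp (-t) * ρ = 4 * q := by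
    rw [Real.exp_neg, ht, Real.exp_log (by positivity)]
    have : (q : ℝ) ≠ 0 := by linarith
    field_simp
  set κ : ℝ := 2 / t with hκ
  have hκ0 : 0 < κ := by positivity
  have hlq : 0 < Real.log q := Real.log_pos (by linarith)
  set η : ℝ := 1 / (8 * κ * Real.log q) with hη
  have hη0 : 0 < η := by positivity
  obtain ⟨C, hC, hWC⟩ := h1 η hη0
  set E : ℝ := Real.exp (1 / (4 * κ)) with hE
  set B : ℝ := 2 * (4 + 2 * C * E + 2 * C * E ^ 2) with hB
  have hexp1 : Real.exp (-(1 / (8 * κ))) < 1 := by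
    rw [Real.exp_lt_one_iff]
    have : 0 < 1 / (8 * κ) := by positivity
    linarith
  refine ⟨min D (A * (1 - Real.exp (-(1 / (8 * κ))))), ⌈B ^ 2⌉₊ + 2, ?_, ?_⟩
  · exact lt_min hD0 (mul_pos hA0 (by linarith))
  intro p i hp hp2 hpq hL μ hμ hall
  have hM2 : 2 ≤ p ^ i := by omega
  have hM0 : 0 < p ^ i := by omega
  have hμρ : ρ ≤ μ := by
    have := min_le_left D (A * (1 - Real.exp (-(1 / (8 * κ)))))
    linarith
  have hμ0 : 0 < μ := by linarith
  have hμA : A * Real.exp (-(1 / (8 * κ))) ≤ μ := by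
    have := min_le_right D (A * (1 - Real.exp (-(1 / (8 * κ)))))
    nlinarith
  have hAμ : A ≤ Real.exp (1 / (8 * κ)) * μ := by
    have h2 := mul_le_mul_of_nonneg_left hμA (Real.exp_pos (1 / (8 * κ))).le
    have h3 : Real.exp (1 / (8 * κ)) * (A * Real.exp (-(1 / (8 * κ)))) = A := by
      rw [mul_left_comm, ← Real.exp_add]
      simp
    linarith
  have haμ : 4 * (q : ℝ) ≤ Real.exp (-t) * μ := by
    rw [← hte]
    exact mul_le_mul_of_nonneg_left hμρ (Real.exp_pos _).le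
  have hMr : (1 : ℝ) ≤ ((p ^ i : ℕ) : ℝ) := by exact_mod_cast hM0
  set x : ℝ := Real.log ((p ^ i : ℕ) : ℝ) with hx
  have hx0 : 0 ≤ x := Real.log_nonneg hMr
  have hMx : ((p ^ i : ℕ) : ℝ) = Real.exp x := (Real.exp_log (by linarith)).symm
  set j : ℕ := ⌈κ * x⌉₊ with hj
  have hj1 : κ * x ≤ j := Nat.le_ceil _
  have hj2 : (j : ℝ) ≤ κ * x + 1 := (Nat.ceil_lt_add_one (by positivity)).le
  have hcop : Nat.Coprime (p ^ i) (2 * q) := by
    apply Nat.Coprime.pow_left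
    apply Nat.Coprime.mul_right
    · exact (Nat.coprime_primes hp Nat.prime_two).2 hp2
    · exact (Nat.coprime_primes hp hq).2 hpq
  have hW := hWC q (p ^ i) (2 * j) hq hq4 hM0 hcop
  have h4j : 2 * (2 * j) = 4 * j := by ring
  have htr := hall j
  have hφ := NU_totient p i hp hM2
  set Y : ℝ := ((q : ℝ) ^ (2 * j)) ^ η with hY
  have hY0 : 0 ≤ Y := by positivity
  have hYb : Y ≤ E * Real.exp (x / 4) := by
    rw [hY, Real.rpow_def_of_pos (by positivity), Real.log_pow, hE, ← Real.exp_add]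
    apply Real.exp_le_exp.2
    push_cast
    have h5 : 2 * (j : ℝ) * Real.log q * η = (j : ℝ) / (4 * κ) := by
      rw [hη]
      field_simp
      ring
    rw [h5]
    have h6 : 1 / (4 * κ) + x / 4 = (κ * x + 1) / (4 * κ) := by field_simp; ring
    rw [h6]
    exact div_le_div_of_nonneg_right hj2 (by positivity)
  have hApow : ((q : ℝ) + 1) ^ (2 * (2 * j)) = A ^ (2 * j) := by
    rw [hA, ← pow_mul]
  have htr2 : ((p ^ i).totient : ℝ) * μ ^ (2 * j) ≤ 2 * (((p ^ i : ℕ) : ℝ) ^ 3 *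
      ((4 * (q : ℝ)) ^ (2 * j) * (2 + C * Y / ((p ^ i : ℕ) : ℝ)) +
        C * Y / ((p ^ i : ℕ) : ℝ) ^ 3 * A ^ (2 * j))) := by
    refine htr.trans ?_
    have h7 : (WW q (p ^ i) (4 * j) : ℝ) ≤ (4 * (q : ℝ)) ^ (2 * j) *
        (2 + C * Y / ((p ^ i : ℕ) : ℝ)) + C * Y / ((p ^ i : ℕ) : ℝ) ^ 3 * A ^ (2 * j) := by
      rw [← hApow, ← h4j]
      exact hW
    gcongr
  have hfin := NU_core (4 * q) A μ t κ x E C Y ((p ^ i : ℕ) : ℝ) ((p ^ i).totient : ℝ) j hμ0 ht0
    hκ hx0 hE hC hY0 hMx hj1 hj2 (by linarith) haμ hA0.le hAμ hYb hφ htr2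
  have h8 : ((p ^ i : ℕ) : ℝ) ≤ B ^ 2 := by
    have h9 : ((p ^ i : ℕ) : ℝ) = Real.exp (x / 2) ^ 2 := by
      rw [hMx, ← Real.exp_nat_mul]
      congr 1
      push_cast
      ring
    rw [h9]
    exact pow_le_pow_left₀ (Real.exp_pos _).le hfin 2
  have h10 : B ^ 2 ≤ (⌈B ^ 2⌉₊ : ℝ) := Nat.le_ceil _
  have h11 : ((⌈B ^ 2⌉₊ + 2 : ℕ) : ℝ) ≤ ((p ^ i : ℕ) : ℝ) := by exact_mod_cast hL
  push_cast at h11 h8
  linarith

end TauO
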