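import Mathlib
import Pool.Agent.Work.MP_972ac7_od.Interface
import Pool.Agent.Work.MP_972ac7_tq.QG

/-!
# Block QG (all odd primes) of the property tau theorem for all finite quotients (MP_972ac7_al)
-/

set_option autoImplicit false

open scoped Quaternion BigOperators InnerProductSpace
open Classical

namespace TauO

open TauQ

/-- the alphabets are not empty -/
theorem QGo_ne (hC : Stmt_card) (q : ℕ) (hq : q.Prime) (hq2 : q ≠ 2) : Nonempty (SS q) := by
  apply Fintype.card_pos_iff.1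
  rw [hC q hq hq2]
  omega

theorem QGo_swap {p q : ℕ} (h : VH (SS p) (SS q)) (hQ : IsQVH h) : IsQVH h.swap := by
  refine ⟨hQ.2.1, hQ.1, ?_⟩
  intro b a
  have e : h.vh ((h.vh.symm (b, a)).1, (h.vh.symm (b, a)).2) = (b, a) := by
    rw [Prod.mk.eta, Equiv.apply_symm_apply]
  have h1 := hQ.2.2 (h.vh.symm (b, a)).1 (h.vh.symm (b, a)).2
  rw [e] at h1
  exact h1.symm

theorem QG_thm (hSI : SQ_SI) (hJ : TauQ.Stmt_joint) (hC : Stmt_card) : SQ_QG := by
  intro p q hp hq hp4 hq4 hpq
  obtain ⟨δ1, hδ1, H1⟩ := hSI p q hp hq hp4 hq4 hpq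
  obtain ⟨δ2, hδ2, H2⟩ := hSI q p hq hp hq4 hp4 hpq.symm
  obtain ⟨a0⟩ := QGo_ne hC p hp hp4
  obtain ⟨b0⟩ := QGo_ne hC q hq hq4
  have hm : (1 : ℝ) ≤ Fintype.card (SS p) := by
    have : 0 < Fintype.card (SS p) := Fintype.card_pos_iff.2 ⟨a0⟩
    exact_mod_cast this
  have hn : (1 : ℝ) ≤ Fintype.card (SS q) := by
    have : 0 < Fintype.card (SS q) := Fintype.card_pos_iff.2 ⟨b0⟩
    exact_mod_cast this
  refine ⟨min δ1 1, lt_min hδ1 one_pos, ?_⟩
  intro h hQ Q _ _ r f hf
  by_contra hcon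
  push Not at hcon
  obtain ⟨μ, F, hF0, hFz, hFe, hμ⟩ := QG_eigen (fun b : SS q => Equiv.mulLeft (r.be b)) h.invB
    h.invB_invB (by
      intro b
      ext x
      show r.be (h.invB b) * x = (r.be b)⁻¹ * x
      rw [r.be_inv]) (fun x => r.chiA x) (by
      intro b x
      show r.chiA (r.be b * x) = r.chiA x
      rw [map_mul, r.chiA_be, one_mul]) f hf (min δ1 1) hcon
  have hμ1 : (Fintype.card (SS q) : ℝ) - δ1 ≤ μ := by
    have := min_le_left δ1 (1 : ℝ)
    linarith
  have hμ2 : (Fintype.card (SS q) : ℝ) - 1 < μ := by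
    have := min_le_right δ1 (1 : ℝ)
    linarith
  -- sums
  have hcls : ∀ x, F x = (if r.chiA x = 1 then F x else 0) + (if r.chiA x = -1 then F x else 0) := by
    intro x
    rcases Int.units_eq_one_or (r.chiA x) with e | e <;> rw [e] <;> simp
  have hcls' : ∀ x, (((r.chiA x : ℤˣ) : ℤ) : ℂ) * F x =
      (if r.chiA x = 1 then F x else 0) - (if r.chiA x = -1 then F x else 0) := by
    intro x
    rcases Int.units_eq_one_or (r.chiA x) with e | e <;> rw [e] <;> simp
  have hs : ∑ x, F x = 0 := by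
    rw [Finset.sum_congr rfl fun x _ => hcls x, Finset.sum_add_distrib]
    have e1 := hFz 1
    have e2 := hFz (-1)
    rw [e1, e2, add_zero]
  have hs' : ∑ x, (((r.chiA x : ℤˣ) : ℤ) : ℂ) * F x = 0 := by
    rw [Finset.sum_congr rfl fun x _ => hcls' x, Finset.sum_sub_distrib]
    have e1 := hFz 1
    have e2 := hFz (-1)
    rw [e1, e2, sub_zero]
  obtain ⟨w, lam, hw0, -, hwB, hws, hws', hwA⟩ := hJ (SS p) (SS q) h Q r ⊥ bot_le F (fun _ => 1)
    ((Fintype.card (SS q) : ℝ) - μ) hF0 (by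
      intro d hd x
      rw [Subgroup.mem_bot] at hd
      rw [hd, mul_one, one_mul]) (by
      intro x
      have := hFe x
      rw [show ((Fintype.card (SS q) : ℂ) - (((Fintype.card (SS q) : ℝ) - μ : ℝ) : ℂ)) = (μ : ℂ) by
        push_cast; ring]
      exact this) hs hs'
  have hwB' : ∀ x, ∑ b, w (r.be b * x) = (μ : ℂ) * w x := by
    intro x
    rw [hwB x]
    push_cast
    ring
  have hA1 := H1 h hQ Q r w μ hμ1 hwB'
  have hA2 : ∀ x, ((Fintype.card (SS p) : ℝ) : ℂ) * w (r.al a0 * x) = (lam : ℂ) * w x := by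
    intro x
    rw [← hwA x, Finset.sum_congr rfl fun a _ => hA1 a a0 x, Finset.sum_const, Finset.card_univ,
      nsmul_eq_mul]
    push_cast
    rfl
  -- a function invariant on the left under all al a
  obtain ⟨v, hv0, hvB, hvs, hvA⟩ : ∃ v : Q → ℂ, v ≠ 0 ∧ (∀ x, ∑ b, v (r.be b * x) = (μ : ℂ) * v x) ∧
      ∑ x, v x = 0 ∧ ∀ a x, v (r.al a * x) = v x := by
    have hmR : (Fintype.card (SS p) : ℝ) ≠ 0 :=
      (lt_of_lt_of_le zero_lt_one hm).ne'
    have hmC : ((Fintype.card (SS p) : ℝ) : ℂ) ≠ 0 := Complex.ofReal_ne_zero.2 hmR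
    rcases QG_pm (r.al a0) w hw0 _ lam hA2 with hl | hl
    · refine ⟨w, hw0, hwB', hws, ?_⟩
      intro a x
      rw [hA1 a a0 x]
      have := hA2 x
      rw [hl] at this
      exact mul_left_cancel₀ hmC this
    · refine ⟨fun x => (((r.chiA x : ℤˣ) : ℤ) : ℂ) * w x, ?_, ?_, hws', ?_⟩
      · intro h0
        apply hw0
        funext x
        have h1 := congrFun h0 x
        simp only [Pi.zero_apply, mul_eq_zero] at h1 ⊢
        rcases h1 with h1 | h1
        · rcases Int.units_eq_one_or (r.chiA x) with e | e <;> rw [e] at h1 <;> simp at h1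
        · exact h1
      · intro x
        simp only [map_mul, r.chiA_be, one_mul, ← Finset.mul_sum, hwB']
        ring
      · intro a x
        simp only [map_mul, r.chiA_al, Units.val_mul, Units.val_neg, Units.val_one, Int.cast_mul,
          Int.cast_neg, Int.cast_one]
        rw [hA1 a a0 x]
        have := hA2 x
        rw [hl] at this
        have h3 : w (r.al a0 * x) = - w x := by
          apply mul_left_cancel₀ hmC
          rw [this]
          push_cast
          ring
        rw [h3]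
        ring
  -- the other side
  have hB1 := H2 h.swap (QGo_swap h hQ) Q r.swap v (Fintype.card (SS p) : ℝ) (by linarith) (by
    intro x
    show ∑ a, v (r.al a * x) = _
    rw [Finset.sum_congr rfl fun a _ => hvA a x, Finset.sum_const, Finset.card_univ, nsmul_eq_mul]
    push_cast
    rfl)
  have hB1' : ∀ b b' z, v (r.be b * z) = v (r.be b' * z) := hB1
  have hB2 : ∀ x, ((Fintype.card (SS q) : ℝ) : ℂ) * v (r.be b0 * x) = (μ : ℂ) * v x := by
    intro x
    rw [← hvB x, Finset.sum_congr rfl fun b _ => hB1' b b0 x, Finset.sum_const, Finset.card_univ,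
      nsmul_eq_mul]
    push_cast
    rfl
  rcases QG_pm (r.be b0) v hv0 _ μ hB2 with hl | hl
  · apply hv0
    refine QG_inv r v hvA ?_ hvs
    intro b x
    rw [hB1' b b0 x]
    have := hB2 x
    rw [hl] at this
    have hnR : (Fintype.card (SS q) : ℝ) ≠ 0 :=
      (lt_of_lt_of_le zero_lt_one hn).ne'
    have hnC : ((Fintype.card (SS q) : ℝ) : ℂ) ≠ 0 := Complex.ofReal_ne_zero.2 hnR
    exact mul_left_cancel₀ hnC this
  · linarith

end TauO
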