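import Mathlib
import Pool.Agent.Work.MP_972ac7_od.Interface
import Pool.Agent.Work.MP_972ac7_tq.SP

/-!
# Block SP: the spectral count beyond level `p^r`, all odd primes
-/

set_option autoImplicit false
set_option linter.unusedSectionVars false

open scoped Quaternion BigOperators Matrix ComplexOrder

namespace TauO

open TauQ

section SPred

variable {M M' : ℕ} [NeZero M] [NeZero M']

lemma SP_inv (hd : M' ∣ M) {q : ℕ} (hM : Nat.Coprime q M) :
    ZMod.castHom hd (ZMod M') ((((pst q : ℤ) : ZMod M))⁻¹) = (((pst q : ℤ) : ZMod M'))⁻¹ := by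
  have h1 := pst_unit hM
  have h2 := pst_unit (Nat.Coprime.coprime_dvd_right hd hM)
  have h3 := congrArg (ZMod.castHom hd (ZMod M')) h1
  rw [map_mul, map_one, map_intCast] at h3
  calc ZMod.castHom hd (ZMod M') ((((pst q : ℤ) : ZMod M))⁻¹)
      = (((pst q : ℤ) : ZMod M') * (((pst q : ℤ) : ZMod M'))⁻¹) *
          ZMod.castHom hd (ZMod M') ((((pst q : ℤ) : ZMod M))⁻¹) := by
        rw [h2, one_mul]
    _ = (((pst q : ℤ) : ZMod M'))⁻¹ * (((pst q : ℤ) : ZMod M') *
          ZMod.castHom hd (ZMod M') ((((pst q : ℤ) : ZMod M))⁻¹)) := by ring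
    _ = (((pst q : ℤ) : ZMod M'))⁻¹ := by rw [h3, mul_one]

lemma SP_rU_uM (hd : M' ∣ M) {q : ℕ} (hM : Nat.Coprime q M) (hM' : Nat.Coprime q M')
    (b' b : SS q) : SP_rU hd (uM M hM b' b) = uM M' hM' b' b := by
  apply Subtype.ext
  rw [SP_rU_val]
  show SP_r hd (((((pst q : ℤ) : ZMod M))⁻¹) • redM M (b'.val * b.val)) =
    ((((pst q : ℤ) : ZMod M'))⁻¹) • redM M' (b'.val * b.val)
  rw [SP_r_smul, SP_r_redM, SP_inv hd hM]

end SPred

section SPword

variable {q M : ℕ} [NeZero M]

/-- the inverse letter -/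
def SP_star (b : SS q) : SS q := b.inv

lemma SP_star_star (b : SS q) : SP_star (SP_star b) = b := b.inv_inv

lemma SP_uM_star (hM : Nat.Coprime q M) (b' b : SS q) :
    uM M hM (SP_star b) (SP_star b') = (uM M hM b' b)⁻¹ := by
  apply Subtype.ext
  show ((((pst q : ℤ) : ZMod M))⁻¹) • redM M (b.inv.val * b'.inv.val) =
    star (((((pst q : ℤ) : ZMod M))⁻¹) • redM M (b'.val * b.val))
  have h1 : b.inv.val * b'.inv.val = star (b'.val * b.val) := by
    rw [SS.inv_val, SS.inv_val, star_mul]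
    calc ((eps q : ℤ) : ℍ[ℤ]) * star b.val * (((eps q : ℤ) : ℍ[ℤ]) * star b'.val)
        = ((eps q : ℤ) : ℍ[ℤ]) * (star b.val * ((eps q : ℤ) : ℍ[ℤ])) * star b'.val := by
          simp only [mul_assoc]
      _ = ((eps q : ℤ) : ℍ[ℤ]) * (((eps q : ℤ) : ℍ[ℤ]) * star b.val) * star b'.val := by
          rw [(Int.cast_commute (eps q) (star b.val)).eq]
      _ = (((eps q : ℤ) : ℍ[ℤ]) * ((eps q : ℤ) : ℍ[ℤ])) * (star b.val * star b'.val) := by
          simp only [mul_assoc]
      _ = star b.val * star b'.val := by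
          rw [← Int.cast_mul, eps_sq, Int.cast_one, one_mul]
  rw [h1, redM, qmap_star]
  ext <;> simp

/-- the word of the letters -/
def SP_word {n : ℕ} (w : Fin n → SS q × SS q) (k : Fin (n * 2)) : SS q :=
  if (k : ℕ) % 2 = 0 then (w ⟨(k : ℕ) / 2, by omega⟩).1 else (w ⟨(k : ℕ) / 2, by omega⟩).2

lemma SP_word_fst {n : ℕ} (w : Fin n → SS q × SS q) (i : Fin n) (h : (i : ℕ) * 2 + 0 < n * 2) :
    SP_word w ⟨(i : ℕ) * 2 + 0, h⟩ = (w i).1 := by
  have h1 : ((i : ℕ) * 2 + 0) % 2 = 0 := by omega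
  have h2 : (⟨((i : ℕ) * 2 + 0) / 2, by omega⟩ : Fin n) = i := by
    apply Fin.ext; show ((i : ℕ) * 2 + 0) / 2 = i; omega
  simp only [SP_word]
  rw [if_pos h1, h2]

lemma SP_word_snd {n : ℕ} (w : Fin n → SS q × SS q) (i : Fin n) (h : (i : ℕ) * 2 + 1 < n * 2) :
    SP_word w ⟨(i : ℕ) * 2 + 1, h⟩ = (w i).2 := by
  have h1 : ¬ ((i : ℕ) * 2 + 1) % 2 = 0 := by omega
  have h2 : (⟨((i : ℕ) * 2 + 1) / 2, by omega⟩ : Fin n) = i := by
    apply Fin.ext; show ((i : ℕ) * 2 + 1) / 2 = i; omega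
  simp only [SP_word]
  rw [if_neg h1, h2]

lemma SP_word_inj {n : ℕ} : Function.Injective (SP_word (q := q) (n := n)) := by
  intro w w' h
  funext i
  have h1 : (i : ℕ) * 2 + 0 < n * 2 := by omega
  have h2 : (i : ℕ) * 2 + 1 < n * 2 := by omega
  apply Prod.ext
  · rw [← SP_word_fst w i h1, ← SP_word_fst w' i h1, h]
  · rw [← SP_word_snd w i h2, ← SP_word_snd w' i h2, h]

lemma SP_word_prod {n : ℕ} (w : Fin n → SS q × SS q) :
    (List.ofFn fun k => (SP_word w k).val).prod =
      (List.ofFn fun i => (w i).1.val * (w i).2.val).prod := by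
  rw [List.ofFn_mul, List.prod_flatten, List.map_ofFn]
  congr 1
  congr 1
  funext i
  simp only [Function.comp_apply]
  rw [List.ofFn_succ, List.ofFn_succ, List.ofFn_zero, List.prod_cons, List.prod_cons,
    List.prod_nil, mul_one]
  have e1 := SP_word_fst w i (by omega)
  have e2 := SP_word_snd w i (by omega)
  rw [← e1, ← e2]
  rfl

lemma SP_list (hM : Nat.Coprime q M) (l : List (SS q × SS q)) :
    (((l.map (fun b => uM M hM b.1 b.2)).prod : unitary ℍ[ZMod M]) : ℍ[ZMod M]) =
      ((((pst q : ℤ) : ZMod M))⁻¹) ^ l.length • redM M ((l.map fun b => b.1.val * b.2.val).prod) := by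
  induction l with
  | nil => simp
  | cons a l ih =>
    rw [List.map_cons, List.prod_cons, Submonoid.coe_mul, ih, List.map_cons, List.prod_cons,
      map_mul, List.length_cons, pow_succ]
    show (((((pst q : ℤ) : ZMod M))⁻¹) • redM M (a.1.val * a.2.val)) * _ = _
    rw [smul_mul_smul_comm, mul_comm ((((pst q : ℤ) : ZMod M))⁻¹ ^ l.length)]

lemma SP_scalar (hM : Nat.Coprime q M) (l : List (SS q × SS q))
    (h : (l.map (fun b => uM M hM b.1 b.2)).prod = 1) :
    (M : ℤ) ∣ ((l.map fun b : SS q × SS q => b.1.val * b.2.val).prod).imI ∧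
    (M : ℤ) ∣ ((l.map fun b : SS q × SS q => b.1.val * b.2.val).prod).imJ ∧
    (M : ℤ) ∣ ((l.map fun b : SS q × SS q => b.1.val * b.2.val).prod).imK := by
  have h1 := SP_list hM l
  rw [h] at h1
  generalize (l.map fun b => b.1.val * b.2.val).prod = P at h1
  have hu : IsUnit (((((pst q : ℤ) : ZMod M))⁻¹) ^ l.length) := by
    apply IsUnit.pow
    exact IsUnit.of_mul_eq_one ((pst q : ℤ) : ZMod M) (by rw [mul_comm]; exact pst_unit hM)
  have key : ∀ a : ZMod M, 0 = ((((pst q : ℤ) : ZMod M))⁻¹) ^ l.length * a → a = 0 := fun a ha =>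
    hu.mul_right_eq_zero.1 ha.symm
  have hI := congrArg (fun y => y.imI) h1
  have hJ := congrArg (fun y => y.imJ) h1
  have hK := congrArg (fun y => y.imK) h1
  refine ⟨?_, ?_, ?_⟩
  · rw [← ZMod.intCast_zmod_eq_zero_iff_dvd]
    exact key _ hI
  · rw [← ZMod.intCast_zmod_eq_zero_iff_dvd]
    exact key _ hJ
  · rw [← ZMod.intCast_zmod_eq_zero_iff_dvd]
    exact key _ hK

/-- the permutation attached to a pair of letters -/
noncomputable def SP_u (hM : Nat.Coprime q M)
    (b : SS q × SS q) : Equiv.Perm (unitary ℍ[ZMod M]) :=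
  Equiv.mulLeft (uM M hM b.1 b.2)

lemma SP_u_inv (hM : Nat.Coprime q M) (b : SS q × SS q) :
    SP_u hM (SP_star b.2, SP_star b.1) = (SP_u hM b)⁻¹ := by
  rw [eq_inv_iff_mul_eq_one]
  apply Equiv.ext
  intro z
  show uM M hM (SP_star b.2) (SP_star b.1) * (uM M hM b.1 b.2 * z) = z
  rw [SP_uM_star, inv_mul_cancel_left]

lemma SP_count {n : ℕ} (hM : Nat.Coprime q M) (z : unitary ℍ[ZMod M]) :
    Nat.card {w : Fin n → SS q × SS q //
      (List.ofFn fun i => SP_u hM (w i)).prod z = z} ≤ WW q M (n * 2) := by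
  have key : ∀ w : Fin n → SS q × SS q, (List.ofFn fun i => SP_u hM (w i)).prod z = z →
      (M : ℤ) ∣ ((List.ofFn fun i => (SP_word w i).val).prod).imI ∧
      (M : ℤ) ∣ ((List.ofFn fun i => (SP_word w i).val).prod).imJ ∧
      (M : ℤ) ∣ ((List.ofFn fun i => (SP_word w i).val).prod).imK := by
    intro w hw
    have h1 : (List.ofFn fun i => SP_u hM (w i)) =
        ((List.ofFn w).map (fun b => (uM M hM b.1 b.2 : unitary ℍ[ZMod M]))).map
            (fun g => (Equiv.mulLeft g : Equiv.Perm (unitary ℍ[ZMod M]))) := by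
      rw [List.map_map, List.map_ofFn]
      rfl
    rw [h1, SP_mulLeft_prod, Equiv.coe_mulLeft, mul_eq_right] at hw
    have h3 := SP_scalar hM (List.ofFn w) hw
    rw [List.map_ofFn] at h3
    rw [SP_word_prod]
    exact h3
  unfold WW
  refine Nat.card_le_card_of_injective
    (fun w => (⟨SP_word w.1, key w.1 w.2⟩ : {w : Fin (n * 2) → SS q //
    (M : ℤ) ∣ ((List.ofFn fun i => (w i).val).prod).imI ∧
    (M : ℤ) ∣ ((List.ofFn fun i => (w i).val).prod).imJ ∧
    (M : ℤ) ∣ ((List.ofFn fun i => (w i).val).prod).imK})) ?_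
  intro w w' h
  apply Subtype.ext
  apply SP_word_inj
  exact congrArg Subtype.val h

end SPword

section SPmain

variable {q M M' : ℕ} [NeZero M] [NeZero M']

open Classical in
/-- the eigenfunctions with zero sums over the cosets of the kernel of the reduction -/
def SP_V (hM : Nat.Coprime q M) (hd : M' ∣ M) (μ : ℝ) :
    Submodule ℂ (unitary ℍ[ZMod M] → ℂ) where
  carrier := {f | (∀ z, ∑ b' : SS q, ∑ b : SS q, f (uM M hM b' b * z) = (μ : ℂ) * f z) ∧
    ∀ z, ∑ k : unitary ℍ[ZMod M], (if SP_rU hd k = 1 then f (z * k) else 0) = 0}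
  zero_mem' := by
    refine ⟨?_, ?_⟩
    · intro z; simp
    · intro z; simp
  add_mem' := by
    rintro f g ⟨hf, hf2⟩ ⟨hg, hg2⟩
    refine ⟨?_, ?_⟩
    · intro z
      simp only [Pi.add_apply, Finset.sum_add_distrib]
      rw [hf z, hg z, mul_add]
    · intro z
      have h1 := hf2 z
      have h2 := hg2 z
      calc ∑ k : unitary ℍ[ZMod M], (if SP_rU hd k = 1 then (f + g) (z * k) else 0)
          = ∑ k : unitary ℍ[ZMod M], ((if SP_rU hd k = 1 then f (z * k) else 0) +
            (if SP_rU hd k = 1 then g (z * k) else 0)) := by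
            apply Finset.sum_congr rfl
            intro k _
            split_ifs
            · rfl
            · simp
        _ = 0 := by rw [Finset.sum_add_distrib, h1, h2, add_zero]
  smul_mem' := by
    rintro c f ⟨hf, hf2⟩
    refine ⟨?_, ?_⟩
    · intro z
      simp only [Pi.smul_apply, smul_eq_mul, ← Finset.mul_sum]
      rw [hf z]
      ring
    · intro z
      have h1 := hf2 z
      calc ∑ k : unitary ℍ[ZMod M], (if SP_rU hd k = 1 then (c • f) (z * k) else 0)
          = ∑ k : unitary ℍ[ZMod M], c * (if SP_rU hd k = 1 then f (z * k) else 0) := by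
            apply Finset.sum_congr rfl
            intro k _
            split_ifs
            · rfl
            · simp
        _ = 0 := by rw [← Finset.mul_sum, h1, mul_zero]

lemma SP_trans (hM : Nat.Coprime q M) (hd : M' ∣ M) (μ : ℝ) (f : unitary ℍ[ZMod M] → ℂ)
    (hf : f ∈ SP_V hM hd μ) (g : unitary ℍ[ZMod M]) :
    (fun z => f (z * g)) ∈ SP_V hM hd μ := by
  classical
  obtain ⟨h1, h2⟩ := hf
  refine ⟨?_, ?_⟩
  · intro z
    have := h1 (z * g)
    simp only [← mul_assoc] at this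
    exact this
  · intro z
    have h3 := h2 (z * g)
    refine Eq.trans ?_ h3
    refine Fintype.sum_equiv (MulAut.conj g⁻¹).toEquiv _ _ ?_
    intro k
    have e1 : (MulAut.conj g⁻¹).toEquiv k = g⁻¹ * k * g := by
      simp
    rw [e1]
    have e2 : (SP_rU hd (g⁻¹ * k * g) = 1) ↔ (SP_rU hd k = 1) := by
      rw [map_mul, map_mul, map_inv]
      constructor
      · intro h
        have : SP_rU hd k = SP_rU hd g * ((SP_rU hd g)⁻¹ * SP_rU hd k * SP_rU hd g) *
          (SP_rU hd g)⁻¹ := by group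
        rw [this, h]
        group
      · intro h
        rw [h]
        group
    have e3 : z * g * (g⁻¹ * k * g) = z * k * g := by group
    rw [e3]
    by_cases h : SP_rU hd k = 1
    · rw [if_pos h, if_pos (e2.2 h)]
    · rw [if_neg h, if_neg (fun h' => h (e2.1 h'))]

/-- right translation on the eigenspace -/
def SP_rho (hM : Nat.Coprime q M) (hd : M' ∣ M) (μ : ℝ) {G : Type}
    [Group G] (θ : G →* unitary ℍ[ZMod M]) : G →* (SP_V hM hd μ →ₗ[ℂ] SP_V hM hd μ) where
  toFun g :=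
    { toFun := fun f => ⟨fun z => f.1 (z * θ g), SP_trans hM hd μ f.1 f.2 (θ g)⟩
      map_add' := fun f g => rfl
      map_smul' := fun c f => rfl }
  map_one' := by
    ext f z
    simp
  map_mul' g g' := by
    ext f z
    simp [mul_assoc]

open Classical in
lemma SP_diff (hM : Nat.Coprime q M) (hd : M' ∣ M) (μ : ℝ) (f : unitary ℍ[ZMod M] → ℂ)
    (hf : ∀ z, ∑ b' : SS q, ∑ b : SS q, f (uM M hM b' b * z) = (μ : ℂ) * f z)
    (x g : unitary ℍ[ZMod M]) (hg : SP_rU hd g = 1) (hne : f (x * g) ≠ f x) :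
    ∃ f' ∈ SP_V hM hd μ, f' (x * g) ≠ f' x := by
  set c : ℂ := ∑ k : unitary ℍ[ZMod M], (if SP_rU hd k = 1 then (1 : ℂ) else 0) with hc
  set A : unitary ℍ[ZMod M] → ℂ := fun z => ∑ k : unitary ℍ[ZMod M],
    (if SP_rU hd k = 1 then f (z * k) else 0) with hA
  have hAinv : ∀ z k, SP_rU hd k = 1 → A (z * k) = A z := by
    intro z k hk
    refine Fintype.sum_equiv (Equiv.mulLeft k) _ _ ?_
    intro l
    have e2 : (SP_rU hd (k * l) = 1) ↔ (SP_rU hd l = 1) := by
      rw [map_mul, hk, one_mul]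
    have e3 : (if SP_rU hd l = 1 then f (z * k * l) else 0) =
        (if SP_rU hd (k * l) = 1 then f (z * (k * l)) else 0) := by
      rw [← mul_assoc]
      by_cases h : SP_rU hd l = 1
      · rw [if_pos h, if_pos (e2.2 h)]
      · rw [if_neg h, if_neg (fun h' => h (e2.1 h'))]
    exact e3
  have hc0 : c ≠ 0 := by
    have h1 : c = ((Finset.univ.filter fun k : unitary ℍ[ZMod M] => SP_rU hd k = 1).card : ℂ) := by
      rw [hc, Finset.sum_boole]
    rw [h1, Nat.cast_ne_zero, ← Nat.pos_iff_ne_zero, Finset.card_pos]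
    exact ⟨1, by simp⟩
  refine ⟨fun z => c * f z - A z, ⟨?_, ?_⟩, ?_⟩
  · intro z
    have h1 : ∑ b' : SS q, ∑ b : SS q, A (uM M hM b' b * z) = (μ : ℂ) * A z := by
      have h2 : ∀ b' b : SS q, A (uM M hM b' b * z) = ∑ k : unitary ℍ[ZMod M],
          (if SP_rU hd k = 1 then f (uM M hM b' b * (z * k)) else 0) := by
        intro b' b
        simp only [hA, mul_assoc]
      calc ∑ b' : SS q, ∑ b : SS q, A (uM M hM b' b * z)
          = ∑ b' : SS q, ∑ b : SS q, ∑ k : unitary ℍ[ZMod M],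
          (if SP_rU hd k = 1 then f (uM M hM b' b * (z * k)) else 0) :=
            Finset.sum_congr rfl fun b' _ => Finset.sum_congr rfl fun b _ => h2 b' b
        _ = ∑ b' : SS q, ∑ k : unitary ℍ[ZMod M], ∑ b : SS q,
          (if SP_rU hd k = 1 then f (uM M hM b' b * (z * k)) else 0) :=
            Finset.sum_congr rfl fun b' _ => Finset.sum_comm
        _ = ∑ k : unitary ℍ[ZMod M], ∑ b' : SS q, ∑ b : SS q,
          (if SP_rU hd k = 1 then f (uM M hM b' b * (z * k)) else 0) := Finset.sum_comm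
        _ = ∑ k : unitary ℍ[ZMod M], (μ : ℂ) * (if SP_rU hd k = 1 then f (z * k) else 0) := by
            apply Finset.sum_congr rfl
            intro k _
            by_cases h : SP_rU hd k = 1
            · simp only [if_pos h]
              exact hf (z * k)
            · simp only [if_neg h]
              simp
        _ = (μ : ℂ) * A z := by rw [← Finset.mul_sum]
    simp only [Finset.sum_sub_distrib, ← Finset.mul_sum]
    rw [hf z, h1]
    ring
  · intro z
    have h1 : ∀ k : unitary ℍ[ZMod M], (if SP_rU hd k = 1 then c * f (z * k) - A (z * k) else 0) =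
        c * (if SP_rU hd k = 1 then f (z * k) else 0) -
          (if SP_rU hd k = 1 then (1 : ℂ) else 0) * A z := by
      intro k
      by_cases h : SP_rU hd k = 1
      · rw [if_pos h, if_pos h, if_pos h, hAinv z k h, one_mul]
      · rw [if_neg h, if_neg h, if_neg h]
        ring
    rw [Finset.sum_congr rfl fun k _ => h1 k, Finset.sum_sub_distrib, ← Finset.mul_sum,
      ← Finset.sum_mul]
    show c * A z - c * A z = 0
    ring
  · intro h
    apply hne
    have h1 : c * f (x * g) - A (x * g) = c * f x - A x := h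
    rw [hAinv x g hg] at h1
    have h2 : c * f (x * g) = c * f x := by linear_combination h1
    exact mul_left_cancel₀ hc0 h2

end SPmain

theorem SP_thm (hDL : Stmt_DL) (hiso : Stmt_iso) (hTL : Stmt_TL) (hcardU : Stmt_cardU) :
    SQ_SP := by
  intro q hq hq4 p R r hp hp2 hrR _ hM μ f hf hne
  classical
  have hpr : NeZero (p ^ r) := ⟨by have := hp.pos; positivity⟩
  have hdr : p ^ r ∣ p ^ R := pow_dvd_pow p hrR
  have hodd : Odd (p ^ R) := (hp.odd_of_ne_two hp2).pow
  obtain ⟨x0, g0, hg0, hne0⟩ := hne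
  obtain ⟨y0, hy0⟩ := hg0
  have hg1 : SP_rU hdr g0 = 1 := SP_cong hdr g0 y0 hy0
  obtain ⟨f', hf', hne'⟩ := SP_diff hM hdr μ f hf x0 g0 hg1 hne0
  obtain ⟨φ, hφ⟩ := hiso (p ^ R) hodd
  -- the isomorphism with `SL2`
  have hφ' : ∀ g : Matrix (Fin 2) (Fin 2) (ZMod (p ^ R)),
      Quaternion.normSq (φ.symm g) = g.det := by
    intro g
    rw [← hφ, RingEquiv.apply_symm_apply]
  let θ : Matrix.SpecialLinearGroup (Fin 2) (ZMod (p ^ R)) →* unitary ℍ[ZMod (p ^ R)] :=
    { toFun := fun g => ⟨φ.symm g, (mem_unitary_iff _).2 (by rw [hφ']; exact g.2)⟩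
      map_one' := Subtype.ext (by simp)
      map_mul' := fun g g' => Subtype.ext (by simp) }
  have hθ : ∀ x : unitary ℍ[ZMod (p ^ R)],
      ∃ g : Matrix.SpecialLinearGroup (Fin 2) (ZMod (p ^ R)),
      (g : Matrix (Fin 2) (Fin 2) (ZMod (p ^ R))) = φ (x : ℍ[ZMod (p ^ R)]) ∧ θ g = x := by
    intro x
    refine ⟨⟨φ (x : ℍ[ZMod (p ^ R)]), by rw [hφ]; exact (mem_unitary_iff _).1 x.2⟩, rfl, ?_⟩
    apply Subtype.ext
    show φ.symm (φ (x : ℍ[ZMod (p ^ R)])) = x
    rw [RingEquiv.symm_apply_apply]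
  obtain ⟨M', hd, hM'1, W, hWinv, hWdim⟩ := hDL (p ^ R) hodd (SP_V hM hdr μ)
    (SP_rho hM hdr μ θ) (by
      obtain ⟨g', -, hg'⟩ := hθ g0
      refine ⟨g', ⟨f', hf'⟩, fun h => hne' ?_⟩
      have h1 := congrFun (congrArg Subtype.val h) x0
      have h2 : f' (x0 * θ g') = f' x0 := h1
      rw [hg'] at h2
      exact h2)
  obtain ⟨i, hiR, hi⟩ := (Nat.dvd_prime_pow hp).1 hd
  subst hi
  have hne' : NeZero (p ^ i) := ⟨by have := hp.pos; positivity⟩
  have hM' : Nat.Coprime q (p ^ i) := Nat.Coprime.coprime_dvd_right hd hM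
  have hodd' : Odd (p ^ i) := (hp.odd_of_ne_two hp2).pow
  have hi0 : i ≠ 0 := by
    rintro rfl
    simp at hM'1
  have hpf : (p ^ i).primeFactors.card = 1 := by
    rw [Nat.primeFactors_prime_pow hi0 hp, Finset.card_singleton]
  -- invariance of the elements of `W`
  have hinv : ∀ w ∈ W, ∀ (x k : unitary ℍ[ZMod (p ^ R)]), SP_rU hd k = 1 →
      w.1 (x * k) = w.1 x := by
    intro w hw x k hk
    obtain ⟨g, hg1, hg2⟩ := hθ k
    obtain ⟨u, hu⟩ := SP_ker hd k hk
    have h1 := hWinv w hw g ⟨φ u, by rw [hg1, hu, map_add, map_one, map_mul, map_natCast]⟩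
    have h2 : w.1 (x * θ g) = w.1 x := congrFun (congrArg Subtype.val h1) x
    rw [hg2] at h2
    exact h2
  -- the level is beyond `r`
  have hri : r < i := by
    by_contra hcon
    push Not at hcon
    have hW0 : ∀ w ∈ W, w = 0 := by
      intro w hw
      apply Subtype.ext
      funext x
      have h1 := w.2.2 x
      have h2 : ∀ k : unitary ℍ[ZMod (p ^ R)],
          (if SP_rU hdr k = 1 then w.1 (x * k) else 0) =
          (if SP_rU hdr k = 1 then (1 : ℂ) else 0) * w.1 x := by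
        intro k
        by_cases h : SP_rU hdr k = 1
        · rw [if_pos h, if_pos h, one_mul]
          exact hinv w hw x k (SP_mono hdr hd (pow_dvd_pow p hcon) k h)
        · rw [if_neg h, if_neg h, zero_mul]
      rw [Finset.sum_congr rfl fun k _ => h2 k, ← Finset.sum_mul, mul_eq_zero] at h1
      rcases h1 with h1 | h1
      · exfalso
        rw [Finset.sum_boole, Nat.cast_eq_zero, Finset.card_eq_zero] at h1
        have : (1 : unitary ℍ[ZMod (p ^ R)]) ∈
            Finset.univ.filter (fun k : unitary ℍ[ZMod (p ^ R)] => SP_rU hdr k = 1) := by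
          simp
        rw [h1] at this
        exact absurd this (Finset.notMem_empty _)
      · exact h1
    have hWbot : W = ⊥ := (Submodule.eq_bot_iff W).2 hW0
    rw [hWbot, finrank_bot, mul_zero] at hWdim
    have := Nat.totient_pos.2 (by have := hp.pos; positivity : 0 < p ^ i)
    omega
  refine ⟨i, hri, hiR, fun j => ?_⟩
  -- transfer to `p ^ i`
  let L : W →ₗ[ℂ] (unitary ℍ[ZMod (p ^ i)] → ℂ) :=
    (SP_ext hd).comp ((SP_V hM hdr μ).subtype.comp W.subtype)
  have hL : Function.Injective L := by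
    rw [injective_iff_map_eq_zero]
    intro w hw
    apply Subtype.ext
    apply Subtype.ext
    funext z
    have h1 := SP_ext_on hd w.1.1 (hinv w.1 w.2) z
    have h2 : SP_ext hd w.1.1 (SP_rU hd z) = 0 := congrFun hw (SP_rU hd z)
    rw [h2] at h1
    exact h1.symm
  have hdim : Module.finrank ℂ (LinearMap.range L) = Module.finrank ℂ W :=
    LinearMap.finrank_range_of_inj hL
  -- the eigenvalue equation
  have heig : ∀ f ∈ LinearMap.range L, ∀ z, ∑ i : SS q × SS q, f (SP_u hM' i z) =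
      (μ : ℂ) * f z := by
    rintro _ ⟨w, rfl⟩ z
    have hz : ∀ i : SS q × SS q, SP_u hM' i z = uM (p ^ _) hM' i.1 i.2 * z := fun i => rfl
    by_cases h : ∃ x, SP_rU hd x = z
    · obtain ⟨x, hx⟩ := h
      have h1 : L w z = w.1.1 x := by
        rw [← hx]
        exact SP_ext_on hd w.1.1 (hinv w.1 w.2) x
      have h2 : ∀ i : SS q × SS q, L w (SP_u hM' i z) =
          w.1.1 (uM (p ^ R) hM i.1 i.2 * x) := by
        intro i
        rw [hz, ← hx, ← SP_rU_uM hd hM hM', ← map_mul]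
        exact SP_ext_on hd w.1.1 (hinv w.1 w.2) _
      rw [h1, Finset.sum_congr rfl (fun i _ => h2 i), Fintype.sum_prod_type]
      exact w.1.2.1 x
    · have h1 : L w z = 0 := SP_ext_off hd w.1.1 z h
      rw [h1, mul_zero]
      apply Finset.sum_eq_zero
      intro i _
      apply SP_ext_off
      rintro ⟨x, hx⟩
      apply h
      refine ⟨(uM (p ^ R) hM i.1 i.2)⁻¹ * x, ?_⟩
      rw [map_mul, map_inv, hx, SP_rU_uM hd hM hM', hz, inv_mul_cancel_left]
  have hT := hTL (unitary ℍ[ZMod (p ^ i)]) (SS q × SS q) (SP_u hM')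
    (fun i => (SP_star i.2, SP_star i.1))
    (fun i => by simp only [SP_star_star]) (fun i => SP_u_inv hM' i) j μ
    (LinearMap.range L) heig
  rw [hdim] at hT
  have hc : ∀ z : unitary ℍ[ZMod (p ^ i)], (Nat.card {w : Fin (2 * j) → SS q × SS q //
      (List.ofFn fun i => SP_u hM' (w i)).prod z = z} : ℝ) ≤ (WW q (p ^ i) (4 * j) : ℝ) := by
    intro z
    have h1 := SP_count (n := 2 * j) hM' z
    have h2 : 2 * j * 2 = 4 * j := by ring
    rw [h2] at h1
    exact_mod_cast h1
  have hT2 : (Module.finrank ℂ W : ℝ) * μ ^ (2 * j) ≤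
      ((p ^ i : ℕ) : ℝ) ^ 3 * (WW q (p ^ i) (4 * j) : ℝ) := by
    refine hT.trans ((Finset.sum_le_sum fun z _ => hc z).trans ?_)
    rw [Finset.sum_const, nsmul_eq_mul, Finset.card_univ]
    have h3 : (Fintype.card (unitary ℍ[ZMod (p ^ i)]) : ℝ) ≤ ((p ^ i : ℕ) : ℝ) ^ 3 := by
      exact_mod_cast hcardU (p ^ i) hodd'
    gcongr
  have hμ : 0 ≤ μ ^ (2 * j) := by rw [pow_mul]; positivity
  rw [hpf, pow_one] at hWdim
  have hW2 : ((p ^ i).totient : ℝ) ≤ 2 * (Module.finrank ℂ W : ℝ) := by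
    exact_mod_cast hWdim
  calc ((p ^ i).totient : ℝ) * μ ^ (2 * j)
      ≤ (2 * (Module.finrank ℂ W : ℝ)) * μ ^ (2 * j) := by gcongr
    _ = 2 * ((Module.finrank ℂ W : ℝ) * μ ^ (2 * j)) := by ring
    _ ≤ _ := by gcongr

end TauO
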