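import Mathlib
import Pool.Agent.Work.MP_972ac7_od.Interface

/-!
# Block VV: the VH datum of two odd primes
-/

open scoped Quaternion BigOperators

namespace TauO

open TauQ

/-- elements of `OO` of norm `n` -/
def VV_T (n : ℤ) : Type := {α : ℍ[ℤ] // α ∈ TauO.OO ∧ Quaternion.normSq α = n}

lemma VV_not_dvd {r s : ℕ} (hr : r.Prime) (hs : s.Prime) (hrs : r ≠ s) {α : ℍ[ℤ]}
    (hN : Quaternion.normSq α = (r : ℤ) * s) (γ : ℍ[ℤ]) : α ≠ (r : ℍ[ℤ]) * γ := by
  intro h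
  rw [h, map_mul, Quaternion.normSq_natCast] at hN
  have hr0 : (r : ℤ) ≠ 0 := by exact_mod_cast hr.ne_zero
  have h1 : (r : ℤ) * Quaternion.normSq γ = s := by
    apply mul_left_cancel₀ hr0
    rw [← hN]; ring
  have h2 : (r : ℤ) ∣ (s : ℤ) := ⟨_, h1.symm⟩
  have h3 : r ∣ s := by exact_mod_cast h2
  exact hrs ((Nat.prime_dvd_prime_iff_eq hr hs).1 h3)

lemma VV_mem_of_mul {c : ℤ} (hc : c % 4 = 1) {γ : ℍ[ℤ]} (h : (c : ℍ[ℤ]) * γ ∈ TauO.OO) :
    γ ∈ TauO.OO := by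
  rw [TauO.mem_OO] at h ⊢
  simp only [Quaternion.re_mul, Quaternion.imI_mul, Quaternion.imJ_mul, Quaternion.imK_mul,
    Quaternion.re_intCast, Quaternion.imI_intCast, Quaternion.imJ_intCast,
    Quaternion.imK_intCast, zero_mul, sub_zero, add_zero] at h
  obtain ⟨d, hd⟩ : ∃ d, c = 4 * d + 1 := ⟨c / 4, by omega⟩
  have e : ∀ x : ℤ, c * x = 4 * (d * x) + x := fun x => by rw [hd]; ring
  simp only [Int.cast_id] at h
  rw [e, e, e, e] at h
  rcases h with ⟨h0, h1, h2, h3⟩ | ⟨h0, h1, h2, h3, h4⟩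
  · left
    refine ⟨?_, ?_, ?_, ?_⟩ <;> omega
  · right
    refine ⟨?_, ?_, ?_, ?_, ?_⟩ <;> omega

lemma VV_pst {r : ℕ} (hr : r.Prime) (hr2 : r ≠ 2) : pst r % 4 = 1 := by
  have h1 : r % 2 = 1 := by
    rcases hr.eq_two_or_odd with h | h
    · exact absurd h hr2
    · exact h
  rcases (by omega : r % 4 = 1 ∨ r % 4 = 3) with h | h
  · rw [pst, eps_one h]
    omega
  · rw [pst, eps_three h]
    omega

/-- multiplication -/
def VV_mul (r s : ℕ) (n : ℤ) (hn : n = (r : ℤ) * s) (x : TauO.SS r × TauO.SS s) : VV_T n :=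
  ⟨x.1.val * x.2.val, TauO.OO.mul_mem x.1.mem x.2.mem, by rw [map_mul, x.1.norm, x.2.norm, hn]⟩

lemma VV_bij (h1 : TauO.Stmt_exists) (h2 : TauO.Stmt_unique) {r s : ℕ} (hr : r.Prime)
    (hs : s.Prime) (hr2 : r ≠ 2) (hrs : r ≠ s) (n : ℤ) (hn : n = (r : ℤ) * s) :
    Function.Bijective (VV_mul r s n hn) := by
  have hrz : (r : ℤ) ≠ 0 := by exact_mod_cast hr.ne_zero
  constructor
  · rintro ⟨β, γ⟩ ⟨β', γ'⟩ h
    have h' : β.val * γ.val = β'.val * γ'.val := congrArg Subtype.val h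
    have hN : Quaternion.normSq (β.val * γ.val) = (r : ℤ) * s := by
      rw [map_mul, β.norm, γ.norm]
    have e : β = β' := (h2 r hr hr2).2 β β' γ.val γ'.val (VV_not_dvd hr hs hrs hN) h'
    subst e
    have hβ : β.val ≠ 0 := by
      intro h0
      have := β.norm
      rw [h0, map_zero] at this
      exact hrz this.symm
    have e2 : γ = γ' := TauO.SS.ext (mul_left_cancel₀ hβ h')
    rw [e2]
  · rintro ⟨α, hα, hN⟩
    have hN' : Quaternion.normSq α = (r : ℤ) * s := by rw [hN, hn]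
    obtain ⟨β, γ, hβ⟩ := h1 r hr hr2 α (VV_not_dvd hr hs hrs hN') ⟨s, hN'⟩
    have hγ : Quaternion.normSq γ = (s : ℤ) := by
      rw [hβ, map_mul, β.norm] at hN'
      exact mul_left_cancel₀ hrz hN'
    have hm : γ ∈ TauO.OO := by
      apply VV_mem_of_mul (VV_pst hr hr2)
      have : ((pst r : ℤ) : ℍ[ℤ]) * γ = β.inv.val * α := by
        rw [hβ, ← mul_assoc, TauO.SS.inv_mul]
      rw [this]
      exact TauO.OO.mul_mem β.inv.mem hα
    exact ⟨(β, ⟨γ, hm, hγ⟩), Subtype.ext hβ.symm⟩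

lemma VV_alg1 {r s : ℕ} (hr : r ≠ 0) (a a' : TauO.SS r) (b b' : TauO.SS s)
    (h : a.val * b.val = b'.val * a'.val) :
    a.inv.val * b'.val = b.val * a'.inv.val := by
  have hp0 : pst r ≠ 0 := by
    intro h0
    have h1 := pst_sq r
    rw [h0, zero_mul] at h1
    have h2 : (r : ℤ) ≠ 0 := by exact_mod_cast hr
    exact (mul_ne_zero h2 h2) h1.symm
  have hr0 : ((pst r : ℤ) : ℍ[ℤ]) ≠ 0 := by
    intro h0
    have := congrArg (fun y : ℍ[ℤ] => y.re) h0
    simp only [Quaternion.re_intCast, Quaternion.re_zero] at this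
    exact hp0 this
  apply mul_left_cancel₀ hr0
  calc ((pst r : ℤ) : ℍ[ℤ]) * (a.inv.val * b'.val) = a.inv.val * b'.val * ((pst r : ℤ) : ℍ[ℤ]) :=
        (Int.cast_commute (pst r) _).eq
    _ = a.inv.val * b'.val * (a'.val * a'.inv.val) := by rw [TauO.SS.mul_inv]
    _ = a.inv.val * (b'.val * a'.val) * a'.inv.val := by simp only [mul_assoc]
    _ = a.inv.val * (a.val * b.val) * a'.inv.val := by rw [h]
    _ = (a.inv.val * a.val) * (b.val * a'.inv.val) := by simp only [mul_assoc]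
    _ = ((pst r : ℤ) : ℍ[ℤ]) * (b.val * a'.inv.val) := by rw [TauO.SS.inv_mul]

/-- VV -/
theorem VV_thm (h1 : TauO.Stmt_exists) (h2 : TauO.Stmt_unique) : TauO.Stmt_vh := by
  intro p q hp hq hp2 hq2 hpq
  let e1 : TauO.SS p × TauO.SS q ≃ VV_T ((p : ℤ) * q) :=
    Equiv.ofBijective _ (VV_bij h1 h2 hp hq hp2 hpq ((p : ℤ) * q) rfl)
  let e2 : TauO.SS q × TauO.SS p ≃ VV_T ((p : ℤ) * q) :=
    Equiv.ofBijective _ (VV_bij h1 h2 hq hp hq2 hpq.symm ((p : ℤ) * q) (mul_comm _ _))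
  let f : TauO.SS p × TauO.SS q ≃ TauO.SS q × TauO.SS p := e1.trans e2.symm
  have hf : ∀ x : TauO.SS p × TauO.SS q, x.1.val * x.2.val = (f x).1.val * (f x).2.val := by
    intro x
    have : e2 (f x) = e1 x := by simp [f]
    exact (congrArg Subtype.val this).symm
  have hf' : ∀ (x : TauO.SS p × TauO.SS q) (y : TauO.SS q × TauO.SS p),
      x.1.val * x.2.val = y.1.val * y.2.val → f x = y := by
    intro x y h
    have : e1 x = e2 y := Subtype.ext h
    simp [f, this]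
  refine ⟨{ invA := TauO.SS.inv, invB := TauO.SS.inv, vh := f, invA_invA := TauO.SS.inv_inv,
            invB_invB := TauO.SS.inv_inv, h1 := ?_, h2 := ?_ }, ?_, ?_, ?_⟩
  · intro a b
    apply hf'
    exact VV_alg1 hp.ne_zero a _ b _ (hf (a, b))
  · intro a b
    apply hf'
    have h3 : (f (a, b)).1.val * (f (a, b)).2.val = a.val * b.val := (hf (a, b)).symm
    exact (VV_alg1 hq.ne_zero (f (a, b)).1 b (f (a, b)).2 a h3).symm
  · intro a; rfl
  · intro b; rfl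
  · intro a b; exact hf (a, b)

end TauO
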