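import Mathlib
import Pool.Agent.Work.MP_972ac7_od.Interface
import Pool.Agent.Work.MP_972ac7_tq.WC

/-!
# Block WC (all odd primes): words of length `2k` whose product is a scalar modulo `M`
-/

open scoped Quaternion BigOperators

namespace TauO

open TauQ

/-- the product of a word -/
noncomputable def WCo_pr {q L : ℕ} (w : Fin L → SS q) : ℍ[ℤ] :=
  (List.ofFn fun i => (w i).val).prod

lemma WCo_norm_pr {q L : ℕ} (w : Fin L → SS q) : Quaternion.normSq (WCo_pr w) = (q : ℤ) ^ L := by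
  unfold WCo_pr
  rw [map_list_prod, List.map_ofFn, List.prod_ofFn]
  simp only [Function.comp_apply, SS.norm, Finset.prod_const, Finset.card_univ, Fintype.card_fin]

theorem WC_thm (h1 : SQ_WK) (h2 : TauQ.Stmt_count) : SQ_WC := by
  intro η hη
  obtain ⟨C, hC, hcount⟩ := h2 η hη
  refine ⟨C, hC, ?_⟩
  intro q M k hq hq4 hM hMq
  have hq2 : 2 ≤ q := hq.two_le
  have hcopq : Nat.Coprime M q := Nat.Coprime.coprime_mul_left_right hMq
  -- the sets
  let T : ℕ → Type := fun s => {α : ℍ[ℤ] // Quaternion.normSq α = (q : ℤ) ^ (2 * (k - s)) ∧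
      (M : ℤ) ∣ α.imI ∧ (M : ℤ) ∣ α.imJ ∧ (M : ℤ) ∣ α.imK}
  have hTfin : ∀ s, Finite (T s) := by
    intro s
    have := WC_finite (q ^ (2 * (k - s))) (fun α => (M : ℤ) ∣ α.imI ∧ (M : ℤ) ∣ α.imJ ∧
      (M : ℤ) ∣ α.imK)
    push_cast at this
    exact this
  let Bt : (s : ℕ) → T s → Type := fun s γ => {w : Fin (2 * k) → SS q //
    (∀ δ : ℍ[ℤ], γ.1 ≠ (q : ℍ[ℤ]) * δ) ∧ WCo_pr w = ((q ^ s : ℕ) : ℍ[ℤ]) * γ.1}
  have hBcard : ∀ (s : ℕ) (γ : T s), Nat.card (Bt s γ) ≤ (2 * k).choose s * q ^ s := by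
    intro s γ
    by_cases hprim : ∀ δ : ℍ[ℤ], γ.1 ≠ (q : ℍ[ℤ]) * δ
    · have h3 := h1 q hq hq4 (2 * k) s γ.1 hprim
      refine le_trans ?_ h3
      exact Nat.card_le_card_of_injective
        (fun w : Bt s γ => (⟨w.1, w.2.2⟩ : {w : Fin (2 * k) → SS q //
          (List.ofFn fun i => (w i).val).prod = ((q ^ s : ℕ) : ℍ[ℤ]) * γ.1}))
        (by
          intro a b hab
          have hab' : a.1 = b.1 := by
            have h5 := congrArg (fun z : {w : Fin (2 * k) → SS q //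
              (List.ofFn fun i => (w i).val).prod = ((q ^ s : ℕ) : ℍ[ℤ]) * γ.1} => z.1) hab
            exact h5
          exact Subtype.ext hab')
    · have : IsEmpty (Bt s γ) := ⟨fun w => hprim w.2.1⟩
      rw [Nat.card_of_isEmpty]
      exact Nat.zero_le _
  have hfinT : ∀ s : Fin (k + 1), Fintype (T s) := fun s => by
    have := hTfin s
    exact Fintype.ofFinite _
  -- the injection
  have hexist : ∀ w : {w : Fin (2 * k) → SS q // (M : ℤ) ∣ (WCo_pr w).imI ∧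
      (M : ℤ) ∣ (WCo_pr w).imJ ∧ (M : ℤ) ∣ (WCo_pr w).imK},
      ∃ x : (Σ s : Fin (k + 1), Σ γ : T s, Bt s γ), x.2.2.1 = w.1 := by
    rintro ⟨w, hw1, hw2, hw3⟩
    obtain ⟨s, hs, γ, h3, h4, h5⟩ := WC_decomp hq2 k (WCo_pr w) (WCo_norm_pr w)
    have hcop : IsCoprime (M : ℤ) ((q ^ s : ℕ) : ℤ) :=
      Nat.Coprime.isCoprime (Nat.Coprime.pow_right s hcopq)
    obtain ⟨-, c1, c2, c3⟩ := WC_natCast_mul (q ^ s) γ
    rw [h4, c1] at hw1
    rw [h4, c2] at hw2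
    rw [h4, c3] at hw3
    exact ⟨⟨⟨s, by omega⟩, ⟨γ, h5, hcop.dvd_of_dvd_mul_left hw1, hcop.dvd_of_dvd_mul_left hw2,
      hcop.dvd_of_dvd_mul_left hw3⟩, ⟨w, h3, h4⟩⟩, rfl⟩
  choose f hf using hexist
  have hinj : Function.Injective f := by
    intro a b hab
    apply Subtype.ext
    rw [← hf a, ← hf b, hab]
  have hfin2 : ∀ s : Fin (k + 1), Finite (Σ γ : T s, Bt s γ) := by
    intro s
    have := hTfin s
    infer_instance
  have hle : WW q M (2 * k) ≤ ∑ s : Fin (k + 1), Nat.card (T s) * ((2 * k).choose s * q ^ (s : ℕ)) := by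
    have e1 : WW q M (2 * k) ≤ Nat.card (Σ s : Fin (k + 1), Σ γ : T s, Bt s γ) :=
      Nat.card_le_card_of_injective f hinj
    refine e1.trans ?_
    rw [Nat.card_sigma]
    apply Finset.sum_le_sum
    intro s _
    have hF := hfinT s
    rw [Nat.card_sigma]
    refine (Finset.sum_le_card_nsmul _ _ ((2 * k).choose s * q ^ (s : ℕ)) (fun γ _ => hBcard s γ)).trans ?_
    rw [smul_eq_mul, Finset.card_univ, Nat.card_eq_fintype_card]
  have hle2 : (WW q M (2 * k) : ℝ) ≤ ∑ s : Fin (k + 1), ((2 * k).choose (s : ℕ) : ℝ) * (q : ℝ) ^ (s : ℕ) *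
      (2 + C * ((q : ℝ) ^ (k - (s : ℕ)) / (M : ℝ) ^ 2 + 1) * ((q : ℝ) ^ (k - (s : ℕ)) / M) *
        ((q : ℝ) ^ (k - (s : ℕ))) ^ η) := by
    have h6 : (WW q M (2 * k) : ℝ) ≤
        ((∑ s : Fin (k + 1), Nat.card (T s) * ((2 * k).choose s * q ^ (s : ℕ)) : ℕ) : ℝ) := by
      exact_mod_cast hle
    refine h6.trans ?_
    rw [Nat.cast_sum]
    apply Finset.sum_le_sum
    intro s _
    push_cast
    rw [mul_comm]
    apply mul_le_mul_of_nonneg_left _ (by positivity)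
    exact hcount q M (k - s) hq2 hM hMq
  refine hle2.trans ?_
  rw [Fin.sum_univ_eq_sum_range (fun s => ((2 * k).choose s : ℝ) * (q : ℝ) ^ s *
      (2 + C * ((q : ℝ) ^ (k - s) / (M : ℝ) ^ 2 + 1) * ((q : ℝ) ^ (k - s) / M) *
        ((q : ℝ) ^ (k - s)) ^ η)) (k + 1)]
  exact WC_sum q k hq2 C η hC hη M hM

end TauO
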