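import Mathlib
import Pool.Agent.Work.MP_972ac7_od.Interface

/-!
# Block WK (all odd primes): number of factorizations into elements of norm `q`, sharp
-/

open scoped Quaternion BigOperators Matrix ComplexOrder

namespace TauO

open TauQ

lemma WK_star_mul {q : ℕ} (b : SS q) : star b.val * b.val = (q : ℍ[ℤ]) := by
  rw [Quaternion.star_mul_self, b.norm]
  rfl

lemma WK_mul_star {q : ℕ} (b : SS q) : b.val * star b.val = (q : ℍ[ℤ]) := by
  rw [Quaternion.self_mul_star, b.norm]
  rfl

lemma WK_cancel {q : ℕ} (hq : q ≠ 0) {x y : ℍ[ℤ]} (h : (q : ℍ[ℤ]) * x = (q : ℍ[ℤ]) * y) :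
    x = y := by
  have h0 : (q : ℍ[ℤ]) ≠ 0 := by
    intro h'
    have := congrArg (fun y : ℍ[ℤ] => y.re) h'
    simp only [Quaternion.re_natCast, Quaternion.re_zero] at this
    exact hq (by exact_mod_cast this)
  exact mul_left_cancel₀ h0 h

/-- the product of a word -/
noncomputable def WK_pr {q L : ℕ} (w : Fin L → SS q) : ℍ[ℤ] :=
  (List.ofFn fun i => (w i).val).prod

lemma WK_pr_cons {q L : ℕ} (b : SS q) (w : Fin L → SS q) :
    WK_pr (Fin.cons b w : Fin (L + 1) → SS q) = b.val * WK_pr w := by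
  unfold WK_pr
  rw [List.ofFn_succ, List.prod_cons]
  simp only [Fin.cons_zero, Fin.cons_succ]

lemma WK_split {q L : ℕ} (P : (Fin (L + 1) → SS q) → Prop) :
    Nat.card {w : Fin (L + 1) → SS q // P w} =
      ∑ b : SS q, Nat.card {w' : Fin L → SS q // P (Fin.cons b w')} := by
  have e : {w : Fin (L + 1) → SS q // P w} ≃
      Σ b : SS q, {w' : Fin L → SS q // P (Fin.cons b w')} :=
    { toFun := fun w => ⟨w.1 0, ⟨Fin.tail w.1, by rw [Fin.cons_self_tail]; exact w.2⟩⟩
      invFun := fun x => ⟨Fin.cons x.1 x.2.1, x.2.2⟩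
      left_inv := fun w => Subtype.ext (Fin.cons_self_tail _)
      right_inv := by
        rintro ⟨b, w', h⟩
        rfl }
  rw [Nat.card_congr e, Nat.card_sigma]

lemma WK_card_le_of_imp {q L : ℕ} {P P' : (Fin L → SS q) → Prop} (h : ∀ w, P w → P' w) :
    Nat.card {w : Fin L → SS q // P w} ≤ Nat.card {w : Fin L → SS q // P' w} :=
  Nat.card_le_card_of_injective (fun w => ⟨w.1, h _ w.2⟩) (by
    intro a b hab
    simp only [Subtype.mk.injEq] at hab
    exact Subtype.ext hab)

lemma WK_card_eq_zero {q L : ℕ} {P : (Fin L → SS q) → Prop} (h : ∀ w, ¬ P w) :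
    Nat.card {w : Fin L → SS q // P w} = 0 := by
  have : IsEmpty {w : Fin L → SS q // P w} := ⟨fun w => h _ w.2⟩
  exact Nat.card_of_isEmpty

lemma WK_norm {q L : ℕ} (w : Fin L → SS q) : Quaternion.normSq (WK_pr w) = ((q ^ L : ℕ) : ℤ) := by
  induction L with
  | zero => simp [WK_pr]
  | succ L ih =>
    have e : WK_pr w = (w 0).val * WK_pr (Fin.tail w) := by
      rw [← WK_pr_cons, Fin.cons_self_tail]
    rw [e, map_mul, ih, (w 0).norm, pow_succ]
    push_cast
    ring

/-- if there is a word and `q` does not divide the norm of `γ`, then `L = 2 s` -/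
lemma WK_len {q L s : ℕ} (hq : q.Prime) (γ : ℍ[ℤ]) (hn : ¬ (q : ℤ) ∣ Quaternion.normSq γ)
    (w : Fin L → SS q) (hw : WK_pr w = ((q ^ s : ℕ) : ℍ[ℤ]) * γ) : L = 2 * s := by
  have h1 := congrArg (fun x : ℍ[ℤ] => Quaternion.normSq x) hw
  simp only [map_mul, WK_norm, Quaternion.normSq_natCast] at h1
  have h2 : q ^ L = q ^ (2 * s) * (Quaternion.normSq γ).natAbs := by
    have h3 := congrArg Int.natAbs h1
    rw [Int.natAbs_natCast, Int.natAbs_mul, Int.natAbs_pow, Int.natAbs_natCast] at h3
    rw [h3, ← pow_mul, mul_comm s 2]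
  have h4 : (Quaternion.normSq γ).natAbs ∣ q ^ L := ⟨q ^ (2 * s), by rw [h2, mul_comm]⟩
  obtain ⟨i, -, hi⟩ := (Nat.dvd_prime_pow hq).1 h4
  have hi0 : i = 0 := by
    by_contra h
    apply hn
    rw [Int.natCast_dvd, hi]
    exact dvd_pow_self q h
  rw [hi, hi0, pow_zero, mul_one] at h2
  exact Nat.pow_right_injective hq.two_le h2

theorem WK_thm (h0 : Stmt_exists) (h1 : Stmt_unique) (h2 : Stmt_card) : SQ_WK := by
  intro q hq hq4 L
  have hq0 : q ≠ 0 := hq.ne_zero
  have hcard : Fintype.card (SS q) = q + 1 := h2 q hq hq4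
  obtain ⟨-, huniq⟩ := h1 q hq hq4
  change ∀ (s : ℕ) (γ : ℍ[ℤ]), (∀ δ : ℍ[ℤ], γ ≠ (q : ℍ[ℤ]) * δ) →
    Nat.card {w : Fin L → SS q // WK_pr w = ((q ^ s : ℕ) : ℍ[ℤ]) * γ} ≤ L.choose s * q ^ s
  induction L with
  | zero =>
    intro s γ _
    rcases Nat.eq_zero_or_pos s with hs | hs
    · subst hs
      have : Nat.card {w : Fin 0 → SS q // WK_pr w = ((q ^ 0 : ℕ) : ℍ[ℤ]) * γ} ≤ 1 := by
        rw [Finite.card_le_one_iff_subsingleton]
        constructor
        intro a b
        exact Subtype.ext (Subsingleton.elim _ _)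
      simpa using this
    · rw [WK_card_eq_zero]
      · exact Nat.zero_le _
      · intro w hw
        have e := congrArg (fun x : ℍ[ℤ] => Quaternion.normSq x) hw
        simp only [map_mul, WK_norm, Quaternion.normSq_natCast] at e
        have e2 : (q : ℤ) ∣ 1 := by
          have e3 : (q : ℤ) ∣ ((q ^ s : ℕ) : ℤ) ^ 2 * Quaternion.normSq γ := by
            apply Dvd.dvd.mul_right
            apply dvd_pow _ (by norm_num)
            rw [Nat.cast_pow]
            exact dvd_pow_self _ (by omega)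
          rw [← e] at e3
          simpa using e3
        have e4 := Int.natCast_dvd_natCast.1 (by simpa using e2 : (q : ℤ) ∣ ((1 : ℕ) : ℤ))
        exact hq.one_lt.ne' (Nat.dvd_one.1 e4)
  | succ L ih =>
    intro s γ hγ
    rw [WK_split]
    simp only [WK_pr_cons]
    -- nonzero divisibility
    have hcomm : ∀ (n : ℕ) (x : ℍ[ℤ]), (n : ℍ[ℤ]) * x = x * (n : ℍ[ℤ]) := fun n x =>
      (Nat.cast_commute n x).eq
    rcases Nat.eq_zero_or_pos s with hs | hs
    · subst hs
      simp only [pow_zero, Nat.cast_one, one_mul, mul_one]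
      -- at most one b contributes
      by_cases hex : ∃ b : SS q, ∃ w : Fin L → SS q, b.val * WK_pr w = γ
      · obtain ⟨b₀, w₀, hbw⟩ := hex
        have hz : ∀ b : SS q, b ≠ b₀ →
            Nat.card {w' : Fin L → SS q // b.val * WK_pr w' = γ} = 0 := by
          intro b hb
          apply WK_card_eq_zero
          intro w hw
          apply hb
          exact huniq b b₀ (WK_pr w) (WK_pr w₀) (fun δ => by rw [hw]; exact hγ δ)
            (by rw [hw, hbw])
        rw [Finset.sum_eq_single b₀ (fun b _ hb => hz b hb)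
          (fun h => absurd (Finset.mem_univ _) h)]
        have hprim : ∀ δ : ℍ[ℤ], WK_pr w₀ ≠ (q : ℍ[ℤ]) * δ := by
          intro δ hδ
          apply hγ (b₀.val * δ)
          rw [← hbw, hδ, hcomm, hcomm, mul_assoc]
        have h3 := ih 0 (WK_pr w₀) hprim
        have h4 : Nat.card {w' : Fin L → SS q // b₀.val * WK_pr w' = γ} ≤
            Nat.card {w : Fin L → SS q // WK_pr w = ((q ^ 0 : ℕ) : ℍ[ℤ]) * WK_pr w₀} := by
          apply WK_card_le_of_imp
          intro w hw
          rw [pow_zero, Nat.cast_one, one_mul]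
          apply WK_cancel hq0
          rw [← WK_star_mul b₀, mul_assoc, mul_assoc, hw, hbw]
        calc _ ≤ _ := h4
          _ ≤ L.choose 0 * q ^ 0 := h3
          _ ≤ (L + 1).choose 0 := by
            rw [pow_zero, mul_one, Nat.choose_zero_right, Nat.choose_zero_right]
      · push Not at hex
        rw [Finset.sum_eq_zero]
        · exact Nat.zero_le _
        · intro b _
          exact WK_card_eq_zero (hex b)
    · obtain ⟨s', rfl⟩ : ∃ s', s = s' + 1 := ⟨s - 1, by omega⟩
      -- reformulation for each b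
      have href : ∀ (b : SS q) (w : Fin L → SS q),
          b.val * WK_pr w = ((q ^ (s' + 1) : ℕ) : ℍ[ℤ]) * γ →
            WK_pr w = ((q ^ s' : ℕ) : ℍ[ℤ]) * (star b.val * γ) := by
        intro b w hw
        apply WK_cancel hq0
        have e1 : (q : ℍ[ℤ]) * WK_pr w = star b.val * (b.val * WK_pr w) := by
          rw [← WK_star_mul b, mul_assoc]
        rw [e1, hw, ← mul_assoc, ← hcomm, mul_assoc, ← mul_assoc (q : ℍ[ℤ])]
        congr 1
        rw [pow_succ, Nat.cast_mul, hcomm]
      have hdiv : ∀ (b : SS q) (γ₁ : ℍ[ℤ]), star b.val * γ = (q : ℍ[ℤ]) * γ₁ → γ = b.val * γ₁ := by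
        intro b γ₁ hb
        apply WK_cancel hq0
        have e1 : (q : ℍ[ℤ]) * γ = b.val * (star b.val * γ) := by
          rw [← WK_mul_star b, mul_assoc]
        rw [e1, hb, ← mul_assoc, ← hcomm, mul_assoc]
      have hprimcase : ∀ b : SS q, (∀ δ : ℍ[ℤ], star b.val * γ ≠ (q : ℍ[ℤ]) * δ) →
          Nat.card {w' : Fin L → SS q // b.val * WK_pr w' = ((q ^ (s' + 1) : ℕ) : ℍ[ℤ]) * γ}
            ≤ L.choose s' * q ^ s' := by
        intro b hb
        exact (WK_card_le_of_imp (href b)).trans (ih s' _ hb)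
      by_cases hex : ∃ (b : SS q) (γ₁ : ℍ[ℤ]), star b.val * γ = (q : ℍ[ℤ]) * γ₁
      · obtain ⟨b₀, γ₁, hb₀⟩ := hex
        have hγ₁ : γ = b₀.val * γ₁ := hdiv b₀ γ₁ hb₀
        have hprim₁ : ∀ δ : ℍ[ℤ], γ₁ ≠ (q : ℍ[ℤ]) * δ := by
          intro δ hδ
          apply hγ (b₀.val * δ)
          rw [hγ₁, hδ, ← mul_assoc, ← hcomm, mul_assoc]
        have hother : ∀ b : SS q, b ≠ b₀ → ∀ δ : ℍ[ℤ], star b.val * γ ≠ (q : ℍ[ℤ]) * δ := by
          intro b hb δ hδ
          apply hb
          have h5 := hdiv b δ hδ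
          exact huniq b b₀ δ γ₁ (fun δ' => by rw [← h5]; exact hγ δ') (by rw [← h5, ← hγ₁])
        have hfirst : Nat.card {w' : Fin L → SS q //
            b₀.val * WK_pr w' = ((q ^ (s' + 1) : ℕ) : ℍ[ℤ]) * γ} ≤ L.choose (s' + 1) * q ^ (s' + 1) := by
          refine (WK_card_le_of_imp (P' := fun w =>
            WK_pr w = ((q ^ (s' + 1) : ℕ) : ℍ[ℤ]) * γ₁) ?_).trans (ih (s' + 1) γ₁ hprim₁)
          intro w hw
          have h6 := href b₀ w hw
          rw [h6, hb₀, ← mul_assoc]
          congr 1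
          rw [pow_succ, Nat.cast_mul]
        classical
        rw [← Finset.add_sum_erase _ _ (Finset.mem_univ b₀)]
        have h7 : ∑ b ∈ Finset.univ.erase b₀, Nat.card {w' : Fin L → SS q //
            b.val * WK_pr w' = ((q ^ (s' + 1) : ℕ) : ℍ[ℤ]) * γ} ≤ q * (L.choose s' * q ^ s') := by
          refine (Finset.sum_le_card_nsmul _ _ (L.choose s' * q ^ s') ?_).trans ?_
          · intro b hb
            exact hprimcase b (hother b (Finset.ne_of_mem_erase hb))
          · rw [Finset.card_erase_of_mem (Finset.mem_univ _), Finset.card_univ, hcard,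
              smul_eq_mul, Nat.add_sub_cancel]
        calc _ ≤ L.choose (s' + 1) * q ^ (s' + 1) + q * (L.choose s' * q ^ s') := Nat.add_le_add hfirst h7
          _ = (L + 1).choose (s' + 1) * q ^ (s' + 1) := by
            rw [Nat.choose_succ_succ]
            ring
      · push Not at hex
        by_cases hword : ∃ (b : SS q) (w : Fin L → SS q),
            b.val * WK_pr w = ((q ^ (s' + 1) : ℕ) : ℍ[ℤ]) * γ
        · obtain ⟨b, w, hbw⟩ := hword
          have hnd : ¬ (q : ℤ) ∣ Quaternion.normSq γ := by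
            intro hd
            obtain ⟨β, γ', hβ⟩ := h0 q hq hq4 γ hγ hd
            apply hex β γ'
            rw [hβ, ← mul_assoc, WK_star_mul]
          have hL : L + 1 = 2 * (s' + 1) :=
            WK_len hq γ hnd (Fin.cons b w) (by rw [WK_pr_cons]; exact hbw)
          have hL2 : L = 2 * s' + 1 := by omega
          have h8 : ∑ b : SS q, Nat.card {w' : Fin L → SS q //
              b.val * WK_pr w' = ((q ^ (s' + 1) : ℕ) : ℍ[ℤ]) * γ} ≤ (q + 1) * (L.choose s' * q ^ s') := by
            refine (Finset.sum_le_card_nsmul _ _ (L.choose s' * q ^ s') ?_).trans ?_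
            · intro b _
              exact hprimcase b (hex b)
            · rw [Finset.card_univ, hcard, smul_eq_mul]
          refine h8.trans ?_
          have h9 : q + 1 ≤ 2 * q := by have := hq.one_lt; omega
          have h10 : (L + 1).choose (s' + 1) = 2 * L.choose s' := by
            rw [Nat.choose_succ_succ, hL2, Nat.choose_symm_half]
            ring
          rw [h10]
          calc (q + 1) * (L.choose s' * q ^ s') ≤ (2 * q) * (L.choose s' * q ^ s') :=
                Nat.mul_le_mul_right _ h9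
            _ = 2 * L.choose s' * q ^ (s' + 1) := by ring
        · push Not at hword
          rw [Finset.sum_eq_zero]
          · exact Nat.zero_le _
          · intro b _
            exact WK_card_eq_zero (hword b)

end TauO
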