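import Mathlib
import Pool.Agent.Work.MP_972ac7_tq.All
import Pool.Agent.Work.MP_972ac7_od.EX
import Pool.Agent.Work.MP_972ac7_od.UN
import Pool.Agent.Work.MP_972ac7_od.CD
import Pool.Agent.Work.MP_972ac7_od.VV
import Pool.Agent.Work.MP_972ac7_od.HT
import Pool.Agent.Work.MP_972ac7_od.AC
import Pool.Agent.Work.MP_972ac7_od.WK
import Pool.Agent.Work.MP_972ac7_od.WC
import Pool.Agent.Work.MP_972ac7_od.NU
import Pool.Agent.Work.MP_972ac7_od.SP
import Pool.Agent.Work.MP_972ac7_od.TG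
import Pool.Agent.Work.MP_972ac7_od.SI
import Pool.Agent.Work.MP_972ac7_od.QG
import Pool.Agent.Work.MP_972ac7_od.LK
import Pool.Agent.Work.MP_972ac7_od.FP
import Pool.Agent.Work.MP_972ac7_od.TP
import Pool.Agent.Work.MP_972ac7_od.GN
import Pool.Agent.Work.MP_972ac7_od.EV

namespace TauO

theorem all_CD : Stmt_card := CD_thm EX_thm UN_thm

theorem all_WC : SQ_WC := WC_thm (WK_thm EX_thm UN_thm all_CD) TauQ.tq_count

theorem all_SP : SQ_SP :=
  SP_thm (TauQ.DL_proof TauQ.DLa_proof TauQ.sq_proof) TauQ.iso_proof TauQ.TL_proof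
    (TauQ.cardU_proof TauQ.iso_proof)

theorem all_TG : SQ_TG := TG_thm (NU_thm all_WC) all_SP TauQ.gapS_proof all_CD

theorem all_AC : SQ_AC := AC_thm EX_thm UN_thm all_CD (TauQ.TR_thm TauQ.iso_proof)

theorem all_SI : SQ_SI := SI_thm (TauQ.LA_thm TauQ.MX_thm) TauQ.WD_thm all_AC all_TG all_CD

theorem all_TP : SQ_TP :=
  TP_thm (QG_thm all_SI TauQ.joint_proof all_CD) (LK_thm (HT_thm EX_thm)) FP_thm
    (VV_thm EX_thm UN_thm)

theorem all_GN : SQ_GN := GN_thm EX_thm all_TP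

end TauO
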