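import Mathlib
import Pool.Agent.Work.MP_972ac7_od.All
import Pool.Agent.Work.MP_972ac7_tq.CM

/-!
# Final form: property tau for the norm one quaternions over `Z[1/n]`, all `n` with two odd primes
-/

open scoped Quaternion BigOperators

namespace TauO

open TauCM

lemma away_inst (n : ℕ) : @IsLocalization.Away ℤ _ (n : ℤ) (Localization.Away (n : ℤ)) _
    (Ring.toIntAlgebra (Localization.Away (n : ℤ))) := by
  have h : IsLocalization.Away (n : ℤ) (Localization.Away (n : ℤ)) := inferInstance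
  have e : (Ring.toIntAlgebra (Localization.Away (n : ℤ))) =
      (inferInstance : Algebra ℤ (Localization.Away (n : ℤ))) := Subsingleton.elim _ _
  rw [e]
  exact h

lemma odd_tau (m : ℕ) (h4 : ∀ l : ℕ, l.Prime → l ∣ m → l ≠ 2)
    (h2 : ∃ p q : ℕ, p.Prime ∧ q.Prime ∧ p ≠ q ∧ p ∣ m ∧ q ∣ m) (R : Type) [CommRing R]
    (hR : IsLocalization.Away (m : ℤ) R) : PropertyTau (unitary ℍ[R]) := by
  obtain ⟨K, c, hc, h⟩ := all_GN m h4 h2 R
  refine tau_of_gapForm K c hc ?_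
  intro N i1 i2 i3 v hv
  exact h N v hv

theorem tau_aux2 (k m : ℕ) (hm : Odd m) (h4 : ∀ l : ℕ, l.Prime → l ∣ m → l ≠ 2)
    (h2 : ∃ p q : ℕ, p.Prime ∧ q.Prime ∧ p ≠ q ∧ p ∣ m ∧ q ∣ m) (R S : Type) [CommRing R]
    [CommRing S] (hR : IsLocalization.Away (m : ℤ) R)
    (hS : IsLocalization.Away ((2 ^ k * m : ℕ) : ℤ) S) : PropertyTau (unitary ℍ[S]) := by
  have h5 := odd_tau m h4 h2 R hR
  obtain ⟨f, hf⟩ := EV_thm m k hm R S
  exact tau_overgroup f.range (tau_quotient f.rangeRestrict f.rangeRestrict_surjective h5)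

theorem tau_aux (n : ℕ) (hn : n ≠ 0)
    (h2 : ∃ p q : ℕ, p.Prime ∧ q.Prime ∧ p ≠ 2 ∧ q ≠ 2 ∧ p ≠ q ∧ p ∣ n ∧ q ∣ n)
    (S : Type) [CommRing S] (hS : IsLocalization.Away (n : ℤ) S) : PropertyTau (unitary ℍ[S]) := by
  obtain ⟨k, m, hm, hnm⟩ := Nat.exists_eq_two_pow_mul_odd hn
  obtain ⟨p, q, hp, hq, hp2, hq2, hpq, hpn, hqn⟩ := h2
  have key : ∀ l : ℕ, l.Prime → l ≠ 2 → l ∣ n → l ∣ m := by
    intro l hl hl2 hln
    rw [hnm] at hln
    rcases (Nat.Prime.dvd_mul hl).1 hln with h | h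
    · exfalso
      have := hl.dvd_of_dvd_pow h
      exact hl2 ((Nat.prime_dvd_prime_iff_eq hl Nat.prime_two).1 this)
    · exact h
  have h4 : ∀ l : ℕ, l.Prime → l ∣ m → l ≠ 2 := by
    rintro l - hlm rfl
    obtain ⟨t, ht⟩ := hm
    omega
  have hS' : IsLocalization.Away ((2 ^ k * m : ℕ) : ℤ) S := by rw [← hnm]; exact hS
  exact tau_aux2 k m hm h4 ⟨p, q, hp, hq, hpq, key p hp hp2 hpn, key q hq hq2 hqn⟩
    (Localization.Away (m : ℤ)) S (away_inst m) hS'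

/-- The group of the Hamilton quaternions of norm one (`x x* = x* x = 1`) over `R`. -/
abbrev NormOneQuaternions (R : Type) [CommRing R] : Type := unitary ℍ[R]

/-- Property tau of the norm one Hamilton quaternions over `ℤ[1/n]`. -/
theorem tau_all (n : ℕ) (hn : n ≠ 0)
    (h2 : ∃ p q : ℕ, p.Prime ∧ q.Prime ∧ p ≠ 2 ∧ q ≠ 2 ∧ p ≠ q ∧ p ∣ n ∧ q ∣ n) :
    PropertyTau (NormOneQuaternions (Localization.Away (n : ℤ))) :=
  tau_aux n hn h2 (Localization.Away (n : ℤ)) (away_inst n)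

end TauO
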