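import Mathlib
import Pool.Agent.Work.MP_972ac7_od.Interface
import Pool.Agent.Work.MP_972ac7_tq.TG

/-!
# Block TG: uniform gap at all levels `p^R`, all odd primes (helper52, after helper84)
-/

set_option autoImplicit false
set_option linter.unusedSectionVars false

open scoped Quaternion BigOperators Matrix ComplexOrder

namespace TauO

open TauQ

lemma TG_inv {M M' : ℕ} [NeZero M] [NeZero M'] (hd : M' ∣ M) {q : ℕ} (hM : Nat.Coprime q M) :
    ZMod.castHom hd (ZMod M') ((((pst q : ℤ) : ZMod M))⁻¹) = (((pst q : ℤ) : ZMod M'))⁻¹ := by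
  have h1 := pst_unit hM
  have h2 := pst_unit (Nat.Coprime.coprime_dvd_right hd hM)
  have h3 := congrArg (ZMod.castHom hd (ZMod M')) h1
  rw [map_mul, map_one, map_intCast] at h3
  calc ZMod.castHom hd (ZMod M') ((((pst q : ℤ) : ZMod M))⁻¹)
      = (((pst q : ℤ) : ZMod M') * (((pst q : ℤ) : ZMod M'))⁻¹) *
          ZMod.castHom hd (ZMod M') ((((pst q : ℤ) : ZMod M))⁻¹) := by
        rw [h2, one_mul]
    _ = (((pst q : ℤ) : ZMod M'))⁻¹ * (((pst q : ℤ) : ZMod M') *
          ZMod.castHom hd (ZMod M') ((((pst q : ℤ) : ZMod M))⁻¹)) := by ring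
    _ = (((pst q : ℤ) : ZMod M'))⁻¹ := by rw [h3, mul_one]

lemma TG_rU_uM {M M' : ℕ} [NeZero M] [NeZero M'] (hd : M' ∣ M) {q : ℕ} (hM : Nat.Coprime q M)
    (hM' : Nat.Coprime q M') (b' b : SS q) : TG_rU hd (uM M hM b' b) = uM M' hM' b' b := by
  apply Subtype.ext
  rw [TG_rU_val]
  show TG_r hd (((((pst q : ℤ) : ZMod M))⁻¹) • redM M (b'.val * b.val)) =
    ((((pst q : ℤ) : ZMod M'))⁻¹) • redM M' (b'.val * b.val)
  rw [TG_r_smul, TG_r_redM, TG_inv hd hM]

/-- the statement at one level -/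
def TG_P (p q R : ℕ) (g : ℝ) (O : ℕ) : Prop :=
  ∀ [NeZero (p ^ R)] (hM : Nat.Coprime q (p ^ R)),
    ∃ o : unitary ℍ[ZMod (p ^ R)] → Fin O,
      (∀ (b' b : SS q) (x : unitary ℍ[ZMod (p ^ R)]), o (uM (p ^ R) hM b' b * x) = o x) ∧
      ∀ φ : unitary ℍ[ZMod (p ^ R)] → ℂ, (∀ j, ∑ x, (if o x = j then φ x else 0) = 0) →
        2 * g * ∑ x, ‖φ x‖ ^ 2 ≤
          ∑ b' : SS q, ∑ b : SS q, ∑ x, ‖φ (uM (p ^ R) hM b' b * x) - φ x‖ ^ 2

lemma TG_mono {p q R : ℕ} {g g' : ℝ} {O O' : ℕ} (h : TG_P p q R g O) (hg : g' ≤ g)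
    (hO : O ≤ O') : TG_P p q R g' O' := by
  intro _ hM
  obtain ⟨o, h1, h2⟩ := h hM
  refine ⟨fun x => Fin.castLE hO (o x), ?_, ?_⟩
  · intro b' b x
    show Fin.castLE hO (o _) = Fin.castLE hO (o x)
    rw [h1]
  · intro φ hφ
    have h3 := h2 φ (by
      intro j
      refine Eq.trans ?_ (hφ (Fin.castLE hO j))
      apply Finset.sum_congr rfl
      intro x _
      simp only [(Fin.castLE_injective hO).eq_iff])
    have h4 : 0 ≤ ∑ x, ‖φ x‖ ^ 2 := Finset.sum_nonneg fun _ _ => sq_nonneg _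
    refine le_trans ?_ h3
    nlinarith

lemma TG_one (hgap : Stmt_gapS) (p q R : ℕ) (hp : p.Prime) :
    ∃ (g : ℝ) (O : ℕ), 0 < g ∧ TG_P p q R g O := by
  have : NeZero (p ^ R) := ⟨(pow_pos hp.pos R).ne'⟩
  by_cases hM : Nat.Coprime q (p ^ R)
  · obtain ⟨g, o, hg, h1, h2⟩ := TG_finite hgap (unitary ℍ[ZMod (p ^ R)]) (SS q × SS q)
      (fun i => uM (p ^ R) hM i.1 i.2)
    refine ⟨g, Fintype.card (unitary ℍ[ZMod (p ^ R)]), hg, ?_⟩
    intro _ hM'
    refine ⟨o, fun b' b x => h1 (b', b) x, fun φ hφ => ?_⟩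
    have h3 := h2 φ hφ
    rw [Fintype.sum_prod_type] at h3
    exact h3
  · refine ⟨1, 0, one_pos, ?_⟩
    intro _ hM'
    exact absurd hM' hM

lemma TG_many (hgap : Stmt_gapS) (p q : ℕ) (hp : p.Prime) (r : ℕ) :
    ∃ (g : ℝ) (O : ℕ), 0 < g ∧ ∀ R, R ≤ r → TG_P p q R g O := by
  induction r with
  | zero =>
    obtain ⟨g, O, hg, h⟩ := TG_one hgap p q 0 hp
    refine ⟨g, O, hg, fun R hR => ?_⟩
    obtain rfl : R = 0 := by omega
    exact h
  | succ r ih =>
    obtain ⟨g, O, hg, h⟩ := ih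
    obtain ⟨g', O', hg', h'⟩ := TG_one hgap p q (r + 1) hp
    refine ⟨min g g', max O O', lt_min hg hg', fun R hR => ?_⟩
    rcases Nat.lt_or_ge r R with hlt | hge
    · obtain rfl : R = r + 1 := by omega
      exact TG_mono h' (min_le_right _ _) (le_max_right _ _)
    · exact TG_mono (h R hge) (min_le_left _ _) (le_max_left _ _)

lemma TG_uM_inv {q M : ℕ} (hM : Nat.Coprime q M) (b' b : SS q) :
    uM M hM b.inv b'.inv = (uM M hM b' b)⁻¹ := by
  have e : b.inv.val * b'.inv.val = star (b'.val * b.val) := by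
    rw [SS.inv_val, SS.inv_val, star_mul, mul_assoc, ← mul_assoc (star b.val),
      ← (Int.cast_commute (eps q) (star b.val)).eq, mul_assoc, ← mul_assoc, ← Int.cast_mul,
      eps_sq, Int.cast_one, one_mul]
  apply Subtype.ext
  show ((((pst q : ℤ) : ZMod M))⁻¹) • redM M (b.inv.val * b'.inv.val) =
    star (((((pst q : ℤ) : ZMod M))⁻¹) • redM M (b'.val * b.val))
  rw [e, redM, qmap_star]
  ext <;> simp

/-- lifting the gap from the level `p^r` -/
lemma TG_lift (hSP : SQ_SP) (hcard : Stmt_card) (p q r R : ℕ) (hp : p.Prime) (hq : q.Prime)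
    (hp2 : p ≠ 2) (hq2 : q ≠ 2) (hrR : r ≤ R) (g : ℝ) (O : ℕ)
    (hP : TG_P p q r g O)
    (hNU : ∀ i, r < i → ∀ μ : ℝ, ((q : ℝ) + 1) ^ 2 - g ≤ μ →
      ¬ ∀ j : ℕ, ((p ^ i).totient : ℝ) * μ ^ (2 * j) ≤
        2 * (((p ^ i : ℕ) : ℝ) ^ 3 * (WW q (p ^ i) (4 * j) : ℝ))) :
    TG_P p q R g O := by
  intro hne hM
  classical
  have hne' : NeZero (p ^ r) := ⟨(pow_pos hp.pos r).ne'⟩
  have hd : p ^ r ∣ p ^ R := pow_dvd_pow p hrR
  have hM' : Nat.Coprime q (p ^ r) := Nat.Coprime.coprime_dvd_right hd hM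
  obtain ⟨o, ho1, ho2⟩ := hP hM'
  have hcq : Fintype.card (SS q) = q + 1 := by
    exact hcard q hq hq2
  have hcι : (Fintype.card (SS q × SS q) : ℝ) = ((q : ℝ) + 1) ^ 2 := by
    rw [Fintype.card_prod, hcq]
    push_cast
    ring
  have hoR : ∀ (i : SS q × SS q) (x : unitary ℍ[ZMod (p ^ R)]),
      o (TG_rU hd (uM (p ^ R) hM i.1 i.2 * x)) = o (TG_rU hd x) := by
    intro i x
    rw [map_mul, TG_rU_uM hd hM hM', ho1]
  refine ⟨fun x => o (TG_rU hd x), fun b' b x => hoR (b', b) x, ?_⟩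
  intro φ hφ
  have key := TG_gap (U := unitary ℍ[ZMod (p ^ R)]) (ι := SS q × SS q)
    (fun x => o (TG_rU hd x)) (fun i => uM (p ^ R) hM i.1 i.2) hoR
    (fun i => (i.2.inv, i.1.inv)) (fun i => by simp only [SS.inv_inv])
    (fun i => TG_uM_inv hM i.1 i.2) g ?_ φ hφ
  · rw [Fintype.sum_prod_type] at key
    exact key
  · intro μ f hf0 hfz hfT
    rw [hcι]
    by_contra hμ
    rw [not_le] at hμ
    have hfT' : ∀ x, ∑ b' : SS q, ∑ b : SS q, f (uM (p ^ R) hM b' b * x) = (μ : ℂ) * f x := by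
      intro x
      rw [← hfT x, Fintype.sum_prod_type]
    -- invariance
    have hinv : ∀ x k : unitary ℍ[ZMod (p ^ R)], TG_rU hd k = 1 → f (x * k) = f x := by
      intro x k hk
      by_contra hne2
      obtain ⟨i, hi1, -, hi3⟩ := hSP q hq hq2 p R r hp hp2 hrR hM μ f hfT'
        ⟨x, k, TG_ker hd k hk, hne2⟩
      exact hNU i hi1 μ hμ.le hi3
    have hinv2 : ∀ x x' : unitary ℍ[ZMod (p ^ R)], TG_rU hd x = TG_rU hd x' → f x = f x' := by
      intro x x' hxx
      have h1 := hinv x' (x'⁻¹ * x) (by rw [map_mul, map_inv, hxx, inv_mul_cancel])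
      rw [mul_inv_cancel_left] at h1
      exact h1
    -- descend
    let F : unitary ℍ[ZMod (p ^ r)] → ℂ := fun y =>
      if h : ∃ x, TG_rU hd x = y then f (Classical.choose h) else 0
    have hFon : ∀ x, F (TG_rU hd x) = f x := by
      intro x
      have h : ∃ x', TG_rU hd x' = TG_rU hd x := ⟨x, rfl⟩
      show (if h : ∃ x', TG_rU hd x' = TG_rU hd x then f (Classical.choose h) else 0) = f x
      rw [dif_pos h]
      exact hinv2 _ _ (Classical.choose_spec h)
    have hFoff : ∀ y, (¬ ∃ x, TG_rU hd x = y) → F y = 0 := by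
      intro y hy
      show (if h : ∃ x', TG_rU hd x' = y then f (Classical.choose h) else 0) = 0
      rw [dif_neg hy]
    have hFT : ∀ y, ∑ i : SS q × SS q, F (uM (p ^ r) hM' i.1 i.2 * y) = (μ : ℂ) * F y := by
      intro y
      by_cases h : ∃ x, TG_rU hd x = y
      · obtain ⟨x, rfl⟩ := h
        rw [hFon, ← hfT x]
        apply Finset.sum_congr rfl
        intro i _
        rw [← hFon, map_mul, TG_rU_uM hd hM hM']
      · rw [hFoff y h, mul_zero]
        apply Finset.sum_eq_zero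
        intro i _
        apply hFoff
        rintro ⟨x, hx⟩
        apply h
        refine ⟨(uM (p ^ R) hM i.1 i.2)⁻¹ * x, ?_⟩
        rw [map_mul, map_inv, hx, TG_rU_uM hd hM hM', inv_mul_cancel_left]
    -- fibres of the reduction
    have hfib : ∀ (G : unitary ℍ[ZMod (p ^ r)] → ℂ), (∀ y, (¬ ∃ x, TG_rU hd x = y) → G y = 0) →
        (Fintype.card (TG_rU (M := p ^ R) (M' := p ^ r) hd).ker : ℂ) * ∑ y, G y =
          ∑ x, G (TG_rU hd x) := by
      intro G hG
      rw [← Finset.sum_fiberwise (Finset.univ : Finset (unitary ℍ[ZMod (p ^ R)]))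
        (fun x => TG_rU hd x), Finset.mul_sum]
      apply Finset.sum_congr rfl
      intro y _
      rw [Finset.sum_congr rfl (g := fun _ => G y) (by
        intro x hx
        rw [Finset.mem_filter] at hx
        rw [hx.2])]
      rw [Finset.sum_const, nsmul_eq_mul]
      by_cases h : ∃ x, TG_rU hd x = y
      · congr 2
        obtain ⟨x0, hx0⟩ := h
        rw [← Finset.card_univ]
        refine Finset.card_bij (fun (k : (TG_rU (M := p ^ R) (M' := p ^ r) hd).ker) _ =>
          x0 * (k : unitary ℍ[ZMod (p ^ R)])) ?_ ?_ ?_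
        · intro k _
          rw [Finset.mem_filter]
          refine ⟨Finset.mem_univ _, ?_⟩
          have := k.2
          rw [MonoidHom.mem_ker] at this
          rw [map_mul, this, mul_one, hx0]
        · intro k _ k' _ hkk
          exact Subtype.ext (mul_left_cancel hkk)
        · intro x hx
          rw [Finset.mem_filter] at hx
          refine ⟨⟨x0⁻¹ * x, ?_⟩, Finset.mem_univ _, ?_⟩
          · rw [MonoidHom.mem_ker, map_mul, map_inv, hx0, hx.2, inv_mul_cancel]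
          · show x0 * (x0⁻¹ * x) = x
            rw [mul_inv_cancel_left]
      · rw [hG y h, mul_zero, mul_zero]
    have hFz : ∀ j, ∑ y, (if o y = j then F y else 0) = 0 := by
      intro j
      have h1 := hfib (fun y => if o y = j then F y else 0) (by
        intro y hy
        rw [hFoff y hy, ite_self])
      have h2 : ∑ x, (fun y => if o y = j then F y else 0) (TG_rU hd x) = 0 := by
        refine Eq.trans ?_ (hfz j)
        apply Finset.sum_congr rfl
        intro x _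
        simp only [hFon]
      rw [h2] at h1
      rcases mul_eq_zero.1 h1 with h3 | h3
      · exfalso
        have : (Fintype.card (TG_rU (M := p ^ R) (M' := p ^ r) hd).ker : ℂ) ≠ 0 := by
          exact_mod_cast Fintype.card_ne_zero
        exact this h3
      · exact h3
    have hF0 : 0 < ∑ y, ‖F y‖ ^ 2 := by
      obtain ⟨x, hx⟩ : ∃ x, f x ≠ 0 := by
        by_contra hcon
        push Not at hcon
        exact hf0 (funext hcon)
      apply Finset.sum_pos' (fun _ _ => sq_nonneg _)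
      refine ⟨TG_rU hd x, Finset.mem_univ _, ?_⟩
      rw [hFon]
      positivity
    have hE := ho2 F hFz
    have hE2 := TG_energy (U := unitary ℍ[ZMod (p ^ r)]) (ι := SS q × SS q)
      (fun i => uM (p ^ r) hM' i.1 i.2) F
    rw [Fintype.sum_prod_type] at hE2
    rw [hE2, hcι] at hE
    have h5 : (∑ y, (starRingEnd ℂ) (∑ i : SS q × SS q, F (uM (p ^ r) hM' i.1 i.2 * y)) * F y).re
        = μ * ∑ y, ‖F y‖ ^ 2 := by
      have h6 : ∀ y, (starRingEnd ℂ) (∑ i : SS q × SS q, F (uM (p ^ r) hM' i.1 i.2 * y)) * F y =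
          ((μ * ‖F y‖ ^ 2 : ℝ) : ℂ) := by
        intro y
        rw [hFT y, map_mul, Complex.conj_ofReal, mul_assoc, Complex.conj_mul']
        push_cast
        ring
      rw [Finset.sum_congr rfl fun y _ => h6 y, ← Complex.ofReal_sum, Complex.ofReal_re,
        ← Finset.mul_sum]
    rw [h5] at hE
    nlinarith

theorem TG_thm (h1 : SQ_NU) (h2 : SQ_SP) (h3 : Stmt_gapS) (h4 : Stmt_card) : SQ_TG := by
  intro p q hp hq hp2 hq2 hpq
  obtain ⟨g₀, L₀, hg₀, hNU⟩ := h1 q hq hq2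
  -- the level `r`
  have hr : ∀ i, L₀ ≤ i → L₀ ≤ p ^ i := fun i hi =>
    hi.trans (Nat.lt_pow_self hp.one_lt).le
  obtain ⟨g₁, O, hg₁, hP⟩ := TG_many h3 p q hp L₀
  refine ⟨min g₀ g₁, O, lt_min hg₀ hg₁, ?_⟩
  intro R hne hM
  have hfin : TG_P p q R (min g₀ g₁) O := by
    rcases Nat.lt_or_ge L₀ R with hlt | hge
    · refine TG_lift h2 h4 p q L₀ R hp hq hp2 hq2 hlt.le _ O
        (TG_mono (hP L₀ le_rfl) (min_le_right _ _) le_rfl) ?_
      intro i hi μ hμ
      exact hNU p i hp hp2 hpq (hr i hi.le) μ (by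
        have := min_le_left g₀ g₁
        linarith)
    · exact TG_mono (hP R hge) (min_le_right _ _) le_rfl
  exact hfin hM

end TauO
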