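import Pool.Agent.Work.MP_972ac7_od.Final

/-!
Property tau, with respect to all finite-index subgroups, of the group of the Hamilton quaternions
of norm one over `ℤ[1/n]`, for every positive `n` with at least two odd prime factors, and of all
groups commensurable with it.
-/

open scoped Quaternion BigOperators

namespace TauO.TauAllFiniteQuotients

/-- Property tau of a group `G` with respect to all finite-index subgroups: there are a finite set
`K` in `G` and `ε > 0` such that for every normal subgroup `N` of finite index and every unit vector
`v` of zero sum on `G ⧸ N` some `s` in `K` has `‖s v - v‖ ≥ ε`, where `(s v) x = v (s⁻¹ x)`. -/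
def PropertyTau (G : Type) [Group G] : Prop :=
  ∃ (K : Finset G) (ε : ℝ), 0 < ε ∧ ∀ (N : Subgroup G) [N.Normal] [N.FiniteIndex]
    [Fintype (G ⧸ N)] (v : G ⧸ N → ℂ), ∑ x, v x = 0 → ∑ x, ‖v x‖ ^ 2 = 1 →
    ∃ s ∈ K, ε ≤ √(∑ x, ‖v ((s⁻¹ : G) * x) - v x‖ ^ 2)

/-- The group of the Hamilton quaternions of norm one (`x x* = x* x = 1`) over the commutative
ring `R`. -/
abbrev NormOneQuaternions (R : Type) [CommRing R] : Type := unitary ℍ[R]

/-- Let `n` be a positive integer with at least two different odd prime factors, and let `G` be the
group of the Hamilton quaternions of norm one over `ℤ[1/n]`. Then every group `Γ` with a subgroup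
`A` of finite index which is a homomorphic image of a subgroup `B` of finite index of `G` has
property tau with respect to all its finite-index subgroups. (In particular `G` itself, and its
quotient by the centre.) -/
theorem result (n : ℕ) (hn : n ≠ 0)
    (h : ∃ p q : ℕ, p.Prime ∧ q.Prime ∧ p ≠ 2 ∧ q ≠ 2 ∧ p ≠ q ∧ p ∣ n ∧ q ∣ n)
    (B : Subgroup (NormOneQuaternions (Localization.Away (n : ℤ)))) [B.FiniteIndex]
    (Γ : Type) [Group Γ] (A : Subgroup Γ) [A.FiniteIndex] (f : B →* A)
    (hf : Function.Surjective f) : PropertyTau Γ :=
  TauCM.tau_commensurable (TauO.tau_all n hn h) B A f hf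

end TauO.TauAllFiniteQuotients
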